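import Pool.Agent.P.MP_833722_gt.Potts

/-! Braided modules: sliding a cap down a diagram. -/

set_option autoImplicit false

namespace Pool.Agent.P.MP_833722_gt

/-- a module with cups, caps and crossings -/
structure Br (R M : Type) [CommRing R] [AddCommGroup M] [Module R M] where
  cup : ℕ → M →ₗ[R] M
  cap : ℕ → M →ₗ[R] M
  X : Bool → ℕ → M →ₗ[R] M
  κ : Bool → Rˣ
  z1 : ∀ i v, cap (i + 1) (cup i v) = v
  z2 : ∀ i v, cap i (cup (i + 1) v) = v
  c1 : ∀ i j v, i ≤ j → cap i (cup (j + 2) v) = cup j (cap i v)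
  c2 : ∀ i j v, j ≤ i → cap (i + 2) (cup j v) = cup j (cap i v)
  k1 : ∀ s i v, cap i (X s i v) = (κ s : R) • cap i v
  k2 : ∀ s i v, X s i (cup i v) = (κ s : R) • cup i v
  r2 : ∀ i v, X false i (X true i v) = v
  r2' : ∀ i v, X true i (X false i v) = v
  r3 : ∀ s i v, X false i (X false (i + 1) (X s i v)) = X s (i + 1) (X false i (X false (i + 1) v))
  p1 : ∀ i v, cap i (X false (i + 1) v) = cap (i + 1) (X true i v)
  p2 : ∀ i v, X false (i + 1) (cup i v) = X true i (cup (i + 1) v)
  xx : ∀ s t i j v, i + 2 ≤ j → X s i (X t j v) = X t j (X s i v)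
  x1 : ∀ s i j v, i ≤ j → cap i (X s (j + 2) v) = X s j (cap i v)
  x2 : ∀ s i j v, j + 2 ≤ i → cap i (X s j v) = X s j (cap i v)
  x3 : ∀ s i j v, i ≤ j → X s (j + 2) (cup i v) = cup i (X s j v)
  x4 : ∀ s i j v, j + 2 ≤ i → X s j (cup i v) = cup i (X s j v)

/-- a cap joining strands `p` and `p + n + 1` above the strands in between -/
def oc (p : ℕ) : ℕ → List Pc
  | 0 => [.cap p]
  | n + 1 => .cr (p + n + 1) false :: oc p n

/-- a strand moving to the left -/
def ml (p : ℕ) : ℕ → List Pc
  | 0 => []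
  | n + 1 => .cr (p + n) false :: ml p n

/-- a strand moving to the right -/
def mr : ℕ → ℕ → List Pc
  | _, 0 => []
  | p, n + 1 => .cr p true :: mr (p + 1) n

namespace Br

variable {R M : Type} [CommRing R] [AddCommGroup M] [Module R M] (B : Br R M)

/-- evaluation of a word -/
def ev : List Pc → M →ₗ[R] M
  | [] => LinearMap.id
  | .cup i _ :: w => ev w ∘ₗ B.cup i
  | .cap i :: w => ev w ∘ₗ B.cap i
  | .cr i s :: w => ev w ∘ₗ B.X s i

theorem ev_append : ∀ (p w : List Pc) (v : M), B.ev (p ++ w) v = B.ev w (B.ev p v)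
  | [], _, _ => rfl
  | .cup _ _ :: p, w, _ => ev_append p w _
  | .cap _ :: p, w, _ => ev_append p w _
  | .cr _ _ :: p, w, _ => ev_append p w _

theorem oc_zero (p : ℕ) (v : M) : B.ev (oc p 0) v = B.cap p v := rfl

theorem oc_succ (p n : ℕ) (v : M) :
    B.ev (oc p (n + 1)) v = B.ev (oc p n) (B.X false (p + n + 1) v) := rfl

theorem oc_left (p : ℕ) : ∀ (n : ℕ) (v : M),
    B.ev (oc p (n + 1)) v = B.ev (oc (p + 1) n) (B.X true p v)
  | 0, v => B.p1 p v
  | n + 1, v => by
    rw [oc_succ, oc_left p n, oc_succ, B.xx _ _ _ _ _ (by omega)]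
    congr 3
    ring

theorem oc_xr (s : Bool) (p j : ℕ) : ∀ (n : ℕ) (v : M), p + n ≤ j →
    B.ev (oc p n) (B.X s (j + 2) v) = B.X s j (B.ev (oc p n) v)
  | 0, v, h => B.x1 s p j v h
  | n + 1, v, h => by
    rw [oc_succ, oc_succ, B.xx _ _ _ _ _ (by omega), oc_xr s p j n _ (by omega)]

theorem oc_xl (s : Bool) (p j : ℕ) (h : j + 2 ≤ p) : ∀ (n : ℕ) (v : M),
    B.ev (oc p n) (B.X s j v) = B.X s j (B.ev (oc p n) v)
  | 0, v => B.x2 s p j v h
  | n + 1, v => by rw [oc_succ, oc_succ, ← B.xx _ _ _ _ _ (by omega), oc_xl s p j h n]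

theorem oc_xi (s : Bool) (p j : ℕ) (h : p ≤ j) : ∀ (n : ℕ) (v : M), j + 2 ≤ p + n →
    B.ev (oc p n) (B.X s (j + 1) v) = B.X s j (B.ev (oc p n) v)
  | 0, v, h' => by omega
  | 1, v, h' => by omega
  | n + 2, v, h' => by
    rcases eq_or_ne j (p + n) with rfl | e
    · simp only [oc_succ, ← add_assoc]
      rw [B.r3, oc_xr _ _ _ _ _ _ le_rfl]
    · rw [oc_succ, oc_succ _ _ (n + 1), ← B.xx _ _ _ _ _ (by omega),
        oc_xi s p j h (n + 1) _ (by omega)]

theorem oc_cl (p j : ℕ) (h : j ≤ p) : ∀ (n : ℕ) (v : M),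
    B.ev (oc (p + 2) n) (B.cup j v) = B.cup j (B.ev (oc p n) v)
  | 0, v => B.c2 p j v h
  | n + 1, v => by
    rw [oc_succ, oc_succ, show p + 2 + n + 1 = p + n + 1 + 2 by ring, B.x3 _ _ _ _ (by omega),
      oc_cl p j h n]

theorem oc_cr (p j : ℕ) : ∀ (n : ℕ) (v : M), p + n ≤ j →
    B.ev (oc p n) (B.cup (j + 2) v) = B.cup j (B.ev (oc p n) v)
  | 0, v, h => B.c1 p j v h
  | n + 1, v, h => by rw [oc_succ, oc_succ, B.x4 _ _ _ _ (by omega), oc_cr p j n _ (by omega)]

theorem oc_ci (p j : ℕ) (h : p ≤ j) : ∀ (n : ℕ) (v : M), j ≤ p + n →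
    B.ev (oc p (n + 2)) (B.cup (j + 1) v) = B.cup j (B.ev (oc p n) v) := by
  have e : ∀ n v, B.ev (oc p (n + 2)) (B.cup (p + n + 1) v) =
      B.cup (p + n) (B.ev (oc p n) v) := fun n v => by
    simp only [oc_succ, ← add_assoc]
    rw [B.p2, B.r2, oc_cr _ _ _ _ _ le_rfl]
  intro n
  induction n with
  | zero => intro v h'; obtain rfl : j = p := by omega
            exact e 0 v
  | succ n ih =>
    intro v h'
    rcases eq_or_ne j (p + (n + 1)) with rfl | e1
    · exact e _ v
    · rw [oc_succ, oc_succ _ _ n, show p + (n + 2) + 1 = p + n + 1 + 2 by ring,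
        B.x3 _ _ _ _ (by omega), ih _ (by omega)]

theorem oc_ml (p : ℕ) : ∀ (n : ℕ) (v : M), B.ev (oc (p + 1) n) (B.cup p v) = B.ev (ml p n) v
  | 0, v => B.z1 p v
  | n + 1, v => by
    rw [oc_succ, show p + 1 + n + 1 = p + n + 2 by ring, B.x3 _ _ _ _ (by omega), oc_ml p n]
    rfl

theorem oc_mr : ∀ (n p : ℕ) (v : M), B.ev (oc p n) (B.cup (p + n + 1) v) = B.ev (mr p n) v
  | 0, p, v => B.z2 p v
  | n + 1, p, v => by
    rw [oc_left, B.x4 _ _ _ _ (by omega), show p + (n + 1) + 1 = p + 1 + n + 1 by ring,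
      oc_mr n (p + 1)]
    rfl

end Br

section inst

variable {R M : Type} [CommRing R] [AddCommGroup M] [Module R M]

/-- crossings from cups and caps -/
def TL.br (a : Rˣ) (T : TL R M (-(a : R) ^ 2 - (↑a⁻¹ : R) ^ 2))
    (cc : ∀ i j v, i ≤ j → T.cup (j + 2) (T.cup i v) = T.cup i (T.cup j v))
    (pp : ∀ i j v, i ≤ j → T.cap i (T.cap (j + 2) v) = T.cap j (T.cap i v)) : Br R M :=
  have h : (a : R) * ↑a⁻¹ = 1 := by simp
  { cup := T.cup
    cap := T.cap
    X s i := (if s then (a : R) else ↑a⁻¹) • LinearMap.id +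
      (if s then (↑a⁻¹ : R) else a) • (T.cup i ∘ₗ T.cap i)
    κ s := if s then -a⁻¹ ^ 3 else -a ^ 3
    z1 := T.z1
    z2 := T.z2
    c1 := T.c1
    c2 := T.c2
    k1 s i v := by cases s <;> simp [T.loop] <;> match_scalars <;> grind
    k2 s i v := by cases s <;> simp [T.loop] <;> match_scalars <;> grind
    r2 i v := by simp [T.loop]; match_scalars <;> grind
    r2' i v := by simp [T.loop]; match_scalars <;> grind
    r3 s i v := by cases s <;> simp [T.loop, T.z1, T.z2] <;> match_scalars <;> grind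
    p1 i v := by simp [T.z1, T.z2, add_comm]
    p2 i v := by simp [T.z1, T.z2, add_comm]
    xx s t i j v hij := by
      obtain ⟨j, rfl⟩ : ∃ k, j = k + 2 := ⟨j - 2, by omega⟩
      have := Nat.le_of_add_le_add_right hij
      cases s <;> cases t <;>
        simp [T.c1 _ _ _ this, T.c2 _ _ _ this, cc _ _ _ this, pp _ _ _ this] <;> module
    x1 s i j v hij := by cases s <;> simp [T.c1 _ _ _ hij, pp _ _ _ hij]
    x2 s i j v hij := by
      obtain ⟨i, rfl⟩ : ∃ k, i = k + 2 := ⟨i - 2, by omega⟩
      have := Nat.le_of_add_le_add_right hij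
      cases s <;> simp [T.c2 _ _ _ this, pp _ _ _ this]
    x3 s i j v hij := by cases s <;> simp [T.c2 _ _ _ hij, cc _ _ _ hij]
    x4 s i j v hij := by
      obtain ⟨i, rfl⟩ : ∃ k, i = k + 2 := ⟨i - 2, by omega⟩
      have := Nat.le_of_add_le_add_right hij
      cases s <;> simp [T.c1 _ _ _ this, cc _ _ _ this] }

theorem TL.br_ev (a : Rˣ) (T : TL R M (-(a : R) ^ 2 - (↑a⁻¹ : R) ^ 2)) (cc pp) :
    ∀ (w : List Pc) (v : M), (T.br a cc pp).ev w v = T.ev a (↑a⁻¹ : R) w v
  | [], _ => rfl
  | .cup _ _ :: w, _ => br_ev a T cc pp w _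
  | .cap _ :: w, _ => br_ev a T cc pp w _
  | .cr _ _ :: w, _ => br_ev a T cc pp w _

/-- the vertex model -/
def vT (a : Rˣ) : TL R ((ℕ → Bool) → R) (-(a : R) ^ 2 - (↑a⁻¹ : R) ^ 2) :=
  hTL (fun _ b => if b then -(a : R) ^ 2 else 1) (fun _ b => if b then 1 else -(↑a⁻¹ : R) ^ 2) _
    (fun _ => by simp [sub_eq_add_neg]) (fun _ b => by cases b <;> simp [← mul_pow])
    (fun _ b => by cases b <;> simp [← mul_pow])

/-- the braided vertex model -/
def vB (a : Rˣ) : Br R ((ℕ → Bool) → R) :=
  (vT a).br a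
    (fun i j v h => by
      funext x
      have e : del2 i (del2 (j + 2) x) = del2 j (del2 i x) := by funext k; (simp only [ins1, del1, ins2, del2]; split_ifs <;> first | rfl | (exfalso; omega) | (congr 1; omega))
      simp only [vT, hTL, hcup_apply, e, del2_lt (show i < j + 2 by omega),
        del2_lt (show i + 1 < j + 2 by omega), del2_ge h, del2_ge (Nat.le_succ_of_le h)]
      split_ifs <;> ring)
    (fun i j v h => by
      funext x
      have e : ∀ a b c d, ins2 (j + 2) a b (ins2 i c d x) = ins2 i c d (ins2 j a b x) :=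
        fun a b c d => by funext k; (simp only [ins1, del1, ins2, del2]; split_ifs <;> first | rfl | (exfalso; omega) | (congr 1; omega))
      simp only [vT, hTL, hcap_apply, e, Fintype.sum_bool]
      ring)

/-- exchange of two entries -/
def sw {α : Type} (i : ℕ) (c : ℕ → α) : ℕ → α :=
  fun k => if k = i then c (i + 1) else if k = i + 1 then c i else c k

/-- the colouring model -/
def cB : Br ℤ ((ℕ → Bool) → ℤ) where
  cup i := ⟨⟨cupC i, fun g h => by funext c; simp only [cupC, Pi.add_apply]; split_ifs <;> simp⟩,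
    fun r g => by funext c; simp [cupC]⟩
  cap i := ⟨⟨capC i, fun g h => by funext c; simp [capC]; ring⟩,
    fun r g => by funext c; simp [capC]; ring⟩
  X _ i := LinearMap.funLeft ℤ ℤ (sw i)
  κ _ := 1
  z1 i v := by
    funext x
    have e : ∀ t, x i = t → del2 i (ins2 (i + 1) t t x) = x := by rintro _ rfl; funext k; (simp only [ins1, del1, ins2, del2]; split_ifs <;> first | rfl | (exfalso; omega) | (congr 1; omega))
    simp +contextual [capC, cupC, ins2_lt, e]
  z2 i v := by
    funext x
    have e : ∀ t, t = x i → del2 (i + 1) (ins2 i t t x) = x := by rintro _ rfl; funext k; (simp only [ins1, del1, ins2, del2]; split_ifs <;> first | rfl | (exfalso; omega) | (congr 1; omega))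
    simp +contextual [capC, cupC, ins2_ge, e]
  c1 i j v h := by
    funext x
    have e : ∀ t, del2 (j + 2) (ins2 i t t x) = ins2 i t t (del2 j x) := fun t => by
      funext k; (simp only [ins1, del1, ins2, del2]; split_ifs <;> first | rfl | (exfalso; omega) | (congr 1; omega))
    simp [capC, cupC, ins2_ge h, show j + 2 + 1 = j + 1 + 2 from rfl,
      ins2_ge (Nat.le_succ_of_le h), e]
  c2 i j v h := by
    funext x
    have e : ∀ t, del2 j (ins2 (i + 2) t t x) = ins2 i t t (del2 j x) := fun t => by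
      funext k; (simp only [ins1, del1, ins2, del2]; split_ifs <;> first | rfl | (exfalso; omega) | (congr 1; omega))
    simp [capC, cupC, ins2_lt (show j < i + 2 by omega), ins2_lt (show j + 1 < i + 2 by omega), e]
  k1 s i v := by
    funext x
    have e : ∀ t, sw i (ins2 i t t x) = ins2 i t t x := fun t => by funext k; (simp only [sw, ins2, del2]; split_ifs <;> first | rfl | (exfalso; omega) | (congr 1; omega))
    simp [capC, LinearMap.funLeft, e]
  k2 s i v := by
    funext x
    have e : del2 i (sw i x) = del2 i x := by funext k; (simp only [sw, ins2, del2]; split_ifs <;> first | rfl | (exfalso; omega) | (congr 1; omega))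
    simp [cupC, LinearMap.funLeft, e, sw, eq_comm]
  r2 i v := by
    funext x
    have e : sw i (sw i x) = x := by funext k; (simp only [sw, ins2, del2]; split_ifs <;> first | rfl | (exfalso; omega) | (congr 1; omega))
    simp [LinearMap.funLeft, e]
  r2' i v := by
    funext x
    have e : sw i (sw i x) = x := by funext k; (simp only [sw, ins2, del2]; split_ifs <;> first | rfl | (exfalso; omega) | (congr 1; omega))
    simp [LinearMap.funLeft, e]
  r3 s i v := by
    funext x
    have e : sw i (sw (i + 1) (sw i x)) = sw (i + 1) (sw i (sw (i + 1) x)) := by funext k; (simp only [sw, ins2, del2]; split_ifs <;> first | rfl | (exfalso; omega) | (congr 1; omega))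
    simp [LinearMap.funLeft, e]
  p1 i v := by
    funext x
    have e : ∀ t, sw (i + 1) (ins2 i t t x) = sw i (ins2 (i + 1) t t x) := fun t => by
      funext k; (simp only [sw, ins2, del2]; split_ifs <;> first | rfl | (exfalso; omega) | (congr 1; omega))
    simp [capC, LinearMap.funLeft, e]
  p2 i v := by
    funext x
    have e : del2 i (sw (i + 1) x) = del2 (i + 1) (sw i x) := by funext k; (simp only [sw, ins2, del2]; split_ifs <;> first | rfl | (exfalso; omega) | (congr 1; omega))
    simp [cupC, LinearMap.funLeft, e, sw, show i ≠ i + 1 + 1 by omega,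
      show i + 1 + 1 ≠ i by omega]
  xx s t i j v h := by
    funext x
    have e : sw j (sw i x) = sw i (sw j x) := by funext k; (simp only [sw, ins2, del2]; split_ifs <;> first | rfl | (exfalso; omega) | (congr 1; omega))
    simp [LinearMap.funLeft, e]
  x1 s i j v h := by
    funext x
    have e : ∀ t, sw (j + 2) (ins2 i t t x) = ins2 i t t (sw j x) := fun t => by funext k; (simp only [sw, ins2, del2]; split_ifs <;> first | rfl | (exfalso; omega) | (congr 1; omega))
    simp [capC, LinearMap.funLeft, e]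
  x2 s i j v h := by
    funext x
    have e : ∀ t, sw j (ins2 i t t x) = ins2 i t t (sw j x) := fun t => by funext k; (simp only [sw, ins2, del2]; split_ifs <;> first | rfl | (exfalso; omega) | (congr 1; omega))
    simp [capC, LinearMap.funLeft, e]
  x3 s i j v h := by
    funext x
    have e : del2 i (sw (j + 2) x) = sw j (del2 i x) := by funext k; (simp only [sw, ins2, del2]; split_ifs <;> first | rfl | (exfalso; omega) | (congr 1; omega))
    have e1 : sw (j + 2) x i = x i := by (simp only [sw, ins2, del2]; split_ifs <;> first | rfl | (exfalso; omega) | (congr 1; omega))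
    have e2 : sw (j + 2) x (i + 1) = x (i + 1) := by (simp only [sw, ins2, del2]; split_ifs <;> first | rfl | (exfalso; omega) | (congr 1; omega))
    simp [cupC, LinearMap.funLeft, e, e1, e2]
  x4 s i j v h := by
    funext x
    have e : del2 i (sw j x) = sw j (del2 i x) := by funext k; (simp only [sw, ins2, del2]; split_ifs <;> first | rfl | (exfalso; omega) | (congr 1; omega))
    have e1 : sw j x i = x i := by (simp only [sw, ins2, del2]; split_ifs <;> first | rfl | (exfalso; omega) | (congr 1; omega))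
    have e2 : sw j x (i + 1) = x (i + 1) := by (simp only [sw, ins2, del2]; split_ifs <;> first | rfl | (exfalso; omega) | (congr 1; omega))
    simp [cupC, LinearMap.funLeft, e, e1, e2]

theorem cB_ev : ∀ (w : List Pc) (g : (ℕ → Bool) → ℤ), cB.ev w g = evC (fun _ x y => (y, x)) w g
  | [], _ => rfl
  | .cup _ _ :: w, _ => cB_ev w _
  | .cap _ :: w, _ => cB_ev w _
  | .cr i _ :: w, g => by
    rw [evC, ← cB_ev w]
    refine congrArg (cB.ev w) (funext fun c => ?_)
    exact congrArg g (funext fun k => (ins2_del2_apply _ _ _ _ k).symm)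

end inst

end Pool.Agent.P.MP_833722_gt
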