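import Pool.Agent.P.MP_833722_gt.Sm

/-! Colouring models and counting of components. -/

set_option autoImplicit false

namespace Pool.Agent.P.MP_833722_gt

section sk

variable {α : Type}

/-- skip two positions -/
def sk (i k : ℕ) : ℕ := if k < i then k else k + 2

theorem del2_sk (i : ℕ) (x : ℕ → α) (k : ℕ) : del2 i x k = x (sk i k) := by
  unfold del2 sk; split_ifs <;> rfl

@[simp] theorem ins2_sk (i : ℕ) (a b : α) (x : ℕ → α) (k : ℕ) : ins2 i a b x (sk i k) = x k := by
  rw [← del2_sk i (ins2 i a b x), del2_ins2]

theorem forall_sk {i m : ℕ} (h : i ≤ m) (P : ℕ → Prop) :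
    (∀ k < m + 2, P k) ↔ P i ∧ P (i + 1) ∧ ∀ k < m, P (sk i k) := by
  refine ⟨fun H => ⟨H _ (by omega), H _ (by omega), fun k hk => H _ ?_⟩, fun H k hk => ?_⟩
  · unfold sk; split_ifs <;> omega
  · rcases lt_trichotomy k i with h1 | rfl | h1
    · simpa [sk, h1] using H.2.2 k (by omega)
    · exact H.1
    · rcases eq_or_ne k (i + 1) with rfl | h2
      · exact H.2.1
      · have := H.2.2 (k - 2) (by omega)
        rwa [sk, if_neg (by omega), show k - 2 + 2 = k by omega] at this

theorem prod_sk {R : Type} [CommMonoid R] {i m : ℕ} (h : i ≤ m) (G : ℕ → R) :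
    ∏ k ∈ Finset.range (m + 2), G k = G i * G (i + 1) * ∏ k ∈ Finset.range m, G (sk i k) := by
  induction m, h using Nat.le_induction with
  | base =>
    rw [Finset.prod_range_succ, Finset.prod_range_succ, mul_assoc, mul_comm]
    congr 1
    exact Finset.prod_congr rfl fun k hk => by rw [sk, if_pos (Finset.mem_range.1 hk)]
  | succ m h ih =>
    rw [show m + 1 + 2 = m + 2 + 1 from rfl, Finset.prod_range_succ, ih, Finset.prod_range_succ,
      mul_assoc _ _ (G (m + 2)), show sk i m = m + 2 from if_neg (by omega)]

variable [Inhabited α]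

/-- a list as a stream -/
def str (l : List α) : ℕ → α := fun k => l.getD k default

theorem str_ins {i : ℕ} {l : List α} (h : i ≤ l.length) (x y : α) :
    str (ins i x y l) = ins2 i x y (str l) := by
  obtain ⟨a, b, rfl, rfl⟩ := split0 h
  funext k
  rw [ins_app]
  simp only [str, ins2, List.getD_eq_getElem?_getD, List.getElem?_append]
  split_ifs with h1 h2 h3 h4
  · rfl
  · simp [h2]
  · simp [h3]
  · omega
  · obtain ⟨j, rfl⟩ : ∃ j, k = a.length + 2 + j := ⟨k - a.length - 2, by omega⟩
    rw [show a.length + 2 + j - a.length = j + 1 + 1 by omega,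
      show a.length + 2 + j - 2 - a.length = j by omega]
    rfl

theorem str_del {i : ℕ} {l : List α} (h : i + 2 ≤ l.length) : str (del i l) = del2 i (str l) := by
  obtain ⟨a, x, y, b, rfl, rfl⟩ := split2 h
  rw [del_app, ← ins_app, str_ins (by simp), del2_ins2]

theorem str_swp {i : ℕ} {l : List α} (h : i + 2 ≤ l.length) :
    str (swp i l) = ins2 i (str l (i + 1)) (str l i) (del2 i (str l)) := by
  rw [swp, str_ins (by have := length_del h; omega), str_del h]; rfl

theorem str_mem {l : List α} {k : ℕ} (h : k < l.length) : str l k ∈ l := by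
  simp [str, List.getD_eq_getElem?_getD, List.getElem?_eq_getElem h]

theorem exists_str {l : List α} {x : α} (h : x ∈ l) : ∃ k < l.length, str l k = x := by
  obtain ⟨k, hk, rfl⟩ := List.mem_iff_getElem.1 h
  exact ⟨k, hk, by simp [str, List.getD_eq_getElem?_getD, List.getElem?_eq_getElem hk]⟩

theorem str_join {i : ℕ} {l : List ℕ} (h : i + 2 ≤ l.length) {k : ℕ} (hk : k < (join i l).length) :
    str (join i l) k = ren (str l i) (str l (i + 1)) (str l (sk i k)) := by
  rw [← del2_sk i (str l), ← str_del h]
  rw [join, List.length_map] at hk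
  simp only [str, join, List.getD_eq_getElem?_getD, List.getElem?_map,
    List.getElem?_eq_getElem hk]
  rfl

end sk

section col

variable {α R : Type} [Fintype α] [DecidableEq α] [CommRing R]

/-- cup on functions of colourings -/
def cupC (i : ℕ) (g : (ℕ → α) → R) (c : ℕ → α) : R := if c i = c (i + 1) then g (del2 i c) else 0

/-- cap on functions of colourings -/
def capC (i : ℕ) (g : (ℕ → α) → R) (c : ℕ → α) : R := ∑ t, g (ins2 i t t c)

/-- crossing on functions of colourings -/
def crC (F : α → α → α × α) (i : ℕ) (g : (ℕ → α) → R) (c : ℕ → α) : R :=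
  g (ins2 i (F (c i) (c (i + 1))).1 (F (c i) (c (i + 1))).2 (del2 i c))

/-- counting colourings -/
def evC (F : Bool → α → α → α × α) : List Pc → ((ℕ → α) → R) → (ℕ → α) → R
  | [], g => g
  | .cup i _ :: w, g => evC F w (cupC i g)
  | .cap i :: w, g => evC F w (capC i g)
  | .cr i s :: w, g => evC F w (crC (F s) i g)

/-- colourings constant along arcs -/
def Chi (l : List ℕ) (c : ℕ → α) : Prop := ∃ col : ℕ → α, ∀ k < l.length, c k = col (str l k)

open Classical in
/-- indicator function -/
noncomputable def chi (l : List ℕ) (c : ℕ → α) : R := if Chi l c then 1 else 0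

theorem cupC_chi {i : ℕ} {l : List ℕ} (h : i ≤ l.length) :
    cupC i (chi l : (ℕ → α) → R) = chi (ins i (l.sum + 1) (l.sum + 1) l) := by
  funext c
  have key : Chi (ins i (l.sum + 1) (l.sum + 1) l) c ↔ c i = c (i + 1) ∧ Chi l (del2 i c) := by
    simp only [Chi, length_ins, forall_sk h, str_ins h, ins2_self, ins2_succ, ins2_sk, del2_sk]
    refine ⟨fun ⟨col, h1, h2, h3⟩ => ⟨h1.trans h2.symm, col, h3⟩, fun ⟨h1, col, h2⟩ =>
      ⟨Function.update col (l.sum + 1) (c i), by simp, by simp [h1], fun k hk => ?_⟩⟩
    rw [Function.update_of_ne fun e => fresh_not_mem l (by rw [← e]; exact str_mem hk), h2 k hk]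
  unfold cupC chi
  split_ifs <;> tauto

theorem crC_chi {i : ℕ} {l : List ℕ} (h : i + 2 ≤ l.length) :
    crC (fun x y => (y, x)) i (chi l : (ℕ → α) → R) = chi (swp i l) := by
  funext c
  obtain ⟨m, hm⟩ : ∃ m, l.length = m + 2 := ⟨l.length - 2, by omega⟩
  have key : Chi (swp i l) c ↔ Chi l (ins2 i (c (i + 1)) (c i) (del2 i c)) := by
    simp only [Chi, length_swp h, hm, forall_sk (show i ≤ m by omega), str_swp h, ins2_self,
      ins2_succ, ins2_sk, del2_sk]
    exact exists_congr fun _ => and_left_comm
  unfold crC chi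
  split_ifs <;> tauto

theorem capC_chi {i : ℕ} {l : List ℕ} (h : i + 2 ≤ l.length) : capC i (chi l : (ℕ → α) → R) =
    (if l.getD i default ∈ join i l then 1 else Fintype.card α : R) • chi (join i l) := by
  classical
  funext c
  have hm := length_join h
  have key : ∀ t, Chi l (ins2 i t t c) ↔
      ∃ col : ℕ → α, t = col (str l i) ∧ ∀ k < (join i l).length, c k = col (str (join i l) k) := by
    intro t
    simp only [Chi, ← hm, forall_sk (show i ≤ (join i l).length by omega), ins2_self, ins2_succ,
      ins2_sk]
    refine ⟨fun ⟨col, h1, h2, h3⟩ => ⟨col, h1, fun k hk => ?_⟩, fun ⟨col, h1, h2⟩ =>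
      ⟨fun z => col (ren (str l i) (str l (i + 1)) z), by simp [ren, h1], by simp [ren, h1],
        fun k hk => by rw [h2 k hk, str_join h hk]⟩⟩
    rw [h3 k hk, str_join h hk, ren]
    split_ifs with e
    · rw [e, ← h1, h2]
    · rfl
  simp only [capC, chi, key, Pi.smul_apply, smul_eq_mul]
  split_ifs with h1 h2 h2
  · obtain ⟨col, h2⟩ := h2
    obtain ⟨k, hk, e⟩ := exists_str h1
    rw [Finset.sum_eq_single (c k), if_pos ⟨col, by rw [h2 k hk, e]; rfl, h2⟩, mul_one]
    · exact fun t _ ht => if_neg fun ⟨col', h3, h4⟩ => ht (by rw [h3, h4 k hk, e]; rfl)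
    · simp
  · rw [mul_zero]
    exact Finset.sum_eq_zero fun t _ => if_neg fun ⟨col, _, h4⟩ => h2 ⟨col, h4⟩
  · obtain ⟨col, h2⟩ := h2
    rw [Finset.sum_congr rfl fun t _ => if_pos ⟨Function.update col (str l i) t, by simp,
      fun k hk => by
        rw [Function.update_of_ne fun e => h1 (by rw [← show _ = l.getD i default from e]
                                                  exact str_mem hk), h2 k hk]⟩]
    simp
  · rw [mul_zero]
    exact Finset.sum_eq_zero fun t _ => if_neg fun ⟨col, _, h4⟩ => h2 ⟨col, h4⟩

theorem evC_smul (F : Bool → α → α → α × α) (r : R) : ∀ (w : List Pc) (g : (ℕ → α) → R),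
    evC F w (r • g) = r • evC F w g
  | [], _ => rfl
  | .cup i _ :: w, g => by
    rw [evC, evC, ← evC_smul F r w]; congr 1; funext c; simp [cupC]
  | .cap i :: w, g => by
    rw [evC, evC, ← evC_smul F r w]; congr 1; funext c; simp [capC, Finset.mul_sum]
  | .cr i s :: w, g => by rw [evC, evC, ← evC_smul F r w]; rfl

theorem evC_chi [Inhabited α] : ∀ (w : List Pc) (l : List ℕ), Ok 0 l.length w →
    evC (fun _ x y => (y, x)) w (chi l : (ℕ → α) → R) =
      fun _ => (Fintype.card α : R) ^ comps l w
  | [], l, h => by funext c; simp [evC, chi, Chi, comps, show l.length = 0 from h]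
  | .cup i _ :: w, l, h => by
    rw [evC, cupC_chi h.1, evC_chi w _ (by rw [length_ins]; exact h.2), comps]
  | .cap i :: w, l, h => by
    have := length_join h.1
    rw [evC, capC_chi h.1, evC_smul, evC_chi w _
      (by rw [show (join i l).length = l.length - 2 by omega]; exact h.2), comps]
    funext c
    split_ifs <;> simp [pow_add]
  | .cr i _ :: w, l, h => by
    rw [evC, crC_chi h.1, evC_chi w _ (by rw [length_swp h.1]; exact h.2), comps]

end col

theorem card_join (a b : List ℕ) (x y : ℕ) :
    (if x ∈ (a ++ b).map (ren x y) then 0 else 1) + ((a ++ b).map (ren x y)).toFinset.card +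
      (if x = y then 0 else 1) = (a ++ x :: y :: b).toFinset.card := by
  have e : (a ++ x :: y :: b).toFinset = insert y (insert x ((a ++ b).map (ren x y)).toFinset) := by
    ext z
    simp only [List.mem_toFinset, Finset.mem_insert, List.mem_map, List.mem_append, List.mem_cons]
    refine ⟨fun h => ?_, ?_⟩
    · by_cases hz : z = y
      · exact Or.inl hz
      · rcases h with h | h | h | h
        · exact Or.inr (Or.inr ⟨z, Or.inl h, if_neg hz⟩)
        · exact Or.inr (Or.inl h)
        · exact Or.inl h
        · exact Or.inr (Or.inr ⟨z, Or.inr h, if_neg hz⟩)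
    · rintro (h | h | ⟨t, ht, rfl⟩)
      · tauto
      · tauto
      · unfold ren; split_ifs <;> tauto
  rw [e, Finset.card_insert_eq_ite, Finset.card_insert_eq_ite]
  have e2 : y ∈ insert x ((a ++ b).map (ren x y)).toFinset ↔ x = y := by
    simp only [List.mem_toFinset, Finset.mem_insert, List.mem_map]
    refine ⟨?_, fun h => Or.inl h.symm⟩
    rintro (h | ⟨t, _, h⟩)
    · exact h.symm
    · unfold ren at h; split_ifs at h with h1
      · exact h
      · exact (h1 h).elim
  simp only [e2, List.mem_toFinset]
  split_ifs <;> omega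

theorem card_ins (a b : List ℕ) (x : ℕ) : (a ++ x :: x :: b).toFinset.card =
    (a ++ b).toFinset.card + if x ∈ a ++ b then 0 else 1 := by
  rw [show (a ++ x :: x :: b).toFinset = insert x (a ++ b).toFinset by ext; simp,
    Finset.card_insert_eq_ite]
  simp only [List.mem_toFinset]
  split_ifs <;> rfl

theorem coarse : ∀ (w : List Pc) (l : List ℕ) (f : ℕ → ℕ), Ok 0 l.length w →
    comps (l.map f) w ≤ comps l w ∧
      comps l w + (l.map f).toFinset.card ≤ comps (l.map f) w + l.toFinset.card
  | [], l, f, h => by simp [List.length_eq_zero_iff.1 h, comps]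
  | .cup i _ :: w, l, f, h => by
    have h1 := coarse w (ins i (l.sum + 1) (l.sum + 1) l)
      (Function.update f (l.sum + 1) ((l.map f).sum + 1)) (by rw [length_ins]; exact h.2)
    have h2 := fresh_not_mem l
    have h3 := fresh_not_mem (l.map f)
    obtain ⟨a, b, rfl, rfl⟩ := split0 h.1
    have e : ∀ c : List ℕ, (a ++ b).sum + 1 ∉ c → c.map (Function.update f ((a ++ b).sum + 1)
        (((a ++ b).map f).sum + 1)) = c.map f := fun c hc =>
      List.map_congr_left fun z hz => Function.update_of_ne (fun e => hc (by rw [← e]; exact hz)) _ _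
    simp only [comps]
    rw [ins_app] at h1 ⊢
    rw [List.map_append, List.map_cons, List.map_cons, Function.update_self,
      e a fun h => h2 (List.mem_append_left _ h), e b fun h => h2 (List.mem_append_right _ h), card_ins, card_ins,
      ← List.map_append, if_neg h2, if_neg h3] at h1
    rw [List.map_append, ← List.length_map f, ins_app, ← List.map_append]
    omega
  | .cap i :: w, l, f, h => by
    have h0 := length_join h.1
    have h1 := coarse w (join i l) (ren (f (l.getD i default)) (f (l.getD (i + 1) default)) ∘ f)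
      (by rw [show (join i l).length = l.length - 2 by omega]; exact h.2)
    obtain ⟨a, x, y, b, rfl, rfl⟩ := split2 h.1
    have e : ((a ++ b).map (ren x y)).map (ren (f x) (f y) ∘ f) =
        (a.map f ++ b.map f).map (ren (f x) (f y)) := by
      rw [← List.map_append, List.map_map, List.map_map]
      refine List.map_congr_left fun z _ => ?_
      simp only [Function.comp, ren]
      split_ifs <;> simp_all
    have h2 := card_join a b x y
    have h3 := card_join (a.map f) (b.map f) (f x) (f y)
    have h4 : x ∈ (a ++ b).map (ren x y) → f x ∈ (a.map f ++ b.map f).map (ren (f x) (f y)) :=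
      fun h => e ▸ List.mem_map.2 ⟨x, h, by simp [ren]⟩
    simp only [comps]
    rw [join_app, getD_app0] at h1 ⊢
    rw [getD_app1, e] at h1
    rw [List.map_append, List.map_cons, List.map_cons, ← List.length_map f, join_app, getD_app0]
    have h5 : x = y → f x = f y := congrArg f
    split_ifs at h2 h3 ⊢ <;> first | omega | tauto
  | .cr i _ :: w, l, f, h => by
    have h1 := coarse w (swp i l) f (by rw [length_swp h.1]; exact h.2)
    obtain ⟨a, x, y, b, rfl, rfl⟩ := split2 h.1
    simp only [comps]
    rw [swp_app] at h1 ⊢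
    rw [List.map_append, List.map_cons, List.map_cons] at h1 ⊢
    rw [← List.length_map f, swp_app]
    simpa [Finset.insert_comm] using h1

theorem comps_le_swp {w : List Pc} {l : List ℕ} {i : ℕ} (hi : i + 2 ≤ l.length)
    (h : Ok 0 l.length w) : comps l w ≤ comps (swp i l) w + 1 ∧
      comps l (.cap i :: .cup i true :: w) ≤ comps (swp i l) w + 1 := by
  have h1 := coarse w (swp i l) (ren (l.getD i default) (l.getD (i + 1) default))
    (by rw [length_swp hi]; exact h)
  have h2 := coarse w l (ren (l.getD i default) (l.getD (i + 1) default)) h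
  have h3 := coarse w (ins i ((join i l).sum + 1) ((join i l).sum + 1) (join i l))
    (ren (l.getD i default) ((join i l).sum + 1)) (by rw [length_ins, length_join hi]; exact h)
  have h4 := fresh_not_mem (join i l)
  obtain ⟨a, x, y, b, rfl, rfl⟩ := split2 hi
  have h5 := card_join a b x y
  simp only [comps]
  rw [join_app, getD_app0] at *
  rw [getD_app1] at h1 h2
  rw [swp_app] at h1 ⊢
  generalize (List.map (ren x y) (a ++ b)).sum + 1 = z at *
  have e1 : ren x y x = x := by simp [ren]
  have e2 : ∀ y, ren x y y = x := by simp [ren]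
  rw [List.map_append] at h3 h4 h5 ⊢
  rw [← List.length_map (ren x y), ins_app] at h3 ⊢
  rw [List.map_append, List.map_cons, List.map_cons, e1, e2] at h1 h2
  rw [List.map_append, List.map_cons, List.map_cons, e2,
    TL.map_ren_of_not_mem fun h => h4 (List.mem_append_left _ h),
    TL.map_ren_of_not_mem fun h => h4 (List.mem_append_right _ h), card_ins, card_ins,
    if_neg h4] at h3
  rw [card_ins] at h2
  split_ifs at h2 h3 h5 ⊢ <;> omega

end Pool.Agent.P.MP_833722_gt
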