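import Mathlib

/-! Oriented link diagrams in Morse position and the Jones polynomial as Kauffman state sum. -/

set_option autoImplicit false

namespace Pool.Agent.P.MP_833722_gt

open LaurentPolynomial

/-- One layer of a diagram, read upwards; strands are numbered from the left, starting at `0`.
`cup i d`: a local minimum creating strands `i, i+1`, the left one oriented upwards iff `d`.
`cap i`: a local maximum joining strands `i, i+1`.
`cr i s`: strands `i, i+1` cross; the over strand goes up to the right iff `s`. -/
inductive Pc
  | cup (i : ℕ) (d : Bool)
  | cap (i : ℕ)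
  | cr (i : ℕ) (s : Bool)

/-- insert two entries at positions `i, i+1` -/
def ins {α : Type} (i : ℕ) (x y : α) (l : List α) : List α := l.take i ++ x :: y :: l.drop i

/-- delete the entries at positions `i, i+1` -/
def del {α : Type} (i : ℕ) (l : List α) : List α := l.take i ++ l.drop (i + 2)

/-- exchange the entries at positions `i, i+1` -/
def swp {α : Type} [Inhabited α] (i : ℕ) (l : List α) : List α :=
  ins i (l.getD (i + 1) default) (l.getD i default) (del i l)

/-- the layers fit together and close up, starting from strands with orientations `o` -/
def Valid : List Bool → List Pc → Prop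
  | o, [] => o = []
  | o, .cup i d :: w => i ≤ o.length ∧ Valid (ins i d (!d) o) w
  | o, .cap i :: w =>
    i + 2 ≤ o.length ∧ o.getD i default ≠ o.getD (i + 1) default ∧ Valid (del i o) w
  | o, .cr i _ :: w => i + 2 ≤ o.length ∧ Valid (swp i o) w

/-- the sum of the signs of the crossings -/
def writhe : List Bool → List Pc → ℤ
  | _, [] => 0
  | o, .cup i d :: w => writhe (ins i d (!d) o) w
  | o, .cap i :: w => writhe (del i o) w
  | o, .cr i s :: w =>
    (if s then 1 else -1) * (if o.getD i default = o.getD (i + 1) default then 1 else -1) +
      writhe (swp i o) w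

/-- strands carry the name of the arc below them; a cap merges two names -/
def join (i : ℕ) (l : List ℕ) : List ℕ :=
  (del i l).map fun z => if z = l.getD (i + 1) default then l.getD i default else z

/-- number of closed curves: a curve is counted when its name disappears -/
def comps : List ℕ → List Pc → ℕ
  | _, [] => 0
  | l, .cup i _ :: w => comps (ins i (l.sum + 1) (l.sum + 1) l) w
  | l, .cap i :: w => (if l.getD i default ∈ join i l then 0 else 1) + comps (join i l) w
  | l, .cr i _ :: w => comps (swp i l) w

/-- Kauffman states: every crossing is smoothed in the two ways; the integer is the number of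
A-smoothings minus the number of B-smoothings -/
def states : List Pc → List (ℤ × List Pc)
  | [] => [(0, [])]
  | .cup i d :: w => (states w).map fun p => (p.1, .cup i d :: p.2)
  | .cap i :: w => (states w).map fun p => (p.1, .cap i :: p.2)
  | .cr i s :: w =>
    ((states w).map fun p => (p.1 + (if s then 1 else -1), p.2)) ++
      (states w).map fun p => (p.1 - (if s then 1 else -1), .cap i :: .cup i true :: p.2)

/-- the Kauffman bracket, a Laurent polynomial in `A = T 1` -/
noncomputable def bracket (D : List Pc) : ℤ[T;T⁻¹] :=
  ((states D).map fun p => T p.1 * (-T 2 - T (-2)) ^ (comps [] p.2 - 1)).sum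

/-- the Jones polynomial `(-A^3)^(-w) <D>`, written in `A` where `t = A^(-4)` -/
noncomputable def jones (D : List Pc) : ℤ[T;T⁻¹] :=
  (-1) ^ (writhe [] D).natAbs * T (-3 * writhe [] D) * bracket D

/-- the span in the variable `t = A^(-4)` is at most `n` -/
def SpanLe (f : ℤ[T;T⁻¹]) (n : ℕ) : Prop :=
  ∀ i j : ℤ, f.coeff i ≠ 0 → f.coeff j ≠ 0 → i - j ≤ 4 * n

/-- number of local minima -/
def cups : List Pc → ℕ
  | [] => 0
  | .cup _ _ :: w => cups w + 1
  | .cap _ :: w => cups w
  | .cr _ _ :: w => cups w

end Pool.Agent.P.MP_833722_gt
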