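import Pool.Agent.P.MP_833722_gt.St

/-! Interpolation and finiteness. -/

set_option autoImplicit false

namespace Pool.Agent.P.MP_833722_gt

open LaurentPolynomial

theorem evA_eq_sum {R : Type} [CommRing R] (a : Rˣ) (f : ℤ[T;T⁻¹]) {s : Finset ℤ}
    (hs : ∀ k, f.coeff k ≠ 0 → k ∈ s) : evA a f = ∑ k ∈ s, (f.coeff k : R) * (a ^ k).val := by
  have h : evA a f = f.smeval a := by
    clear hs
    induction f using LaurentPolynomial.induction_on' with
    | add p q hp hq => rw [map_add, smeval_add, hp, hq]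
    | C_mul_T n r => rw [smeval_C_mul_T_n, evA, eval₂_C_mul_T]; simp
  rw [h, smeval_eq_sum, Finsupp.sum_of_support_subset _ (s := s)
    (fun k hk => hs k (Finsupp.mem_support_iff.1 hk)) _ (by simp)]
  simp

theorem SpanLe.window {f : ℤ[T;T⁻¹]} {n : ℕ} (h : SpanLe f n) :
    ∃ m : ℤ, ∀ k, f.coeff k ≠ 0 → k ∈ Finset.Icc m (m + 4 * n) := by
  rcases f.coeff.support.eq_empty_or_nonempty with h0 | h0
  · exact ⟨0, fun k hk => by simpa [h0] using Finsupp.mem_support_iff.2 hk⟩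
  · refine ⟨f.coeff.support.min' h0, fun k hk => Finset.mem_Icc.2
      ⟨Finset.min'_le _ _ (Finsupp.mem_support_iff.2 hk), ?_⟩⟩
    have := h k _ hk (Finsupp.mem_support_iff.1 (Finset.min'_mem _ h0))
    omega

theorem norm_sum_le' {f : ℤ[T;T⁻¹]} {n : ℕ} (h : SpanLe f n) (a : ℂˣ) (ha : ‖(a : ℂ)‖ = 1)
    (s : Finset ℤ) {C : ℝ} (hC : 0 ≤ C) (hs : ∀ k ∈ s, |(f.coeff k : ℝ)| ≤ C) :
    ‖∑ k ∈ s, (f.coeff k : ℂ) * (a ^ k).val‖ ≤ (4 * n + 1) * C := by
  obtain ⟨m, hm⟩ := h.window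
  rw [← Finset.sum_filter_of_ne (p := fun k => k ∈ Finset.Icc m (m + 4 * n))
    (fun k _ hk => hm k fun e => hk (by simp [e]))]
  refine (norm_sum_le _ _).trans ((Finset.sum_le_card_nsmul _ _ C fun k hk => ?_).trans ?_)
  · simpa [ha] using hs k (Finset.mem_filter.1 hk).1
  · rw [nsmul_eq_mul]
    refine mul_le_mul_of_nonneg_right ?_ hC
    have := Finset.card_le_card (s := s.filter fun k => k ∈ Finset.Icc m (m + 4 * n))
      (t := Finset.Icc m (m + 4 * n)) fun k hk => (Finset.mem_filter.1 hk).2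
    rw [Int.card_Icc, show m + 4 * n + 1 - m = (4 * n + 1 : ℕ) by push_cast; ring,
      Int.toNat_natCast] at this
    exact_mod_cast this

theorem norm_evA_le {f : ℤ[T;T⁻¹]} {n : ℕ} (h : SpanLe f n) (a : ℂˣ) (ha : ‖(a : ℂ)‖ = 1)
    {C : ℝ} (hs : ∀ k, |(f.coeff k : ℝ)| ≤ C) : ‖evA a f‖ ≤ (4 * n + 1) * C := by
  rw [evA_eq_sum a f (s := f.coeff.support) fun k hk => Finsupp.mem_support_iff.2 hk]
  exact norm_sum_le' h a ha _ ((abs_nonneg _).trans (hs 0)) fun k _ => hs k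

theorem coef_bound (s : Finset ℂˣ) (hs : ∀ a ∈ s, ‖(a : ℂ)‖ = 1) (L : ℕ) (hL : L < s.card) :
    ∃ K : ℝ, 0 ≤ K ∧ ∀ (f : ℤ[T;T⁻¹]) (n : ℕ) (m : ℤ) (B Y : ℝ), SpanLe f n → 0 ≤ B → 0 ≤ Y →
      (∀ k, k < m ∨ m + L < k → |(f.coeff k : ℝ)| ≤ B) → (∀ a ∈ s, ‖evA a f‖ ≤ Y) →
      ∀ k, |(f.coeff k : ℝ)| ≤ K * (Y + (4 * n + 1) * B) + B := by
  classical
  let v : ℂˣ → ℂ := Units.val
  refine ⟨∑ j ∈ Finset.range (L + 1), ∑ a ∈ s, ‖(Lagrange.basis s v a).coeff j‖, by positivity,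
    fun f n m B Y hf hB hY ho hv k => ?_⟩
  have hZ : 0 ≤ Y + (4 * n + 1) * B := by positivity
  by_cases hk : k < m ∨ m + L < k
  · exact (ho k hk).trans (le_add_of_nonneg_left (by positivity))
  obtain ⟨j, rfl⟩ : ∃ j : ℕ, k = m + j := ⟨(k - m).toNat, by omega⟩
  have hj : j ∈ Finset.range (L + 1) := Finset.mem_range.2 (by omega)
  let p : Polynomial ℂ := ∑ i ∈ Finset.range (L + 1), Polynomial.monomial i (f.coeff (m + i) : ℂ)
  have hp : p.degree < s.card := by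
    refine lt_of_le_of_lt ((Polynomial.degree_sum_le _ _).trans (Finset.sup_le fun i hi =>
      (Polynomial.degree_monomial_le _ _).trans ?_)) (show (L : WithBot ℕ) < _ by exact_mod_cast hL)
    exact_mod_cast Nat.lt_succ_iff.1 (Finset.mem_range.1 hi)
  have h1 := congrArg (fun q => q.coeff j)
    (Lagrange.eq_interpolate (fun _ _ _ _ e => Units.ext e) hp (v := v))
  simp only [Lagrange.interpolate_apply, Polynomial.finset_sum_coeff, Polynomial.coeff_C_mul] at h1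
  have h2 : p.coeff j = f.coeff (m + j) := by
    simp [p, Polynomial.coeff_monomial, Finset.mem_range.1 hj]
  have h3 : ∀ a ∈ s, ‖p.eval (v a)‖ ≤ Y + (4 * n + 1) * B := fun a ha => by
    let t := (Finset.range (L + 1)).map ⟨fun i : ℕ => m + i, fun _ _ e => by simpa using e⟩
    have e1 := evA_eq_sum a f (s := t ∪ f.coeff.support \ t) fun k hk => by
      simp only [Finset.union_sdiff_self_eq_union, Finset.mem_union]
      exact Or.inr (Finsupp.mem_support_iff.2 hk)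
    rw [Finset.sum_union Finset.disjoint_sdiff, Finset.sum_map] at e1
    have e2 : (a ^ m).val * p.eval (v a) = evA a f -
        ∑ k ∈ f.coeff.support \ t, (f.coeff k : ℂ) * (a ^ k).val := by
      rw [e1, add_sub_cancel_right, Polynomial.eval_finset_sum, Finset.mul_sum]
      refine Finset.sum_congr rfl fun i _ => ?_
      simp only [Polynomial.eval_monomial, v, Function.Embedding.coeFn_mk, zpow_add, zpow_natCast,
        Units.val_mul, Units.val_pow_eq_pow_val]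
      ring
    have e3 := norm_sum_le' hf a (hs a ha) (f.coeff.support \ t) hB fun k hk => ho k (by
      by_contra e
      exact (Finset.mem_sdiff.1 hk).2 (Finset.mem_map.2 ⟨(k - m).toNat,
        Finset.mem_range.2 (by omega), by simp only [Function.Embedding.coeFn_mk]; omega⟩))
    have e4 := congrArg norm e2
    rw [norm_mul, show ‖(a ^ m).val‖ = 1 by simp [hs a ha], one_mul] at e4
    rw [e4]
    exact (norm_sub_le _ _).trans (add_le_add (hv a ha) e3)
  calc |(f.coeff (m + j) : ℝ)| = ‖p.coeff j‖ := by rw [h2]; simp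
    _ ≤ ∑ a ∈ s, ‖(Lagrange.basis s v a).coeff j‖ * (Y + (4 * n + 1) * B) := by
      rw [h1]
      refine (norm_sum_le _ _).trans (Finset.sum_le_sum fun a ha => ?_)
      rw [norm_mul, mul_comm]
      exact mul_le_mul_of_nonneg_left (h3 a ha) (norm_nonneg _)
    _ ≤ _ := by
      rw [← Finset.sum_mul]
      refine le_add_of_le_of_nonneg (mul_le_mul_of_nonneg_right (Finset.single_le_sum
        (f := fun j => ∑ a ∈ s, ‖(Lagrange.basis s v a).coeff j‖) (fun _ _ => by positivity) hj)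
        hZ) hB

theorem fin_units (n : ℕ) (K : ℝ) : ∃ F : Set ℤ[T;T⁻¹], F.Finite ∧ ∀ f, SpanLe f n →
    (∀ k, |(f.coeff k : ℝ)| ≤ K) → ∃ k : ℤ, ∃ g ∈ F, f = T k * g := by
  refine ⟨{g | (∀ k, g.coeff k ≠ 0 → k ∈ Finset.Icc (0 : ℤ) (4 * n)) ∧
    ∀ k, |(g.coeff k : ℝ)| ≤ K}, ?_, fun f hf hK => ?_⟩
  · refine Set.Finite.of_finite_image
      (f := fun g (k : Finset.Icc (0 : ℤ) (4 * n)) => g.coeff k)
      ((Set.Finite.pi' fun _ => Set.finite_Icc (-⌈K⌉) ⌈K⌉).subset ?_) ?_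
    · rintro _ ⟨g, hg, rfl⟩ k
      have := (hg.2 k).trans (Int.le_ceil K)
      exact abs_le.1 (by exact_mod_cast this)
    · intro g hg g' hg' e
      refine LaurentPolynomial.ext fun k => ?_
      by_cases hk : k ∈ Finset.Icc (0 : ℤ) (4 * n)
      · exact congrFun e ⟨k, hk⟩
      · rw [not_not.1 (mt (hg.1 k) hk), not_not.1 (mt (hg'.1 k) hk)]
  · obtain ⟨m, hm⟩ := hf.window
    have e : ∀ k, (T (-m) * f).coeff k = f.coeff (m + k) := fun k => by
      rw [T, AddMonoidAlgebra.coeff_single_mul_apply, one_mul, neg_neg]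
    refine ⟨m, T (-m) * f, ⟨fun k hk => ?_, fun k => by rw [e]; exact hK _⟩, ?_⟩
    · rw [e] at hk
      have := hm _ hk
      simp only [Finset.mem_Icc] at this ⊢
      omega
    · rw [← mul_assoc, ← T_add, add_neg_cancel, T_zero, one_mul]

theorem fin_knot {R : Type} [CommRing R] (a : Rˣ) (ha : ∀ k : ℤ, a ^ k = 1 → k = 0) (n : ℕ)
    (K : ℝ) : {f | SpanLe f n ∧ (∀ k, |(f.coeff k : ℝ)| ≤ K) ∧ evA a f = 1}.Finite := by
  obtain ⟨F, hF, h⟩ := fin_units n K
  refine (hF.biUnion (t := fun g => {f | (∃ k : ℤ, f = T k * g) ∧ evA a f = 1})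
    fun g _ => Set.Subsingleton.finite ?_).subset fun f hf => ?_
  · rintro _ ⟨⟨k, rfl⟩, h1⟩ _ ⟨⟨k', rfl⟩, h2⟩
    rw [map_mul, evA_T] at h1 h2
    have : a ^ (k - k') = 1 := by
      rw [zpow_sub, mul_inv_eq_one]
      apply Units.ext
      linear_combination (a ^ k').val * h1 - (a ^ k).val * h2
    rw [sub_eq_zero.1 (ha _ this)]
  · obtain ⟨k, g, hg, e⟩ := h f hf.1 hf.2.1
    exact Set.mem_biUnion hg ⟨⟨k, e⟩, hf.2.2⟩

end Pool.Agent.P.MP_833722_gt
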