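import Pool.Agent.P.MP_833722_gt.Col
import Pool.Agent.P.MP_833722_gt.Lag

/-! Value and first derivative of the Jones polynomial of a knot at `t = 1`. -/

set_option autoImplicit false

namespace Pool.Agent.P.MP_833722_gt

section

variable {R : Type} [CommRing R]

/-- the model with loop value `-2` -/
def T0 (R : Type) [CommRing R] : TL R ((ℕ → Bool) → R) (-2) :=
  hTL (fun _ b => if b then -1 else 1) (fun _ b => if b then 1 else -1) (-2)
    (fun _ => by simp; ring) (fun _ b => by cases b <;> simp) (fun _ b => by cases b <;> simp)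

/-- the intertwiner -/
def Ph (o : List Bool) (g : (ℕ → Bool) → R) (x : ℕ → Bool) : R :=
  (∏ k ∈ Finset.range o.length, if !str o k && x k then -1 else 1) * g fun k => xor (x k) (str o k)

theorem Ph_cup {i : ℕ} {o : List Bool} (h : i ≤ o.length) (d : Bool) (g : (ℕ → Bool) → R) :
    (T0 R).cup i (Ph o g) = (if d then -1 else 1 : R) • Ph (ins i d (!d) o) (cupC i g) := by
  funext x
  have e : (del2 i fun k => xor (x k) (ins2 i d (!d) (str o) k)) =
      fun k => xor (x (sk i k)) (str o k) := by funext k; rw [del2_sk, ins2_sk]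
  simp only [T0, hTL, hcup_apply, Ph, cupC, length_ins, prod_sk h, str_ins h, ins2_self, ins2_succ,
    ins2_sk, del2_sk, Pi.smul_apply, smul_eq_mul, e]
  cases d <;> cases x i <;> cases x (i + 1) <;> simp

theorem Ph_cap {i : ℕ} {o : List Bool} (h : i + 2 ≤ o.length)
    (h' : o.getD i default ≠ o.getD (i + 1) default) (g : (ℕ → Bool) → R) :
    (T0 R).cap i (Ph o g) = (if str o i then 1 else -1 : R) • Ph (del i o) (capC i g) := by
  funext x
  have hm := length_del h
  have e : ∀ a b, (fun k => xor (ins2 i a b x k) (str o k)) = ins2 i (xor a (str o i))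
      (xor b (str o (i + 1))) fun k => xor (x k) (str o (sk i k)) := fun a b => by
    rw [← ins2_del2 i fun k => xor (ins2 i a b x k) (str o k)]
    congr 1
    · simp
    · simp
    · funext k; rw [del2_sk, ins2_sk]
  change str o i ≠ str o (i + 1) at h'
  simp only [T0, hTL, hcap_apply, Ph, capC, ← hm, prod_sk (show i ≤ (del i o).length by omega),
    str_del h, ins2_self, ins2_succ, ins2_sk, del2_sk, Pi.smul_apply, smul_eq_mul, e]
  revert h'
  cases str o i <;> cases str o (i + 1) <;> simp <;> ring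

theorem Ph_cr {i : ℕ} {o : List Bool} (h : i + 2 ≤ o.length) (s : Bool) (g : (ℕ → Bool) → R) :
    (T0 R).X (-1) (-1) i s (Ph o g) = (-1 : R) • Ph (swp i o) (crC (fun x y => (y, x)) i g) := by
  funext x
  have e0 : ∀ v : (ℕ → Bool) → R, (T0 R).X (-1) (-1) i s v x =
      -v (ins2 i (x (i + 1)) (x i) (del2 i x)) := fun v => by
    have := ins2_del2 i x
    simp only [TL.X, T0, hTL, hcap_apply, hcup_apply, ite_self, Pi.add_apply, Pi.smul_apply,
      smul_eq_mul]
    conv_lhs => enter [1, 2]; rw [← this]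
    cases x i <;> cases x (i + 1) <;> simp
  obtain ⟨m, hm⟩ : ∃ m, o.length = m + 2 := ⟨o.length - 2, by omega⟩
  have e : (fun k => xor (ins2 i (x (i + 1)) (x i) (del2 i x) k) (str o k)) =
      ins2 i (xor (x (i + 1)) (str o i)) (xor (x i) (str o (i + 1))) (del2 i fun k => xor (x k)
        (ins2 i (str o (i + 1)) (str o i) (del2 i (str o)) k)) := by
    rw [← ins2_del2 i fun k => xor (ins2 i (x (i + 1)) (x i) (del2 i x) k) (str o k)]
    congr 1
    · simp
    · simp
    · funext k; simp only [del2_sk, ins2_sk]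
  simp only [e0, Ph, crC, length_swp h, hm, prod_sk (show i ≤ m by omega), str_swp h, ins2_self,
    ins2_succ, ins2_sk, del2_sk, Pi.smul_apply, smul_eq_mul, e]
  ring

/-- the sign of an oriented diagram -/
def eta : List Bool → List Pc → ℤ
  | _, [] => 1
  | o, .cup i d :: w => (if d then -1 else 1) * eta (ins i d (!d) o) w
  | o, .cap i :: w => (if str o i then 1 else -1) * eta (del i o) w
  | o, .cr i _ :: w => -eta (swp i o) w

theorem Ph_smul (o : List Bool) (r : R) (g : (ℕ → Bool) → R) : Ph o (r • g) = r • Ph o g := by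
  funext x; simp only [Ph, Pi.smul_apply, smul_eq_mul]; ring

theorem ev_Ph : ∀ (w : List Pc) (o : List Bool) (g : (ℕ → Bool) → R), Valid o w →
    (T0 R).ev (-1) (-1) w (Ph o g) = (eta o w : R) • evC (fun _ x y => (y, x)) w g
  | [], o, g, h => by
    obtain rfl : o = [] := h
    funext x
    simp [TL.ev, Ph, eta, evC, str]
  | .cup i d :: w, o, g, h => by
    rw [TL.ev, Ph_cup h.1 d, TL.ev_smul, ev_Ph w _ _ h.2, smul_smul, eta, evC]; simp
  | .cap i :: w, o, g, h => by
    rw [TL.ev, Ph_cap h.1 h.2.1, TL.ev_smul, ev_Ph w _ _ h.2.2, smul_smul, eta, evC]; simp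
  | .cr i s :: w, o, g, h => by
    rw [TL.ev, Ph_cr h.1, TL.ev_smul, ev_Ph w _ _ h.2, smul_smul, eta, evC]; simp

theorem ev_chi {w : List Pc} {o : List Bool} {l : List ℕ} (h : Valid o w)
    (hl : l.length = o.length) (c : ℤ) : (T0 R).ev (-1) (-1) w ((c : R) • Ph o (chi l)) =
      fun _ => ((c * eta o w * 2 ^ comps l w : ℤ) : R) := by
  rw [TL.ev_smul, ev_Ph w o _ h, evC_chi w l (hl ▸ h.ok)]
  funext x
  simp [mul_assoc]

theorem ev_eps {e : R} (he : e * e = 0) : ∀ (w : List Pc) (v : (ℕ → Bool) → R),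
    (T0 R).ev (-1 - e) (-1 + e) w (e • v) = e • (T0 R).ev (-1) (-1) w v
  | [], _ => rfl
  | .cup _ _ :: w, _ => by rw [TL.ev, TL.ev, map_smul, ev_eps he w]
  | .cap _ :: w, _ => by rw [TL.ev, TL.ev, map_smul, ev_eps he w]
  | .cr i s :: w, v => by
    rw [TL.ev, TL.ev, ← ev_eps he w]
    congr 1
    cases s <;> simp [TL.X, smul_smul, sub_mul, add_mul, he]

theorem der [CharZero R] {e : R} (he : e * e = 0) : ∀ (w : List Pc) (o : List Bool) (l : List ℕ)
    (c : ℤ), Valid o w → l.length = o.length → comps l w ≤ 1 →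
    (∀ w', Ok 0 o.length w' → ∃ z : ℤ, (z : ZMod 3) = 1 ∧
      (T0 R).ev (-1) (-1) w' ((c : R) • Ph o (chi l)) = fun _ => (z : R)) →
    (T0 R).ev (-1 - e) (-1 + e) w ((c : R) • Ph o (chi l)) =
      (1 + 3 * writhe o w * e) • (T0 R).ev (-1) (-1) w ((c : R) • Ph o (chi l))
  | [], o, l, c, _, _, _, _ => by simp [TL.ev, writhe]
  | .cup i d :: w, o, l, c, h, hl, hc, h3 => by
    have e1 : (T0 R).cup i ((c : R) • Ph o (chi l)) = ((c * if d then -1 else 1 : ℤ) : R) •
        Ph (ins i d (!d) o) (chi (ins i (l.sum + 1) (l.sum + 1) l)) := by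
      rw [map_smul, Ph_cup h.1 d, cupC_chi (hl ▸ h.1), smul_smul]; simp
    rw [TL.ev, TL.ev, e1]
    refine der he w _ _ _ h.2 (by rw [length_ins, length_ins, hl]) hc fun w' hw' => ?_
    rw [← e1]
    exact h3 (.cup i d :: w') ⟨h.1, by rwa [length_ins] at hw'⟩
  | .cap i :: w, o, l, c, h, hl, hc, h3 => by
    have e1 : (T0 R).cap i ((c : R) • Ph o (chi l)) = ((c * (if str o i then 1 else -1) *
        (if l.getD i default ∈ join i l then 1 else 2) : ℤ) : R) •
        Ph (del i o) (chi (join i l)) := by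
      rw [map_smul, Ph_cap h.1 h.2.1, capC_chi (hl ▸ h.1), Ph_smul, smul_smul, smul_smul]; simp
    have e2 := length_del h.1
    have e3 := length_join (hl ▸ h.1 : i + 2 ≤ l.length)
    rw [TL.ev, TL.ev, e1]
    refine der he w _ _ _ h.2.2 (by omega) (by rw [comps] at hc; omega) fun w' hw' => ?_
    rw [← e1]
    exact h3 (.cap i :: w') ⟨h.1, by rwa [← e2, Nat.add_sub_cancel]⟩
  | .cr i s :: w, o, l, c, h, hl, hc, h3 => by
    have hi : i + 2 ≤ l.length := hl ▸ h.1
    have e1 : (T0 R).X (-1) (-1) i s ((c : R) • Ph o (chi l)) = ((-c : ℤ) : R) •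
        Ph (swp i o) (chi (swp i l)) := by
      rw [← crC_chi hi, Int.cast_neg, ← mul_neg_one (c : R), ← smul_smul, ← Ph_cr h.1 s]
      simp only [TL.X, map_smul, smul_add, smul_smul, mul_comm]
    have hl' : (swp i l).length = (swp i o).length := by rw [length_swp hi, length_swp h.1, hl]
    have ok : Ok 0 l.length w := by rw [← length_swp hi, hl']; exact h.2.ok
    have ih := der he w _ _ (-c) h.2 hl' hc fun w' hw' => by
      rw [← e1]
      exact h3 (.cr i s :: w') ⟨h.1, by rwa [length_swp h.1] at hw'⟩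
    have c1 : comps (swp i l) w = 1 := le_antisymm hc (comps_pos w _ (by rwa [length_swp hi])
      (by rw [← List.length_pos_iff, length_swp hi]; omega))
    have c2 := comps_le_swp hi ok
    have l0 : l ≠ [] := by rw [← List.length_pos_iff]; omega
    have z0 := ev_chi (R := R) h.2 hl' (-c)
    obtain ⟨z, z1, z2⟩ := h3 (.cr i s :: w) ⟨h.1, hl ▸ ok⟩
    rw [TL.ev, e1, z0, c1] at z2
    have z3 := Int.cast_injective (congrFun z2 fun _ => true)
    have two : ∀ w', Valid o w' → comps l w' ≤ 2 → eta o w' = eta (swp i o) w →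
        (T0 R).ev (-1) (-1) w' ((c : R) • Ph o (chi l)) = fun _ => -2 * (z : R) := by
      intro w' hw' hc' he'
      obtain ⟨y, y1, y2⟩ := h3 w' hw'.ok
      have y3 := ev_chi (R := R) hw' hl c
      have y4 := Int.cast_injective (congrFun (y2.symm.trans y3) fun _ => true)
      have := comps_pos w' l (hl ▸ hw'.ok) l0
      rcases (by omega : comps l w' = 1 ∨ comps l w' = 2) with h1 | h1
      · have : y = -z := by rw [y4, ← z3, he', h1]; ring
        rw [this, Int.cast_neg, z1] at y1
        exact absurd y1 (by decide)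
      · have : y = -2 * z := by rw [y4, ← z3, he', h1]; ring
        rw [y2, this]
        simp
    set v := (c : R) • Ph o (chi (R := R) l)
    have e2 : (T0 R).X (-1 - e) (-1 + e) i s v = (1 : R) • (T0 R).X (-1) (-1) i s v + (1 : R) • e •
        ((if s then -1 else 1 : R) • v + (if s then 1 else -1 : R) • (T0 R).cup i ((T0 R).cap i v)) := by
      cases s <;> simp only [TL.X, Bool.false_eq_true, if_true, if_false] <;> module
    have e3 : (T0 R).ev (-1) (-1) w ((T0 R).X (-1) (-1) i s v) = fun _ => (z : R) := by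
      rw [e1, z0, c1, z3]
    have e4 := e3
    rw [TL.X, TL.ev_lin, ite_self] at e4
    rw [TL.ev, TL.ev, e2, TL.ev_lin, ev_eps he, TL.ev_lin, e1, ih, ← e1, e3, writhe]
    funext x
    have e5 := congrFun e4 x
    by_cases hp : o.getD i default = o.getD (i + 1) default
    · have e6 : swp i o = o := by
        obtain ⟨a, x, y, b, rfl, rfl⟩ := split2 h.1
        rw [getD_app0, getD_app1] at hp
        rw [swp_app, hp]
      have e7 := congrFun (two w (e6 ▸ h.2) (by omega) (by rw [e6])) x
      simp only [Pi.add_apply, Pi.smul_apply, smul_eq_mul, if_pos hp] at e5 ⊢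
      cases s <;> simp only [Bool.false_eq_true, if_true, if_false] <;> push_cast
      · linear_combination 2 * e * e7 + e * e5
      · linear_combination -2 * e * e7 - e * e5
    · have e6 : swp i o = ins i (o.getD (i + 1) default) (!o.getD (i + 1) default) (del i o) := by
        rw [swp]
        congr 1
        revert hp
        cases o.getD i default <;> cases o.getD (i + 1) default <;> simp
      have e7 := congrFun (two (.cap i :: .cup i (o.getD (i + 1) default) :: w)
        ⟨h.1, hp, by have := length_del h.1; omega, e6 ▸ h.2⟩ (by simpa [comps, c1] using c2.2) (by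
          simp only [eta, ← e6]
          change ¬str o i = str o (i + 1) at hp
          change _ * ((if str o (i + 1) = true then -1 else 1) * _) = _
          revert hp
          cases str o i <;> cases str o (i + 1) <;> simp)) x
      simp only [Pi.add_apply, Pi.smul_apply, smul_eq_mul, if_neg hp, TL.ev] at e5 e7 ⊢
      cases s <;> simp only [Bool.false_eq_true, if_true, if_false] <;> push_cast
      · linear_combination -2 * e * e7 - e * e5
      · linear_combination 2 * e * e7 + e * e5

theorem U_three : ∀ (w : List Pc) (l : List ℕ), U (-1 : ZMod 3) (-1) (-2) l w = 1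
  | [], _ => rfl
  | .cup _ _ :: w, _ => U_three w _
  | .cap _ :: w, _ => by rw [U, U_three w]; split_ifs <;> rfl
  | .cr _ _ :: w, _ => by rw [U, U_three w, U_three w]; split_ifs <;> rfl

theorem U_knot [CharZero R] {e : R} (he : e * e = 0) {D : List Pc} (h : Valid [] D)
    (hc : comps [] D = 1) : U (-1 - e) (-1 + e) (-2) [] D = -2 * (1 + 3 * writhe [] D * e) := by
  have e0 : ((1 : ℤ) : R) • Ph [] (chi []) = fun _ => (1 : R) := by
    funext x; simp [Ph, chi, Chi]
  have h3 : ∀ w', Ok 0 0 w' → ∃ z : ℤ, (z : ZMod 3) = 1 ∧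
      (T0 R).ev (-1) (-1) w' (((1 : ℤ) : R) • Ph [] (chi [])) = fun _ => (z : R) := fun w' hw' => by
    refine ⟨U (-1) (-1) (-2) [] w', ?_, ?_⟩
    · simpa [U_three] using map_U (-1) (-1) (-2) (Int.castRingHom (ZMod 3)) w' []
    · rw [TL.ev_nil _ _ _ hw', e0]
      funext x
      simpa using (map_U (-1) (-1) (-2) (Int.castRingHom R) w' []).symm
  have h1 := der he D [] [] 1 h rfl hc.le h3
  obtain ⟨z, z1, z2⟩ := h3 D h.ok
  have z3 := Int.cast_injective
    (congrFun (z2.symm.trans (ev_chi (R := R) h rfl 1)) fun _ => true)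
  have h2 : ∀ (w : List Pc) (o : List Bool), eta o w = 1 ∨ eta o w = -1 := by
    intro w
    induction w with
    | nil => simp [eta]
    | cons p w ih =>
      intro o
      cases p <;> simp only [eta] <;> (try split_ifs) <;> simp [neg_eq_iff_eq_neg, ih, or_comm]
  rw [z2, TL.ev_nil _ _ _ h.ok, e0] at h1
  have h4 := congrFun h1 fun _ => true
  simp only [Pi.smul_apply, smul_eq_mul, mul_one] at h4
  rcases h2 D [] with h5 | h5 <;> rw [h5, hc] at z3
  · rw [z3] at z1
    exact absurd z1 (by decide)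
  · rw [h4, z3]; push_cast; ring

theorem zpow_eps {e : R} (he : e * e = 0) {a : Rˣ} (ha : (a : R) = 1 + e) (k : ℤ) :
    (a ^ k).val = 1 + k * e := by
  have h : (↑a⁻¹ : R) = 1 - e := Units.inv_eq_of_mul_eq_one_right (by
    rw [ha]; linear_combination -he)
  induction k with
  | zero => simp
  | succ k ih =>
    rw [zpow_add_one, Units.val_mul, ih, ha]; push_cast; linear_combination (k : R) * he
  | pred k ih =>
    rw [zpow_sub_one, Units.val_mul, ih, h]; push_cast; linear_combination (k : R) * he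

theorem jones_knot [Algebra ℚ R] [Nontrivial R] {e : R} (he : e * e = 0) {a : Rˣ}
    (ha : (a : R) = 1 + e) {D : List Pc} (h : Valid [] D) (hc : comps [] D = 1) :
    evA (-a) (jones D) = 1 := by
  haveI : CharZero R := algebraRat.charZero R
  have h0 : (↑a⁻¹ : R) = 1 - e := by simpa [sub_eq_add_neg] using zpow_eps he ha (-1)
  have h1 := evA_mul_bracket (-a) h.ok (by rintro rfl; simp [comps] at hc)
  have h2 : -((-a : Rˣ) : R) ^ 2 - (↑(-a)⁻¹ : R) ^ 2 = -2 := by
    rw [inv_neg, Units.val_neg, Units.val_neg, h0, ha]; linear_combination -2 * he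
  rw [h2, inv_neg, Units.val_neg, Units.val_neg, h0, ha, neg_add', neg_sub', sub_neg_eq_add,
    U_knot he h hc] at h1
  have h3 : IsUnit (-2 : R) := by
    have := (IsUnit.mk0 (-2 : ℚ) (by norm_num)).map (algebraMap ℚ R)
    rwa [map_neg, map_ofNat] at this
  rw [evA_jones, h3.mul_left_cancel h1, ← neg_one_mul a, mul_zpow, Units.val_mul, zpow_eps he ha]
  rcases Int.even_or_odd (writhe [] D) with h4 | h4
  · rw [(Int.natAbs_even.2 h4).neg_one_pow, (h4.mul_left _).neg_one_zpow]
    push_cast
    linear_combination -9 * (writhe [] D : R) ^ 2 * he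
  · rw [(Int.natAbs_odd.2 h4).neg_one_pow, (Odd.mul (by decide) h4).neg_one_zpow]
    push_cast
    linear_combination -9 * (writhe [] D : R) ^ 2 * he

end

/-- the unit `1 + ε` -/
def a0 : (DualNumber ℚ)ˣ := ⟨1 + DualNumber.eps, 1 - DualNumber.eps,
  by linear_combination -DualNumber.eps_mul_eps (R := ℚ),
  by linear_combination -DualNumber.eps_mul_eps (R := ℚ)⟩

theorem fin_knots (n : ℕ) (K : ℝ) : {f | (∃ D, Valid [] D ∧ comps [] D = 1 ∧ jones D = f) ∧
    SpanLe f n ∧ ∀ k, |(f.coeff k : ℝ)| ≤ K}.Finite := by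
  refine (fin_knot (-a0) (fun k hk => ?_) n K).subset ?_
  · have h1 : a0 ^ (2 * k) = 1 := by
      rw [zpow_mul, ← (even_two (α := ℤ)).neg_zpow, ← zpow_mul, mul_comm, zpow_mul, hk, one_zpow]
    have h2 := congrArg TrivSqZeroExt.snd (zpow_eps DualNumber.eps_mul_eps (a := a0) rfl (2 * k))
    rw [h1] at h2
    generalize hj : 2 * k = j at h2
    have : j = 0 := by simpa using h2.symm
    omega
  · rintro _ ⟨⟨D, h1, h2, rfl⟩, h3, h4⟩
    exact ⟨h3, h4, jones_knot DualNumber.eps_mul_eps rfl h1 h2⟩

end Pool.Agent.P.MP_833722_gt
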