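import Pool.Agent.P.MP_833722_gt.Fox

/-! The bracket at `t = -1` as a determinant. -/

set_option autoImplicit false

namespace Pool.Agent.P.MP_833722_gt

open ExteriorAlgebra CliffordAlgebra

section

variable {R : Type} [CommRing R] {N : ℕ}

/-- ordered products -/
def pF {M : Type} [Monoid M] (F : ℕ → M) (s : ℕ) : ℕ → M
  | 0 => 1
  | n + 1 => pF F s n * F (s + n)

theorem pF_add {M : Type} [Monoid M] (F : ℕ → M) (s a : ℕ) :
    ∀ b, pF F s (a + b) = pF F s a * pF F (s + a) b
  | 0 => (mul_one _).symm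
  | b + 1 => by rw [← add_assoc, pF, pF, pF_add F s a b, mul_assoc, add_assoc]

theorem pF_map {M : Type} [Monoid M] (φ : M →* M) {F G : ℕ → M} {s s' : ℕ} :
    ∀ n, (∀ t < n, G (s' + t) = φ (F (s + t))) → pF G s' n = φ (pF F s n)
  | 0, _ => (map_one φ).symm
  | n + 1, h => by
    rw [pF, pF, map_mul, pF_map φ n fun t ht => h t (by omega), h n (by omega)]

/-- an integral vector in the exterior algebra -/
noncomputable def io (R : Type) [CommRing R] (y : Fin N → ℤ) : ExteriorAlgebra R (Fin N → R) :=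
  ExteriorAlgebra.ι R fun j => (y j : R)

theorem io_sub (y z : Fin N → ℤ) : io R (y - z) = io R y - io R z := by
  rw [io, io, io, ← map_sub]; congr 1; funext j; simp

theorem io_two (y : Fin N → ℤ) : io R (2 • y) = (2 : R) • io R y := by
  rw [io, io, ← map_smul]; congr 1; funext j; simp

theorem io_sq (y : Fin N → ℤ) : io R y * io R y = 0 := ExteriorAlgebra.ι_sq_zero _

theorem io_swap (y z : Fin N → ℤ) : io R y * io R z = -(io R z * io R y) :=
  eq_neg_of_add_eq_zero_left (ι_add_mul_swap _ _)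

theorem involute_io (y : Fin N → ℤ) : involute (io R y) = -io R y := involute_ι _

theorem io_mul (y : Fin N → ℤ) (b : ExteriorAlgebra R (Fin N → R)) :
    io R y * involute b = b * io R y := by
  induction b using ExteriorAlgebra.induction with
  | algebraMap r => rw [AlgHom.commutes, Algebra.commutes]
  | ι x => rw [involute_ι, mul_neg, neg_eq_iff_add_eq_zero]; exact ι_add_mul_swap _ _
  | mul a b ha hb => rw [map_mul, ← mul_assoc, ha, mul_assoc, hb, mul_assoc]
  | add a b ha hb => rw [map_add, mul_add, add_mul, ha, hb]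

/-- product of a list -/
noncomputable def pr (R : Type) [CommRing R] (L : List (Fin N → ℤ)) :
    ExteriorAlgebra R (Fin N → R) := (L.map (io R)).prod

theorem pr_cons (y : Fin N → ℤ) (L : List (Fin N → ℤ)) : pr R (y :: L) = io R y * pr R L := by
  simp [pr]

theorem pr_move (y : Fin N → ℤ) (L : List (Fin N → ℤ)) : ∀ P : List (Fin N → ℤ),
    pr R (P ++ y :: L) = (-1 : R) ^ P.length • (io R y * pr R (P ++ L))
  | [] => by simp [pr]
  | z :: P => by
    simp only [List.cons_append, pr_cons, pr_move y L P, mul_smul_comm, ← mul_assoc, io_swap z y,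
      List.length_cons, pow_succ, mul_neg_one, neg_mul, smul_neg, neg_smul]

/-- the top coefficient -/
noncomputable def ta (R : Type) [CommRing R] (N : ℕ) : ExteriorAlgebra R (Fin N → R) →ₗ[R] R :=
  liftAlternating (Pi.single N Matrix.detRowAlternating)

theorem ta_ofFn (M : Matrix (Fin N) (Fin N) ℤ) : ta R N (pr R (List.ofFn M)) = M.det := by
  have : pr R (List.ofFn M) = ιMulti R N (M.map Int.cast) := by
    rw [pr, List.map_ofFn]; rfl
  rw [this, ta, liftAlternating_apply_ιMulti, Pi.single_eq_same, Int.cast_det]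
  rfl

theorem ta_ne {L : List (Fin N → ℤ)} (h : L.length ≠ N) : ta R N (pr R L) = 0 := by
  have : pr R L = ιMulti R L.length fun i j => (L.get i j : R) := by
    conv_lhs => rw [pr, ← List.ofFn_get L, List.map_ofFn]
    rfl
  rw [this, ta, liftAlternating_apply_ιMulti, Pi.single_eq_of_ne h]
  rfl

/-- killing a coordinate -/
noncomputable def kil (R : Type) [CommRing R] (k : Fin N) :
    ExteriorAlgebra R (Fin N → R) →ₐ[R] ExteriorAlgebra R (Fin N → R) :=
  ExteriorAlgebra.map (LinearMap.pi fun j => if j = k then 0 else LinearMap.proj j)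

theorem kil_io {k : Fin N} {y : Fin N → ℤ} (h : y k = 0) : kil R k (io R y) = io R y := by
  rw [kil, io, ExteriorAlgebra.map_apply_ι]
  congr 1
  funext j
  rw [LinearMap.pi_apply]
  split_ifs with e
  · simp [e, h]
  · rfl

theorem ta_kil (k : Fin N) (b : ExteriorAlgebra R (Fin N → R)) : ta R N (kil R k b) = 0 := by
  have : ta R N ∘ₗ (kil R k).toLinearMap = 0 := lhom_ext fun n => AlternatingMap.ext fun v => by
    change ta R N (kil R k (ιMulti R n v)) = 0
    rw [kil, map_apply_ιMulti, ta, liftAlternating_apply_ιMulti]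
    rcases eq_or_ne n N with rfl | e
    · rw [Pi.single_eq_same]
      exact Matrix.det_eq_zero_of_column_eq_zero k fun i => by simp
    · rw [Pi.single_eq_of_ne e]; rfl
  exact LinearMap.congr_fun this b

variable (J : R)

/-- a factor -/
noncomputable def fa (r : ℕ) (y : Fin N → ℤ) (b : Bool) : ExteriorAlgebra R (Fin N → R) :=
  if b then J ^ r • io R y else 1

/-- the state vector -/
noncomputable def Om (m : ℕ) (Y : ℕ → Fin N → ℤ) (Q : List (Fin N → ℤ)) (x : ℕ → Bool) : R :=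
  ta R N (pF (fun r => fa J r (Y r) (x r)) 0 m * pr R Q)

variable {J} (hJ : J * J = -1)
include hJ

theorem Om_split {i m : ℕ} (h : i ≤ m) (Y : ℕ → Fin N → ℤ) (x : ℕ → Bool) :
    ∃ a b : ExteriorAlgebra R (Fin N → R), (∀ Q, Om J m Y Q x = ta R N (a * b * pr R Q)) ∧
      ∀ Q y y' t t', Om J (m + 2) (ins2 i y y' Y) Q (ins2 i t t' x) =
        ta R N (a * (fa J i y t * fa J (i + 1) y' t' * involute b) * pr R Q) := by
  obtain ⟨n, rfl⟩ := Nat.exists_eq_add_of_le h
  refine ⟨pF (fun r => fa J r (Y r) (x r)) 0 i, pF (fun r => fa J r (Y r) (x r)) i n,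
    fun Q => by rw [Om, pF_add, zero_add], fun Q y y' t t' => ?_⟩
  rw [Om, show i + n + 2 = i + (2 + n) by ring, pF_add, pF_add, zero_add]
  congr 3
  · exact pF_map (MonoidHom.id _) i fun r hr => by simp [ins2_lt hr]
  · congr 1
    · simp [pF]
    · refine pF_map (involute.toRingHom.toMonoidHom) n fun r hr => ?_
      rw [show i + 2 + r = i + r + 2 by ring, ins2_ge (by omega), ins2_ge (by omega)]
      unfold fa
      split_ifs
      · simp [involute_io, pow_succ, mul_assoc, hJ]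
      · simp

/-- the model with loop value zero -/
def TJ : TL R ((ℕ → Bool) → R) 0 :=
  hTL (fun _ b => if b then -J else 1) (fun _ b => if b then 1 else J) 0
    (fun _ => by simp) (fun _ b => by cases b <;> simp [hJ]) (fun _ b => by cases b <;> simp [hJ])

theorem Om_cup {i m : ℕ} (h : i ≤ m) (k : Fin N) {Y : ℕ → Fin N → ℤ} {P L : List (Fin N → ℤ)}
    (h1 : ∀ r, Y r k = 0) (h2 : ∀ y ∈ P ++ L, y k = 0) :
    (TJ hJ).cup i (Om J m Y (P ++ eK N k :: L)) = ((-1) ^ P.length * (-J) ^ (i + 1)) •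
      Om J (m + 2) (ins2 i (eK N k) (eK N k) Y) (P ++ L) := by
  funext x
  have hJ' : ∀ n, (-J) ^ n * J ^ n = 1 := fun n => by rw [← mul_pow, neg_mul, hJ, neg_neg, one_pow]
  obtain ⟨a, b, e1, e2⟩ := Om_split hJ h Y (del2 i x)
  have e3 := e2 (P ++ L) (eK N k) (eK N k) (x i) (x (i + 1))
  rw [ins2_del2] at e3
  simp only [TJ, hTL, hcup_apply, Pi.smul_apply, smul_eq_mul, e1, pr_move, mul_smul_comm, map_smul]
  cases h3 : x i <;> cases h4 : x (i + 1) <;> simp only [h3, h4, fa, Bool.false_eq_true,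
    Bool.true_eq_false, Bool.not_true, Bool.not_false, if_true, if_false, one_mul, mul_one,
    smul_mul_assoc, mul_smul_comm, map_smul, io_mul, io_sq, smul_eq_mul] at e3 ⊢
  · rw [Om, pF_map (kil R k).toRingHom.toMonoidHom (m + 2) (s := 0)
      (F := fun r => fa J r (ins2 i (eK N k) (eK N k) Y r) (x r)),
      show pr R (P ++ L) = kil R k (pr R (P ++ L)) by
        rw [pr, map_list_prod, List.map_map]
        exact congrArg _ (List.map_congr_left fun y hy => (kil_io (h2 y hy)).symm)]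
    · exact ((congrArg _ ((congrArg _ (map_mul (kil R k) _ _).symm).trans (ta_kil _ _))).trans
        (mul_zero _)).symm
    · simp only [zero_add, forall_sk h, h3, h4, ins2_sk, fa]
      refine ⟨by simp, by simp, fun r _ => ?_⟩
      split_ifs <;> simp [kil_io (h1 r)]
  · rw [e3]
    simp only [mul_assoc]
    linear_combination -((-1) ^ P.length * ta R N (a * (b * (io R (eK N k) * pr R (P ++ L))))) *
      hJ' (i + 1)
  · rw [e3]
    simp only [mul_assoc]
    linear_combination ((-1) ^ P.length * J * ta R N (a * (b * (io R (eK N k) * pr R (P ++ L))))) *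
      hJ' i
  · simp [e3]

theorem Om_cap {i m : ℕ} (h : i ≤ m) (Y : ℕ → Fin N → ℤ) (Q : List (Fin N → ℤ)) :
    (TJ hJ).cap i (Om J (m + 2) Y Q) = J ^ i • Om J m (del2 i Y) ((Y i - Y (i + 1)) :: Q) := by
  funext x
  obtain ⟨a, b, e1, e2⟩ := Om_split hJ h (del2 i Y) x
  have e3 := e2 Q (Y i) (Y (i + 1))
  rw [ins2_del2] at e3
  simp only [TJ, hTL, hcap_apply, Pi.smul_apply, smul_eq_mul, e1, e3, Fintype.sum_bool, fa,
    Bool.false_eq_true, Bool.not_true, Bool.not_false, if_true, if_false, one_mul, mul_one,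
    smul_mul_assoc, mul_smul_comm, map_smul, io_mul, pr_cons, io_sub, mul_sub, sub_mul, map_sub]
  simp only [mul_assoc]
  linear_combination J ^ i * ta R N (a * (b * (io R (Y (i + 1)) * pr R Q))) * hJ

theorem Om_cr {i m : ℕ} (h : i ≤ m) (Y : ℕ → Fin N → ℤ) (Q : List (Fin N → ℤ)) (s : Bool) (B : R) :
    (TJ hJ).X (J * B) B i s (Om J (m + 2) Y Q) =
      (if s then J * B else B) • Om J (m + 2) (fwd s i Y) Q := by
  funext x
  obtain ⟨a, b, -, e2⟩ := Om_split hJ h (del2 i Y) (del2 i x)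
  have e3 := e2 Q (Y i) (Y (i + 1))
  rw [ins2_del2] at e3
  have e4 := fun y y' => e2 Q y y' (x i) (x (i + 1))
  have e5 := e3 (x i) (x (i + 1))
  rw [ins2_del2] at e4 e5
  simp only [TL.X, TJ, hTL, hcap_apply, hcup_apply, Pi.add_apply, Pi.smul_apply, smul_eq_mul,
    Fintype.sum_bool, e3, e5]
  have e6 := io_swap (R := R) (Y (i + 1)) (Y i)
  cases s <;> simp only [fwd, Bool.false_eq_true, if_true, if_false, e4] <;>
    cases x i <;> cases x (i + 1) <;> simp only [fa, Bool.false_eq_true,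
    Bool.true_eq_false, Bool.not_true, Bool.not_false, if_true, if_false, one_mul, mul_one,
    smul_mul_assoc, mul_smul_comm, map_smul, io_sq, smul_eq_mul, io_sub, io_two, mul_sub, sub_mul,
    map_sub, e6, mul_neg, neg_mul, map_neg, smul_zero, zero_mul, mul_zero, map_zero, smul_sub,
    smul_neg] <;> grind

theorem ev_Om {B : R} (hB : B ^ 8 = 1) : ∀ (w : List Pc) (m : ℕ) (Y : ℕ → Fin N → ℤ)
    (P : List (Fin N → ℤ)) (k : ℕ), Ok 2 m w → k + cups w = N → Zr k Y P →
    ∃ c : R, c ^ 8 = 1 ∧ (TJ hJ).ev (J * B) B w (Om J m Y (P ++ eL N k (cups w))) =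
      c • Om J 2 (dat w Y P k).1 (dat w Y P k).2
  | [], m, Y, P, k, ho, _, _ => by
    obtain rfl : m = 2 := ho
    exact ⟨1, one_pow _, by simp [TL.ev, dat, cups, eL]⟩
  | .cup i _ :: w, m, Y, P, k, ho, hk, hz => by
    simp only [cups] at hk ⊢
    obtain ⟨c, h1, h2⟩ := ev_Om hB w _ _ _ _ ho.2 (by omega) (hz.cup i)
    obtain ⟨k, rfl⟩ : ∃ j : Fin N, k = j := ⟨⟨k, by omega⟩, rfl⟩
    have h3 := hz k le_rfl
    rw [TL.ev, eL_succ, Om_cup hJ ho.1 k h3.1 fun y hy => ?_, TL.ev_smul, h2, smul_smul]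
    · refine ⟨_, ?_, rfl⟩
      rw [mul_pow, mul_pow, h1, pow_right_comm, pow_right_comm _ (i + 1),
        show (-J) ^ 8 = (J * J) ^ 4 by ring, hJ]
      norm_num
    · rcases List.mem_append.1 hy with hy | hy
      · exact h3.2 y hy
      · obtain ⟨t, rfl⟩ := List.mem_ofFn.1 hy
        exact if_neg (by omega)
  | .cap i :: w, m, Y, P, k, ho, hk, hz => by
    obtain ⟨m, rfl⟩ : ∃ j, m = j + 2 := ⟨m - 2, by have := ho.1; omega⟩
    obtain ⟨c, h1, h2⟩ := ev_Om hB w m _ _ _ ho.2 hk (hz.cap i)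
    rw [TL.ev, Om_cap hJ (by have := ho.1; omega), TL.ev_smul, cups, ← List.cons_append, h2,
      smul_smul]
    refine ⟨_, ?_, rfl⟩
    rw [mul_pow, h1, pow_right_comm, show J ^ 8 = (J * J) ^ 4 by ring, hJ]
    norm_num
  | .cr i s :: w, m, Y, P, k, ho, hk, hz => by
    obtain ⟨m, rfl⟩ : ∃ j, m = j + 2 := ⟨m - 2, by have := ho.1; omega⟩
    obtain ⟨c, h1, h2⟩ := ev_Om hB w _ _ _ _ ho.2 hk (hz.cr s i)
    rw [TL.ev, Om_cr hJ (by have := ho.1; omega), TL.ev_smul, cups, h2, smul_smul]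
    refine ⟨_, ?_, rfl⟩
    rw [mul_pow, h1]
    split_ifs
    · rw [mul_pow, hB, show J ^ 8 = (J * J) ^ 4 by ring, hJ]
      norm_num
    · rw [hB, one_mul]

end

theorem bracket_det {R : Type} [CommRing R] (a : Rˣ) (ha : (a : R) ^ 4 = -1) {D : List Pc}
    (h : Ok 2 0 D) : ∃ c : R, c ^ 8 = 1 ∧ evA a (bracket (D ++ [.cap 0])) =
      c * ta R (cups D) (pr R ((dat D 0 [] 0).1 1 :: (dat D 0 [] 0).2)) := by
  have h1 : (a : R) * ↑a⁻¹ = 1 := by simp
  have hJ : (a : R) ^ 2 * a ^ 2 = -1 := by rw [← ha]; ring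
  obtain ⟨c, h2, h3⟩ := ev_Om hJ (B := ↑a⁻¹) (by grind) D 0 0 [] 0 h (zero_add _)
    (fun j _ => by simp)
  have h4 : Om ((a : R) ^ 2) 0 0 ([] ++ eL (cups D) 0 (cups D)) = fun _ => 1 := by
    funext x
    have : eL (cups D) 0 (cups D) = List.ofFn (1 : Matrix (Fin (cups D)) (Fin (cups D)) ℤ) := by
      unfold eL
      congr 1
      funext i j
      simp [eK, Matrix.one_apply, Fin.ext_iff, eq_comm]
    rw [Om, pF, one_mul, List.nil_append, this, ta_ofFn]
    simp
  rw [TL.ev_two _ _ _ h, h4] at h3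
  have h5 := congrFun h3 (ins2 0 false true fun _ => true)
  refine ⟨c * a ^ 2, by grind, ?_⟩
  rw [evA_bracket a h, show -(a : R) ^ 2 - (↑a⁻¹ : R) ^ 2 = 0 by grind]
  rw [show (a : R) ^ 2 * ↑a⁻¹ = a by grind] at h5
  simpa [TJ, hTL, hcup_apply, Om, pF, fa, ins2, pr_cons, mul_assoc] using h5

end Pool.Agent.P.MP_833722_gt
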