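import Pool.Agent.P.MP_833722_gt.Potts

/-! Fox colourings as solutions of an integral linear system. -/

set_option autoImplicit false

namespace Pool.Agent.P.MP_833722_gt

variable {N : ℕ}

/-- unit vectors -/
def eK (N k : ℕ) : Fin N → ℤ := fun j => if j.val = k then 1 else 0

/-- the unit vectors with index in `[k, k + n)` -/
def eL (N k n : ℕ) : List (Fin N → ℤ) := List.ofFn fun i : Fin n => eK N (k + i)

theorem eL_succ (k n : ℕ) : eL N k (n + 1) = eK N k :: eL N (k + 1) n := by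
  simp [eL, List.ofFn_succ, add_assoc, add_comm 1]

/-- the Fox rule, upwards -/
def fwd (s : Bool) (i : ℕ) (Y : ℕ → Fin N → ℤ) : ℕ → Fin N → ℤ :=
  if s then ins2 i (Y (i + 1)) (2 • Y (i + 1) - Y i) (del2 i Y) else
    ins2 i (2 • Y i - Y (i + 1)) (Y i) (del2 i Y)

/-- colours of the strands and relations, in terms of the colours of the minima -/
def dat : List Pc → (ℕ → Fin N → ℤ) → List (Fin N → ℤ) → ℕ → (ℕ → Fin N → ℤ) × List (Fin N → ℤ)
  | [], Y, P, _ => (Y, P)
  | .cup i _ :: w, Y, P, k => dat w (ins2 i (eK N k) (eK N k) Y) P (k + 1)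
  | .cap i :: w, Y, P, k => dat w (del2 i Y) ((Y i - Y (i + 1)) :: P) k
  | .cr i s :: w, Y, P, k => dat w (fwd s i Y) P k

/-- later generators do not occur yet -/
def Zr (k : ℕ) (Y : ℕ → Fin N → ℤ) (P : List (Fin N → ℤ)) : Prop :=
  ∀ j : Fin N, k ≤ j → (∀ r, Y r j = 0) ∧ ∀ y ∈ P, y j = 0

theorem Zr.cup {k : ℕ} {Y : ℕ → Fin N → ℤ} {P : List (Fin N → ℤ)} (h : Zr k Y P) (i : ℕ) :
    Zr (k + 1) (ins2 i (eK N k) (eK N k) Y) P := fun j hj =>
  ⟨fun r => by
    have := (h j (by omega)).1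
    unfold ins2
    split_ifs <;> first | exact this _ | exact if_neg (by omega), (h j (by omega)).2⟩

theorem Zr.cap {k : ℕ} {Y : ℕ → Fin N → ℤ} {P : List (Fin N → ℤ)} (h : Zr k Y P) (i : ℕ) :
    Zr k (del2 i Y) ((Y i - Y (i + 1)) :: P) := fun j hj =>
  ⟨fun r => by rw [del2_sk, (h j hj).1], by simpa [(h j hj).1] using (h j hj).2⟩

theorem Zr.cr {k : ℕ} {Y : ℕ → Fin N → ℤ} {P : List (Fin N → ℤ)} (h : Zr k Y P) (s : Bool)
    (i : ℕ) : Zr k (fwd s i Y) P := fun j hj =>
  ⟨fun r => by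
    cases s <;> simp only [fwd, ins2_del2_apply, Bool.false_eq_true, if_true, if_false] <;>
      split_ifs <;> simp [(h j hj).1], (h j hj).2⟩

/-- pairing modulo `3` -/
def pair (y : Fin N → ℤ) (z : Fin N → ZMod 3) : ZMod 3 := ∑ j, (y j : ZMod 3) * z j

theorem pair_sub (y y' : Fin N → ℤ) (z : Fin N → ZMod 3) :
    pair (y - y') z = pair y z - pair y' z := by simp [pair, sub_mul]

theorem pair_two (y : Fin N → ℤ) (z : Fin N → ZMod 3) : pair (2 • y) z = 2 * pair y z := by
  simp [pair, mul_assoc, Finset.mul_sum]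

theorem pair_sub' (y : Fin N → ℤ) (z z' : Fin N → ZMod 3) :
    pair y (z - z') = pair y z - pair y z' := by simp [pair, mul_sub]

theorem pair_eK (k : Fin N) (z : Fin N → ZMod 3) : pair (eK N k) z = z k := by
  simp [pair, eK, Fin.val_inj]

theorem pair_update {y : Fin N → ℤ} {k : Fin N} (h : y k = 0) (z : Fin N → ZMod 3) (t : ZMod 3) :
    pair y (Function.update z k t) = pair y z :=
  Finset.sum_congr rfl fun j _ => by
    rcases eq_or_ne j k with rfl | e
    · simp [h]
    · rw [Function.update_of_ne e]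

/-- solutions -/
def sol (Q : List (Fin N → ℤ)) (Y : ℕ → Fin N → ℤ) (m : ℕ) (c : ℕ → ZMod 3) :
    Finset (Fin N → ZMod 3) :=
  Finset.univ.filter fun z => (∀ y ∈ Q, pair y z = 0) ∧ ∀ r < m, pair (Y r) z = c r

theorem fox_le : ∀ (w : List Pc) (m : ℕ) (Y : ℕ → Fin N → ℤ) (P : List (Fin N → ℤ)) (k : ℕ)
    (g : (ℕ → ZMod 3) → ℝ), Ok 2 m w → k + cups w = N → Zr k Y P →
    (∀ c, g c ≤ (sol (P ++ eL N k (cups w)) Y m c).card) →
    ∀ c, evC fox w g c ≤ (sol (dat w Y P k).2 (dat w Y P k).1 2 c).card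
  | [], m, Y, P, k, g, ho, _, _, H => by
    obtain rfl : m = 2 := ho
    simpa [evC, dat, cups, eL] using H
  | .cup i _ :: w, m, Y, P, k, g, ho, hk, hz, H => by
    simp only [cups] at hk H
    refine fox_le w (m + 2) _ _ _ _ ho.2 (by omega) (hz.cup i) fun c => ?_
    rw [cupC]
    split_ifs with h1
    · refine (H _).trans (Nat.cast_le.2 ?_)
      obtain ⟨k, rfl⟩ : ∃ j : Fin N, k = j := ⟨⟨k, by omega⟩, rfl⟩
      have h2 := hz k le_rfl
      simp only [sol, eL_succ]
      refine Finset.card_le_card_of_injOn (fun z => Function.update z k (c i)) (fun z hz => ?_)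
        fun z hz z' hz' e => ?_
      · simp only [Finset.coe_filter, Finset.mem_univ, true_and, Set.mem_setOf_eq, List.mem_append,
          List.mem_cons, forall_sk ho.1, ins2_self, ins2_succ, ins2_sk, pair_eK, del2_sk,
          Function.update_self, h1] at hz ⊢
        refine ⟨fun y hy => ?_, fun r hr => by rw [pair_update (h2.1 r), hz.2 r hr]⟩
        rw [pair_update, hz.1 y (by tauto)]
        rcases hy with hy | hy
        · exact h2.2 y hy
        · obtain ⟨t, rfl⟩ := List.mem_ofFn.1 hy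
          exact if_neg (by omega)
      · simp only [Finset.coe_filter, Finset.mem_univ, true_and, Set.mem_setOf_eq] at hz hz'
        have h3 := hz.1 (eK N k) (by simp)
        have h4 := hz'.1 (eK N k) (by simp)
        rw [pair_eK] at h3 h4
        funext j
        rcases eq_or_ne j k with rfl | e1
        · rw [h3, h4]
        · simpa [e1] using congrFun e j
    · positivity
  | .cap i :: w, m, Y, P, k, g, ho, hk, hz, H => by
    obtain ⟨m, rfl⟩ : ∃ j, m = j + 2 := ⟨m - 2, by have := ho.1; omega⟩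
    refine fox_le w m _ _ _ _ ho.2 hk (hz.cap i) fun c => ?_
    refine (Finset.sum_le_sum fun t _ => H _).trans ?_
    rw [Finset.card_eq_sum_card_fiberwise (f := pair (Y i)) (t := Finset.univ) (by simp),
      Nat.cast_sum]
    refine Finset.sum_le_sum fun t _ => Nat.cast_le.2 (Finset.card_le_card fun z hz => ?_)
    simp only [sol, Finset.mem_filter, Finset.mem_univ, true_and, List.cons_append,
      List.forall_mem_cons, forall_sk (show i ≤ m by have := ho.1; omega), ins2_self, ins2_succ,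
      ins2_sk, del2_sk, pair_sub, cups] at hz ⊢
    exact ⟨⟨⟨by rw [hz.2.1, hz.2.2.1, sub_self], hz.1⟩, hz.2.2.2⟩, hz.2.1⟩
  | .cr i s :: w, m, Y, P, k, g, ho, hk, hz, H => by
    obtain ⟨m, rfl⟩ : ∃ j, m = j + 2 := ⟨m - 2, by have := ho.1; omega⟩
    refine fox_le w _ _ _ _ _ ho.2 hk (hz.cr s i) fun c => ?_
    refine (H _).trans (Nat.cast_le.2 (Finset.card_le_card fun z hz => ?_))
    cases s <;> simp only [sol, Finset.mem_filter, Finset.mem_univ, true_and, fwd, fox, sg,
      forall_sk (show i ≤ m by have := ho.1; omega), ins2_self, ins2_succ, Bool.false_eq_true,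
      if_true, if_false, ins2_sk, del2_sk, pair_sub, pair_two, cups] at hz ⊢ <;>
    exact ⟨hz.1, by simp only [hz.2.1, hz.2.2.1]; ring, by simp only [hz.2.1, hz.2.2.1]; ring, hz.2.2.2⟩

theorem evC_append {α R : Type} [Fintype α] [DecidableEq α] [CommRing R]
    (F : Bool → α → α → α × α) : ∀ (p w : List Pc) (g : (ℕ → α) → R),
    evC F (p ++ w) g = evC F w (evC F p g)
  | [], _, _ => rfl
  | .cup _ _ :: p, w, _ => evC_append F p w _
  | .cap _ :: p, w, _ => evC_append F p w _
  | .cr _ _ :: p, w, _ => evC_append F p w _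

theorem ker_le (M : Matrix (Fin N) (Fin N) ℤ) (h : M.det ≠ 0) :
    (Finset.univ.filter fun z => ∀ i, pair (M i) z = 0).card ≤ M.det.natAbs := by
  let f := Matrix.toLin' M
  have hf : Function.Injective f := Matrix.mulVec_injective_of_det_ne_zero h
  have h1 : M.det.natAbs = f.range.toAddSubgroup.index := by
    rw [← LinearMap.det_toLin']
    exact Submodule.natAbs_det_equiv f.range (LinearEquiv.ofInjective f hf)
  let g := (Matrix.toLin' (M.map (Int.castRingHom (ZMod 3)))).toAddMonoidHom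
  let π : (Fin N → ℤ) →+ (Fin N → ZMod 3) := (Int.castAddHom (ZMod 3)).compLeft _
  have h2 : Function.Surjective π := (ZMod.intCast_surjective (n := 3)).comp_left
  have h3 : f.range.toAddSubgroup ≤ g.range.comap π := by
    rintro _ ⟨y, rfl⟩
    refine ⟨π y, funext fun i => ?_⟩
    simp [g, π, f, Matrix.mulVec, dotProduct]
  have h4 := AddSubgroup.index_dvd_of_le h3
  rw [AddSubgroup.index_comap_of_surjective _ h2, AddSubgroup.index_range, ← h1] at h4
  refine le_trans (le_of_eq ?_) (Nat.le_of_dvd (Int.natAbs_pos.2 h) h4)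
  rw [← Nat.card_eq_finsetCard]
  refine Nat.card_congr (Equiv.subtypeEquivRight fun z => ?_)
  simp [g, pair, funext_iff, Matrix.mulVec, dotProduct]

theorem fox_det {D : List Pc} (h : Ok 2 0 D) (M : Matrix (Fin (cups D)) (Fin (cups D)) ℤ)
    (hM : (dat D 0 [] 0).1 1 :: (dat D 0 [] 0).2 = List.ofFn M) (h0 : M.det ≠ 0) :
    evC fox (D ++ [.cap 0]) (fun _ : ℕ → ZMod 3 => (1 : ℝ)) 0 ≤ 3 * M.det.natAbs := by
  have h1 := fox_le D 0 0 [] 0 (fun _ => 1) h (zero_add _) (fun j _ => by simp) fun c => by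
    rw [Nat.one_le_cast, Finset.one_le_card]
    exact ⟨0, by simp [sol, pair]⟩
  rw [evC_append, evC, evC, capC]
  refine (Finset.sum_le_card_nsmul Finset.univ _ (M.det.natAbs : ℝ) fun t _ => (h1 _).trans
    (Nat.cast_le.2 (le_trans ?_ (ker_le M h0)))).trans (by simp)
  rcases (sol (dat D 0 [] 0).2 (dat D 0 [] 0).1 2 (ins2 0 t t 0)).eq_empty_or_nonempty with
    h2 | ⟨z, h2⟩
  · rw [h2]; exact Nat.zero_le _
  refine Finset.card_le_card_of_injOn (· - z) (fun y hy => ?_) fun _ _ _ _ e => sub_left_inj.1 e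
  simp only [sol, Finset.coe_filter, Finset.mem_filter, Finset.mem_univ, true_and,
    Set.mem_setOf_eq, pair_sub'] at h2 hy ⊢
  intro i
  rcases List.mem_cons.1 (hM ▸ List.mem_ofFn.2 ⟨i, rfl⟩ : M i ∈ _) with e | e
  · rw [e, hy.2 1 one_lt_two, h2.2 1 one_lt_two, sub_self]
  · rw [hy.1 _ e, h2.1 _ e, sub_self]

end Pool.Agent.P.MP_833722_gt
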