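import Pool.Agent.P.MP_833722_gt.Potts

/-! Values of the bracket at the points where the loop value has square `1, 2, 3`. -/

set_option autoImplicit false

namespace Pool.Agent.P.MP_833722_gt

open Complex

theorem kk {G : Type} [CommRing G] [DecidableEq G] {A B : ℂ} (hB : B = (starRingEnd ℂ) A)
    (h1 : A * B = 1) (s : Bool) (d e : G) :
    ka A B (-A ^ 2 - B ^ 2) s d * (starRingEnd ℂ) (ka A B (-A ^ 2 - B ^ 2) s e) =
      if d = 0 then (if e = 0 then 1 else -(if s then B else A) ^ 4) else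
        if e = 0 then -(if s then A else B) ^ 4 else 1 := by
  have hA : (starRingEnd ℂ) B = A := by rw [hB, conj_conj]
  unfold ka
  cases s <;> split_ifs <;>
    simp only [map_add, map_mul, map_sub, map_neg, map_pow, map_zero, ← hB, hA] <;> grind

theorem pk (p : ℕ) [NeZero p] (a : ℂˣ) (ha : ‖(a : ℂ)‖ = 1) {ζ : ℂ} (hζ : IsPrimitiveRoot ζ p)
    (hp : (a : ℂ) ^ 4 + (↑a⁻¹ : ℂ) ^ 4 + 2 = p)
    (hκ : ∀ (s : Bool) (β d : ZMod p), (if d + β = 0 then (if d = 0 then 1 else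
      -(if s then (↑a⁻¹ : ℂ) else a) ^ 4) else if d = 0 then -(if s then (a : ℂ) else ↑a⁻¹) ^ 4
        else 1) = (if β = 0 then 1 else -(if s then (a : ℂ) else ↑a⁻¹) ^ 4) *
          ζ ^ (sg (ZMod p) s * β * d).val)
    {D : List Pc} (hD : Ok 0 0 D) (h0 : D ≠ []) :
    p * ‖evA a (jones D)‖ ^ 2 ≤ evC fox D (fun _ : ℕ → ZMod p => (1 : ℝ)) 0 := by
  have hB : (↑a⁻¹ : ℂ) = (starRingEnd ℂ) a := by rw [Units.val_inv_eq_inv_val, inv_eq_conj ha]
  have h1 : (a : ℂ) * ↑a⁻¹ = 1 := by simp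
  have h2 : (-(a : ℂ) ^ 2 - (↑a⁻¹ : ℂ) ^ 2) * (-(a : ℂ) ^ 2 - (↑a⁻¹ : ℂ) ^ 2) =
      Fintype.card (ZMod p) := by
    rw [ZMod.card, ← hp]
    linear_combination 2 * ((a : ℂ) * ↑a⁻¹ + 1) * h1
  have := potts (AddChar.zmodChar_primitive_of_primitive_root p hζ) h2
    (by rw [hB]; simp; ring) (A := a) (B := ↑a⁻¹) (fun s β => ⟨if β = 0 then 1 else
      -(if s then (a : ℂ) else ↑a⁻¹) ^ 4, by
      cases s <;> split_ifs <;> simp [ha], fun d => by
        rw [kk hB h1, AddChar.zmodChar_apply, hκ]⟩) hD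
  rw [← evA_mul_bracket a hD h0, norm_mul, mul_pow, sq, ← norm_mul, h2] at this
  simpa [norm_evA_jones a ha] using this

theorem fox_count (p : ℕ) [NeZero p] (hp : (2 : ZMod p) = 0) {D : List Pc} (hD : Ok 0 0 D) :
    evC fox D (fun _ : ℕ → ZMod p => (1 : ℝ)) 0 = p ^ comps [] D := by
  have e1 : (fox : Bool → ZMod p → _) = fun _ x y => (y, x) := by
    funext s x y
    cases s <;> simp only [fox, sg, Bool.false_eq_true, if_true, if_false, Prod.mk.injEq] <;>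
      constructor <;> grind
  have e2 : (fun _ : ℕ → ZMod p => (1 : ℝ)) = chi [] := by funext c; simp [chi, Chi]
  rw [e1, e2, evC_chi D [] hD, ZMod.card]

theorem node_one (a : ℂˣ) (ha : ‖(a : ℂ)‖ = 1) (h : (a : ℂ) ^ 8 + a ^ 4 + 1 = 0)
    {D : List Pc} (hD : Ok 0 0 D) (h0 : D ≠ []) : ‖evA a (jones D)‖ ≤ 1 := by
  have h1 : (a : ℂ) * ↑a⁻¹ = 1 := by simp
  have := pk 1 a ha IsPrimitiveRoot.one (by grind)
    (fun s β d => by simp [Subsingleton.elim β 0, Subsingleton.elim d 0]) hD h0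
  rw [fox_count 1 rfl hD] at this
  simpa using this

theorem node_two (a : ℂˣ) (ha : ‖(a : ℂ)‖ = 1) (h : (a : ℂ) ^ 8 + 1 = 0)
    {D : List Pc} (hD : Ok 0 0 D) (h0 : D ≠ []) :
    2 * ‖evA a (jones D)‖ ^ 2 ≤ 2 ^ comps [] D := by
  have h1 : (a : ℂ) * ↑a⁻¹ = 1 := by simp
  have h2 : (↑a⁻¹ : ℂ) ^ 4 = -a ^ 4 := by grind
  have := pk 2 a ha (IsPrimitiveRoot.neg_one 0 (by decide)) (by rw [h2]; simp)
    (fun s β d => by
      have e1 : (1 : ZMod 2) + 1 = 0 := rfl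
      have e2 : (-1 : ZMod 2) = 1 := rfl
      have e3 : (1 : ZMod 2).val = 1 := rfl
      rcases (by revert β; decide : β = 0 ∨ β = 1) with rfl | rfl <;>
        rcases (by revert d; decide : d = 0 ∨ d = 1) with rfl | rfl <;> cases s <;>
        simp [-Units.val_inv_eq_inv_val, sg, e1, e2, e3, h2]) hD h0
  rw [fox_count 2 rfl hD] at this
  simpa using this

theorem node_three (a : ℂˣ) (ha : ‖(a : ℂ)‖ = 1) (h : (a : ℂ) ^ 8 - a ^ 4 + 1 = 0)
    {D : List Pc} (hD : Ok 0 0 D) (h0 : D ≠ []) :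
    3 * ‖evA a (jones D)‖ ^ 2 ≤ evC fox D (fun _ : ℕ → ZMod 3 => (1 : ℝ)) 0 := by
  have h1 : (a : ℂ) * ↑a⁻¹ = 1 := by simp
  obtain ⟨ζ, h2⟩ : ∃ ζ, -(↑a⁻¹ : ℂ) ^ 4 = ζ := ⟨_, rfl⟩
  have h3 : -(a : ℂ) ^ 4 = ζ ^ 2 := by grind
  have h4 : ζ ^ 2 + ζ + 1 = 0 := by grind
  have h5 : IsPrimitiveRoot ζ 3 := by
    refine IsPrimitiveRoot.mk_of_lt _ (by decide) (by grind) fun l l1 l2 => ?_
    interval_cases l <;> grind
  have := pk 3 a ha h5 (by grind) (fun s β d => by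
    have : (if s then -(↑a⁻¹ : ℂ) ^ 4 else -a ^ 4) = if s then ζ else ζ ^ 2 := by rw [h2, h3]
    have : (if s then -(a : ℂ) ^ 4 else -↑a⁻¹ ^ 4) = if s then ζ ^ 2 else ζ := by rw [h2, h3]
    simp only [apply_ite fun z : ℂ => -z ^ 4, *]
    rcases (by revert β; decide : β = 0 ∨ β = 1 ∨ β = 2) with rfl | rfl | rfl <;>
      rcases (by revert d; decide : d = 0 ∨ d = 1 ∨ d = 2) with rfl | rfl | rfl <;> cases s <;>
      simp +decide only [if_true, if_false] <;>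
      first
      | (rw [show (_ : ZMod 3).val = 0 by decide]; grind)
      | (rw [show (_ : ZMod 3).val = 1 by decide]; grind)
      | (rw [show (_ : ZMod 3).val = 2 by decide]; grind)) hD h0
  simpa using this

end Pool.Agent.P.MP_833722_gt
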