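import Pool.Agent.P.MP_833722_gt.Sm

/-! The unitary height model bounds the Jones polynomial near `t = 1` on the unit circle. -/

set_option autoImplicit false

namespace Pool.Agent.P.MP_833722_gt

open Complex

theorem unit_pt {A B : ℂ} {a b δ : ℝ} (hB : B = (starRingEnd ℂ) A) (h1 : A * B = 1)
    (h2 : (δ : ℂ) = -A ^ 2 - B ^ 2) (h3 : a ^ 2 + b ^ 2 = δ) (p q : ℂ) :
    normSq (A * p + B * (a * (a * p + b * q))) + normSq (A * q + B * (b * (a * p + b * q))) =
      normSq p + normSq q := by
  have hA : (starRingEnd ℂ) B = A := by rw [hB, conj_conj]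
  have h4 : (a : ℂ) ^ 2 + b ^ 2 = δ := by exact_mod_cast h3
  apply ofReal_injective
  simp only [ofReal_add, ← mul_conj, map_add, map_mul, conj_ofReal, ← hB, hA]
  set p' := (starRingEnd ℂ) p
  set q' := (starRingEnd ℂ) q
  linear_combination (p * p' + q * q' + (a ^ 2 + b ^ 2) * (a * p + b * q) * (a * p' + b * q')) * h1
    + (a * p + b * q) * (a * p' + b * q') * (h2 + h4)

/-- squared norm -/
noncomputable def N (m : ℕ) (v : (ℕ → Bool) → ℂ) : ℝ := S m fun x => normSq (v x)

theorem N_nonneg (m : ℕ) (v : (ℕ → Bool) → ℂ) : 0 ≤ N m v := by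
  have := S_mono m (F := fun x => 0 * normSq (v x)) (G := fun x => normSq (v x))
    fun x => by simpa using normSq_nonneg _
  rwa [S_mul, zero_mul] at this

theorem N_bound (u : ℤ → Bool → ℂ) (δ : ℝ) (h0 h1 h2) (r : ℕ) (hδ : δ ≤ 2)
    (hr : ∀ h : ℤ, |h| ≤ r → ∃ a b : ℝ, u h true = a ∧ u h false = b ∧ a ^ 2 + b ^ 2 = δ)
    {A B : ℂ} (hB : B = (starRingEnd ℂ) A) (hAB : A * B = 1) (hd : (δ : ℂ) = -A ^ 2 - B ^ 2) :
    ∀ (w : List Pc) (m : ℕ) (v : (ℕ → Bool) → ℂ), Ok 0 m w → m + 2 * cups w ≤ r →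
      N 0 ((hTL u u δ h0 h1 h2).ev A B w v) ≤ 2 ^ (m + 3 * cups w) * N m v := by
  have hr' : ∀ i x, i ≤ r → ∃ a b : ℝ, u (ht i x) true = a ∧ u (ht i x) false = b ∧
      a ^ 2 + b ^ 2 = δ := fun i x hi => hr _ ((abs_ht x i).trans (by exact_mod_cast hi))
  intro w
  induction w with
  | nil => intro m v h _; simp only [Ok] at h; simp [h, TL.ev, cups]
  | cons p w ih =>
    intro m v h hm
    cases p with
    | cup i d =>
      simp only [cups] at hm ⊢
      refine (ih (m + 2) _ h.2 (by omega)).trans ?_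
      have : N (m + 2) (hcup u i v) ≤ 2 * N m v := by
        rw [N, S_ins2 m i _ h.1, N, ← S_mul]
        refine S_mono m fun x => ?_
        obtain ⟨a, b, ha, hb, hab⟩ := hr' i x (by have := h.1; omega)
        simp only [hcup_apply, ins2_self, ins2_succ, del2_ins2, ht_ins2_le le_rfl]
        simp [ha, hb]
        nlinarith [normSq_nonneg (v x)]
      rw [show m + 3 * (cups w + 1) = m + 2 + 3 * cups w + 1 by ring, pow_succ, mul_assoc]
      exact mul_le_mul_of_nonneg_left this (by positivity)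
    | cap i =>
      simp only [cups] at hm ⊢
      obtain ⟨m, rfl⟩ : ∃ k, m = k + 2 := ⟨m - 2, by have := h.1; omega⟩
      refine (ih m _ h.2 (by omega)).trans ?_
      have : N m (hcap u i v) ≤ 2 * N (m + 2) v := by
        rw [N, N, S_ins2 m i _ (by have := h.1; omega), ← S_mul]
        refine S_mono m fun x => ?_
        obtain ⟨a, b, ha, hb, hab⟩ := hr' i x (by have := h.1; omega)
        simp only [hcap_apply, Fintype.sum_bool, ha, hb, Bool.not_true, Bool.not_false]
        have e1 := normSq_nonneg (v (ins2 i true true x))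
        have e2 := normSq_nonneg (v (ins2 i false false x))
        generalize v (ins2 i true false x) = p at *
        generalize v (ins2 i false true x) = q at *
        have e3 : normSq (a * p + b * q) ≤ δ * (normSq p + normSq q) := by
          simp only [normSq_apply, add_re, mul_re, ofReal_re, ofReal_im, add_im, mul_im, ← hab]
          nlinarith [sq_nonneg (a * q.re - b * p.re), sq_nonneg (a * q.im - b * p.im)]
        nlinarith [normSq_nonneg p, normSq_nonneg q]
      calc _ ≤ 2 ^ (m + 3 * cups w) * (2 * N (m + 2) v) :=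
            mul_le_mul_of_nonneg_left this (by positivity)
        _ ≤ _ := by
          rw [← mul_assoc, ← pow_succ]
          exact mul_le_mul_of_nonneg_right (pow_le_pow_right₀ one_le_two (by omega))
            (N_nonneg _ _)
    | cr i s =>
      simp only [cups] at hm ⊢
      refine (ih m _ h.2 hm).trans (le_of_eq ?_)
      congr 1
      obtain ⟨m, rfl⟩ : ∃ k, m = k + 2 := ⟨m - 2, by have := h.1; omega⟩
      rw [N, N, S_ins2 m i _ (by have := h.1; omega), S_ins2 m i _ (by have := h.1; omega)]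
      congr 1
      funext x
      obtain ⟨a, b, ha, hb, hab⟩ := hr' i x (by have := h.1; omega)
      have hA : A = (starRingEnd ℂ) B := by rw [hB, conj_conj]
      have n1 : normSq A = 1 := by
        apply ofReal_injective; rw [← mul_conj, ← hB, hAB]; simp
      have n2 : normSq B = 1 := by rw [hB, normSq_conj, n1]
      simp only [TL.X, hTL, Pi.add_apply, Pi.smul_apply, smul_eq_mul, hcup_apply, hcap_apply,
        ins2_self, ins2_succ, del2_ins2, ht_ins2_le le_rfl, Fintype.sum_bool, ha, hb,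
        Bool.not_true, Bool.not_false, Bool.true_eq_false, Bool.false_eq_true, if_true, if_false,
        mul_zero, add_zero, map_mul]
      cases s
      · have := unit_pt hA (by rw [mul_comm, hAB]) (by rw [hd]; ring) hab
          (v (ins2 i true false x)) (v (ins2 i false true x))
        simp only [Bool.false_eq_true, if_false, n2]
        linarith
      · have := unit_pt hB hAB hd hab (v (ins2 i true false x)) (v (ins2 i false true x))
        simp only [if_true, n1]
        linarith

theorem U_bound (r : ℕ) {A B : ℂ} (hB : B = (starRingEnd ℂ) A) (hAB : A * B = 1)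
    (hd : ((2 * Real.cos (Real.pi / (2 * (r + 1) + 1)) : ℝ) : ℂ) = -A ^ 2 - B ^ 2)
    {D : List Pc} (h : Ok 0 0 D) (hD : 2 * cups D ≤ r) :
    normSq (U A B (-A ^ 2 - B ^ 2) [] D) ≤ 2 ^ (3 * cups D) := by
  set θ := Real.pi / (2 * (r + 1) + 1) with hθ
  have hp : (0 : ℝ) < 2 * (r + 1) + 1 := by positivity
  let g : ℤ → ℂ := fun h => (Real.cos (h * θ) : ℂ) ^ (2⁻¹ : ℂ)
  have g2 : ∀ h, g h ^ 2 = Real.cos (h * θ) := fun h => cpow_ofNat_inv_pow _ 2
  have c0 : ∀ h : ℤ, Real.cos (h * θ) ≠ 0 := fun h e => by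
    obtain ⟨k, hk⟩ := Real.cos_eq_zero_iff.1 e
    rw [hθ] at hk
    field_simp at hk
    have : h * 2 = (2 * (r + 1) + 1) * (2 * k + 1) := by exact_mod_cast hk
    have := congrArg (· % 2) this
    simp [Int.mul_emod, Int.add_emod] at this
  have g0 : ∀ h, g h ≠ 0 := fun h e => c0 h (by
    have := g2 h
    rw [e, zero_pow two_ne_zero] at this
    exact_mod_cast this.symm)
  have h0 : ∀ h : ℤ, ∑ b, g (h + st b) / g h * (g (h + st b) / g h) =
      ((2 * Real.cos θ : ℝ) : ℂ) := fun h => by
    have e1 : (Real.cos (h * θ) : ℂ) ≠ 0 := by exact_mod_cast c0 h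
    simp only [Fintype.sum_bool, ← sq, div_pow, g2, st, if_true, Bool.false_eq_true, if_false]
    rw [← add_div, div_eq_iff e1]
    norm_cast
    push_cast
    rw [add_mul, add_mul, Real.cos_add, Real.cos_add]
    simp
    ring
  have h1 : ∀ (h : ℤ) b, g (h + st b + st (!b)) / g (h + st b) * (g (h + st b) / g h) = 1 :=
    fun h b => by
      rw [show h + st b + st (!b) = h by cases b <;> simp [st]]
      field_simp [g0]
  have gr : ∀ h : ℤ, |h| ≤ r + 1 → ∃ a : ℝ, g h = a := fun h hh => by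
    have e1 : |(h : ℝ)| ≤ r + 1 := by exact_mod_cast hh
    have e2 : |h * θ| ≤ Real.pi / 2 := by
      rw [abs_mul, abs_of_nonneg (by positivity : 0 ≤ θ), hθ, ← mul_div_assoc,
        div_le_div_iff₀ hp two_pos]
      nlinarith [Real.pi_pos]
    refine ⟨Real.cos (h * θ) ^ (2⁻¹ : ℝ), ?_⟩
    rw [ofReal_cpow (Real.cos_nonneg_of_mem_Icc (abs_le.1 e2))]
    simp [g]
  have := N_bound (fun h b => g (h + st b) / g h) (2 * Real.cos θ) h0 h1
    (fun h b => by rw [mul_comm]; exact h1 h b) r (by linarith [Real.cos_le_one θ])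
    (fun h hh => by
      have e := abs_le.1 hh
      obtain ⟨a, ha⟩ := gr (h + st true) (by rw [abs_le]; simp [st]; omega)
      obtain ⟨b, hb⟩ := gr (h + st false) (by rw [abs_le]; simp [st]; omega)
      obtain ⟨c, hc⟩ := gr h (by omega)
      refine ⟨a / c, b / c, by simp [ha, hc], by simp [hb, hc], ?_⟩
      have := h0 h
      simp only [Fintype.sum_bool, ha, hb, hc, ← sq] at this
      exact_mod_cast this) hB hAB hd D 0 (fun _ => 1) h (by omega)
  rw [TL.ev_nil _ _ _ h, hd] at this
  simpa [N, S] using this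

theorem exists_nodes (b : ℕ) : ∃ a : ℕ → ℂˣ, (fun j => (a j : ℂ)).Injective ∧
    ∀ j, ‖(a j : ℂ)‖ = 1 ∧ ∀ D, Valid [] D → cups D ≤ b → ‖evA (a j) (jones D)‖ ≤ 2 ^ (3 * b) := by
  let θ : ℕ → ℝ := fun j => Real.pi / (2 * ((2 * b + j : ℕ) + 1) + 1)
  have hθ : ∀ j, 0 < θ j ∧ θ j ≤ Real.pi / 3 := fun j => ⟨by positivity, by
    refine div_le_div_of_nonneg_left Real.pi_pos.le (by norm_num) ?_
    have : (0 : ℝ) ≤ (2 * b + j : ℕ) := by positivity
    linarith⟩
  refine ⟨fun j => Units.mk0 (I * exp ((θ j / 2 : ℝ) * I)) (by simp), fun j k e => ?_,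
    fun j => ⟨by simp only [Units.val_mk0, norm_mul, norm_I, norm_exp_ofReal_mul_I, mul_one],
      fun D hD hb => ?_⟩⟩
  · have e1 := congrArg im e
    simp only [Units.val_mk0, mul_im, I_re, zero_mul, I_im, one_mul, zero_add,
      exp_ofReal_mul_I_re] at e1
    have e2 := Real.injOn_cos ⟨by linarith [hθ j], by linarith [hθ j]⟩
      ⟨by linarith [hθ k], by linarith [hθ k]⟩ e1
    have e3 : θ j = θ k := by linarith
    simp only [θ] at e3
    field_simp at e3
    have e4 : ((2 * b + j : ℕ) : ℝ) = (2 * b + k : ℕ) := by linarith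
    have := Nat.cast_injective e4
    omega
  · set a : ℂˣ := Units.mk0 (I * exp ((θ j / 2 : ℝ) * I)) (by simp) with ha
    have n1 : ‖(a : ℂ)‖ = 1 := by
      simp only [ha, Units.val_mk0, norm_mul, norm_I, norm_exp_ofReal_mul_I, mul_one]
    rw [norm_evA_jones a n1]
    by_cases h0 : D = []
    · subst h0
      simpa [bracket, states, comps] using one_le_pow₀ (one_le_two (α := ℝ))
    have e1 : (a : ℂ) ^ 2 = -exp (θ j * I) := by
      simp only [ha, Units.val_mk0, mul_pow, I_sq, ← exp_nat_mul]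
      push_cast
      ring_nf
    have hd : ((2 * Real.cos (θ j) : ℝ) : ℂ) = -(a : ℂ) ^ 2 - (↑a⁻¹ : ℂ) ^ 2 := by
      rw [Units.val_inv_eq_inv_val, inv_pow, e1, inv_neg, ← exp_neg]
      push_cast
      rw [two_cos]
      ring_nf
    have e2 := U_bound (2 * b + j) (A := a) (B := ↑a⁻¹)
      (by rw [Units.val_inv_eq_inv_val, inv_eq_conj n1]) (by simp) hd hD.ok (by omega)
    rw [← evA_mul_bracket a hD.ok h0, ← hd, normSq_eq_norm_sq, norm_mul, norm_real] at e2
    have e3 : 1 ≤ 2 * Real.cos (θ j) := by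
      have := Real.cos_le_cos_of_nonneg_of_le_pi (hθ j).1.le (by linarith [Real.pi_pos]) (hθ j).2
      rw [Real.cos_pi_div_three] at this
      linarith
    have e4 : (2 : ℝ) ^ (3 * cups D) ≤ 2 ^ (3 * b) := pow_le_pow_right₀ one_le_two (by omega)
    have e5 : (1 : ℝ) ≤ 2 ^ (3 * b) := one_le_pow₀ one_le_two
    rw [Real.norm_of_nonneg (by linarith)] at e2
    have e6 := norm_nonneg (evA a (bracket D))
    by_contra e7
    have e8 : 2 ^ (3 * b) < 2 * Real.cos (θ j) * ‖evA a (bracket D)‖ := by nlinarith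
    nlinarith

end Pool.Agent.P.MP_833722_gt
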