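import Pool.Agent.P.MP_833722_gt.Span
import Pool.Agent.P.MP_833722_gt.Uni
import Pool.Agent.P.MP_833722_gt.Der
import Pool.Agent.P.MP_833722_gt.Pk
import Pool.Agent.P.MP_833722_gt.Det

/-! Coefficient bounds. -/

set_option autoImplicit false

namespace Pool.Agent.P.MP_833722_gt

open LaurentPolynomial Complex

theorem bridge_bound (b n : ℕ) : ∃ K : ℝ, ∀ D, Valid [] D → cups D ≤ b → SpanLe (jones D) n →
    ∀ k, |((jones D).coeff k : ℝ)| ≤ K := by
  classical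
  obtain ⟨a, h1, h2⟩ := exists_nodes b
  obtain ⟨K, -, hK⟩ := coef_bound ((Finset.range (4 * n + 1)).image a)
    (fun x hx => by obtain ⟨j, -, rfl⟩ := Finset.mem_image.1 hx; exact (h2 j).1) (4 * n) (by
      rw [Finset.card_image_of_injective _ fun i j e => h1 (congrArg Units.val e)]; simp)
  refine ⟨K * (2 ^ (3 * b) + (4 * n + 1) * 0) + 0, fun D hD hb hn => ?_⟩
  obtain ⟨m, hm⟩ := hn.window
  refine hK _ n m 0 (2 ^ (3 * b)) hn le_rfl (by positivity) (fun k hk => ?_) fun x hx => ?_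
  · have : (jones D).coeff k = 0 := by
      by_contra e
      have := Finset.mem_Icc.1 (hm k e)
      omega
    simp [this]
  · obtain ⟨j, -, rfl⟩ := Finset.mem_image.1 hx
    exact (h2 j).2 D hD hb

theorem node_neg {D : List Pc} (h : Valid [] D) (h0 : D ≠ []) :
    2 * ‖evA (-1 : ℂˣ) (jones D)‖ ≤ 2 ^ comps [] D := by
  have h1 := evA_mul_bracket (-1 : ℂˣ) h.ok h0
  have h2 := congrFun (ev_chi (R := ℂ) (l := []) h rfl 1) fun _ => true
  have h3 : ∀ (w : List Pc) (o : List Bool), |eta o w| = 1 := by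
    intro w
    induction w with
    | nil => simp [eta]
    | cons p w ih => intro o; cases p <;> simp only [eta] <;> (try split_ifs) <;> simp [ih]
  rw [TL.ev_nil _ _ _ h.ok] at h2
  simp only [inv_neg, inv_one, Units.val_neg, Units.val_one, even_two, Even.neg_pow, one_pow,
    show (-1 : ℂ) - 1 = -2 by norm_num] at h1
  rw [← h1] at h2
  have h4 := congrArg norm h2
  rw [norm_evA_jones _ (by simp)]
  simp [Ph, chi, Chi, ← Int.cast_abs, h3] at h4
  exact h4.le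

theorem node_det (a : ℂˣ) (ha : ‖(a : ℂ)‖ = 1) (h4 : (a : ℂ) ^ 4 = -1) {D : List Pc}
    (h : Ok 0 0 D) (h0 : D ≠ []) : ∃ d : ℕ, (∀ b : ℂˣ, (b : ℂ) ^ 4 = -1 →
      ‖evA b (jones D)‖ = d) ∧ (evA (1 : (ZMod 2)ˣ) (jones D) ≠ 0 → d ≠ 0) ∧
      (d ≠ 0 → evC fox D (fun _ : ℕ → ZMod 3 => (1 : ℝ)) 0 ≤ 3 * ‖evA a (jones D)‖) := by
  obtain ⟨D, rfl, hD⟩ := ok_last D 0 h h0
  have n1 : ∀ c : ℂ, c ^ 8 = 1 → ‖c‖ = 1 := fun c hc =>
    norm_eq_one_of_pow_eq_one hc (by norm_num)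
  by_cases hl : ((dat D 0 [] 0).1 1 :: (dat D 0 [] 0).2 : List (Fin (cups D) → ℤ)).length = cups D
  · obtain ⟨M, hM⟩ : ∃ M : Matrix (Fin (cups D)) (Fin (cups D)) ℤ,
        (dat D 0 [] 0).1 1 :: (dat D 0 [] 0).2 = List.ofFn M :=
      ⟨_, (List.ofFn_get _).symm.trans (List.ofFn_congr hl _)⟩
    have h1 : ∀ b : ℂˣ, (b : ℂ) ^ 4 = -1 →
        ‖evA b (jones (D ++ [.cap 0]))‖ = M.det.natAbs := fun b hb => by
      obtain ⟨c, h1, h2⟩ := bracket_det b hb hD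
      rw [norm_evA_jones b (n1 b (by grind)), h2, hM, ta_ofFn]
      simp [n1 c h1]
    refine ⟨_, h1, fun h2 h3 => h2 ?_, fun h2 => ?_⟩
    · obtain ⟨c, -, h5⟩ := bracket_det (1 : (ZMod 2)ˣ) (by decide) hD
      rw [evA_jones, h5, hM, ta_ofFn, Int.natAbs_eq_zero.1 h3]
      simp
    · rw [h1 a h4]
      exact fox_det hD M hM (Int.natAbs_ne_zero.1 h2)
  · refine ⟨0, fun b hb => ?_, fun h2 _ => h2 ?_, fun h2 => absurd rfl h2⟩
    · obtain ⟨c, h1, h2⟩ := bracket_det b hb hD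
      rw [evA_jones, h2, ta_ne hl]
      simp
    · obtain ⟨c, -, h5⟩ := bracket_det (1 : (ZMod 2)ˣ) (by decide) hD
      rw [evA_jones, h5, ta_ne hl]
      simp

theorem map_evA {R S : Type} [CommRing R] [CommRing S] (φ : R →+* S) (a : Rˣ) (f : ℤ[T;T⁻¹]) :
    φ (evA a f) = evA (Units.map φ.toMonoidHom a) f := by
  rw [evA_eq_sum a f fun k hk => Finsupp.mem_support_iff.2 hk,
    evA_eq_sum _ f fun k hk => Finsupp.mem_support_iff.2 hk, map_sum]
  refine Finset.sum_congr rfl fun k _ => ?_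
  rw [map_mul, map_intCast, ← map_zpow]
  rfl

theorem knot_odd {D : List Pc} (h : Valid [] D) (hc : comps [] D = 1) :
    evA (1 : (ZMod 2)ˣ) (jones D) ≠ 0 := by
  have h1 := jones_knot (R := ℚ) (e := 0) (mul_zero _) (a := 1) (by simp) h hc
  have h2 := map_evA (Int.castRingHom ℚ) (-1) (jones D)
  have h3 := map_evA (Int.castRingHom (ZMod 2)) (-1) (jones D)
  rw [show Units.map (Int.castRingHom ℚ).toMonoidHom (-1) = -1 by ext; simp, h1] at h2
  rw [show Units.map (Int.castRingHom (ZMod 2)).toMonoidHom (-1) = 1 by decide,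
    show evA (-1 : ℤˣ) (jones D) = 1 by simpa using h2] at h3
  rw [← h3]
  simp

/-- a primitive 48th root of unity -/
noncomputable def xi : ℂˣ := Units.mk0 (exp (2 * Real.pi * I / (48 : ℕ))) (exp_ne_zero _)

theorem xi_prim : IsPrimitiveRoot (xi : ℂ) 48 := isPrimitiveRoot_exp 48 (by norm_num)

theorem xi_norm (j : ℕ) : ‖((xi ^ j : ℂˣ) : ℂ)‖ = 1 := by
  simp [xi_prim.norm'_eq_one (by norm_num)]

theorem xi_24 : (xi : ℂ) ^ 24 = -1 :=
  (xi_prim.pow (by norm_num) (show 48 = 24 * 2 from rfl)).eq_neg_one_of_two_right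

theorem xi_eq : (xi : ℂ) ^ 16 - xi ^ 8 + 1 = 0 := by
  have h1 : (xi : ℂ) ^ 8 + 1 ≠ 0 := fun e =>
    xi_prim.pow_ne_one_of_pos_of_lt (l := 16) (by norm_num) (by norm_num) (by grind)
  exact (mul_eq_zero.1 (by linear_combination xi_24)).resolve_left h1

theorem xi_four (j : ℕ) : ((xi ^ j : ℂˣ) : ℂ) ^ 4 = (xi ^ 4) ^ (j % 12) := by
  rw [← pow_eq_pow_mod j (by rw [← pow_mul]; exact xi_prim.pow_eq_one),
    Units.val_pow_eq_pow_val, pow_right_comm]

theorem xi_bound (t : Finset ℕ) (ht : t ⊆ Finset.range 48) (L : ℕ) (hL : L < t.card) :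
    ∃ K : ℝ, 0 ≤ K ∧ ∀ (f : ℤ[T;T⁻¹]) (n : ℕ) (m : ℤ) (B Y : ℝ), SpanLe f n → 0 ≤ B → 0 ≤ Y →
      (∀ k, k < m ∨ m + L < k → |(f.coeff k : ℝ)| ≤ B) → (∀ j ∈ t, ‖evA (xi ^ j) f‖ ≤ Y) →
      ∀ k, |(f.coeff k : ℝ)| ≤ K * (Y + (4 * n + 1) * B) + B := by
  classical
  obtain ⟨K, h1, hK⟩ := coef_bound (t.image (xi ^ ·))
    (fun x hx => by obtain ⟨j, -, rfl⟩ := Finset.mem_image.1 hx; exact xi_norm j) L (by
      rwa [Finset.card_image_of_injOn fun i hi j hj e => xi_prim.pow_inj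
        (Finset.mem_range.1 (ht hi)) (Finset.mem_range.1 (ht hj))
        (by simpa using congrArg Units.val e)])
  exact ⟨K, h1, fun f n m B Y h2 h3 h4 h5 h6 => hK f n m B Y h2 h3 h4 h5 fun x hx => by
    obtain ⟨j, hj, rfl⟩ := Finset.mem_image.1 hx
    exact h6 j hj⟩

theorem xi_small {D : List Pc} (h : Valid [] D) (h0 : D ≠ []) {n : ℕ} (hn : SpanLe (jones D) n)
    {j : ℕ} (hj : j = 24 ∨ j % 12 = 3 ∨ j % 12 = 9 ∨ j % 12 = 4 ∨ j % 12 = 8) :
    ‖evA (xi ^ j) (jones D)‖ ≤ 2 ^ (n + 1) := by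
  have h1 : (2 : ℝ) ^ comps [] D ≤ 2 ^ (n + 1) :=
    pow_le_pow_right₀ one_le_two (comps_le_span h.ok hn)
  have h2 : (1 : ℝ) ≤ 2 ^ (n + 1) := one_le_pow₀ one_le_two
  have h3 := norm_nonneg (evA (xi ^ j) (jones D))
  have h4 := xi_four j
  have h5 := xi_eq
  have e : ∀ z : ℂ, z ^ 8 = (z ^ 4) ^ 2 := fun z => by ring
  rcases hj with rfl | hj | hj | hj | hj
  · have := node_neg h h0
    rw [show xi ^ 24 = -1 from Units.ext xi_24] at h3 ⊢
    linarith
  · have := node_two _ (xi_norm j) (by rw [e, h4, hj]; grind) h.ok h0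
    nlinarith
  · have := node_two _ (xi_norm j) (by rw [e, h4, hj]; grind) h.ok h0
    nlinarith
  · exact (node_one _ (xi_norm j) (by rw [e, h4, hj]; grind) h.ok h0).trans h2
  · exact (node_one _ (xi_norm j) (by rw [e, h4, hj]; grind) h.ok h0).trans h2

theorem window_bound (n B : ℕ) : ∃ K : ℝ, ∀ D, Valid [] D → SpanLe (jones D) n → ∀ m : ℤ,
    ((∀ k, k < m ∨ m + 20 < k → |(jones D).coeff k| ≤ B) ∨
      (comps [] D = 1 ∨ ∃ a : ℂˣ, (a : ℂ) ^ 4 = -1 ∧ evA a (jones D) ≠ 0) ∧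
        ∀ k, k < m ∨ m + 24 < k → |(jones D).coeff k| ≤ B) →
    ∀ k, |((jones D).coeff k : ℝ)| ≤ K := by
  obtain ⟨K, p1, q1⟩ := xi_bound ((Finset.range 48).filter fun j => (j = 24 ∨ j % 12 = 3 ∨
    j % 12 = 9 ∨ j % 12 = 4 ∨ j % 12 = 8) ∨ j % 12 = 6) (Finset.filter_subset _ _) 20 (by decide)
  obtain ⟨K', p2, q2⟩ := xi_bound ((Finset.range 48).filter fun j => (j = 24 ∨ j % 12 = 3 ∨
    j % 12 = 9 ∨ j % 12 = 4 ∨ j % 12 = 8) ∨ j % 12 = 2 ∨ j % 12 = 10) (Finset.filter_subset _ _)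
    24 (by decide)
  set α : ℝ := K' * (2 ^ (n + 1) + (4 * n + 1) * B) + B with hα
  have a0 : 0 ≤ α := by positivity
  refine ⟨1 + (K * (2 ^ (n + 1) + (4 * n + 1) * B) + B) + (α + K' * (1 + (4 * n + 1) * (α + K'))),
    fun D hD hn m hm k => ?_⟩
  have t1 : 0 ≤ K * (2 ^ (n + 1) + (4 * n + 1) * B) + B := by positivity
  have t2 : 0 ≤ α + K' * (1 + (4 * n + 1) * (α + K')) := by positivity
  by_cases h0 : D = []
  · subst h0
    have : |((jones []).coeff k : ℝ)| ≤ 1 := by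
      have e : jones [] = T 0 := by simp [jones, bracket, states, writhe, comps]
      rw [e, T_apply]
      split_ifs <;> simp
    linarith
  have h6 : ((xi ^ 6 : ℂˣ) : ℂ) ^ 4 = -1 := by rw [← xi_24, Units.val_pow_eq_pow_val, ← pow_mul]
  obtain ⟨d, d1, d2, d3⟩ := node_det (xi ^ 6) (xi_norm 6) h6 hD.ok h0
  by_cases hd : d = 0
  · rcases hm with hm | ⟨hm | ⟨a, h1, h2⟩, -⟩
    · have := q1 _ n m B (2 ^ (n + 1)) hn (by positivity) (by positivity)
        (fun k hk => by exact_mod_cast hm k hk) (fun j hj => by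
          rcases (Finset.mem_filter.1 hj).2 with hj | hj
          · exact xi_small hD h0 hn hj
          · rw [d1 _ (by rw [xi_four, hj, ← pow_mul, xi_24]), hd, Nat.cast_zero]
            positivity) k
      linarith
    · exact absurd hd (d2 (knot_odd hD hm))
    · exact absurd (by simpa [hd] using d1 a h1) h2
  have hm' : ∀ k, k < m ∨ m + (24 : ℕ) < k → |((jones D).coeff k : ℝ)| ≤ B := fun k hk => by
    rcases hm with hm | hm
    · exact_mod_cast hm k (by omega)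
    · exact_mod_cast hm.2 k hk
  set y := √‖evA (xi ^ 6) (jones D)‖
  have y0 : 0 ≤ y := Real.sqrt_nonneg _
  have h1 : ∀ k, |((jones D).coeff k : ℝ)| ≤ α + K' * y := fun k => by
    have := q2 _ n m B (2 ^ (n + 1) + y) hn (by positivity) (by positivity) hm' (fun j hj => by
      have h4 := xi_four j
      have h5 := xi_eq
      have e : ∀ z : ℂ, z ^ 8 = (z ^ 4) ^ 2 := fun z => by ring
      have h7 : (xi ^ j).val ^ 8 - (xi ^ j).val ^ 4 + 1 = 0 →
          ‖evA (xi ^ j) (jones D)‖ ≤ 2 ^ (n + 1) + y := fun h => le_add_of_nonneg_of_le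
        (by positivity) (Real.le_sqrt_of_sq_le (by
          linarith [node_three _ (xi_norm j) h hD.ok h0, d3 hd]))
      rcases (Finset.mem_filter.1 hj).2 with hj | hj | hj
      · exact le_add_of_le_of_nonneg (xi_small hD h0 hn hj) y0
      · exact h7 (by rw [e, h4, hj]; grind)
      · exact h7 (by rw [e, h4, hj]; grind)) k
    linarith
  have h2 := norm_evA_le hn _ (xi_norm 6) h1
  rw [← Real.sq_sqrt (norm_nonneg (evA (xi ^ 6) (jones D)))] at h2
  have h3 : y ≤ 1 + (4 * n + 1) * (α + K') := by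
    by_contra h3
    have n0 : (0 : ℝ) ≤ 4 * n + 1 := by positivity
    have h4 : 1 ≤ y := by nlinarith [mul_nonneg n0 (add_nonneg a0 p2)]
    nlinarith [mul_nonneg (mul_nonneg n0 a0) (sub_nonneg.2 h4)]
  linarith [h1 k, mul_le_mul_of_nonneg_left h3 p2]

theorem fin_all (n : ℕ) (K : ℝ) : ∃ F : Set ℤ[T;T⁻¹], F.Finite ∧ ∀ D, Valid [] D →
    SpanLe (jones D) n → (∀ k, |((jones D).coeff k : ℝ)| ≤ K) →
    ∃ k : ℤ, ∃ f ∈ F, jones D = T k * f ∧ (comps [] D = 1 → k = 0) := by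
  obtain ⟨F, h1, h2⟩ := fin_units n K
  refine ⟨_, h1.union (fin_knots n K), fun D hD hn hK => ?_⟩
  by_cases hc : comps [] D = 1
  · exact ⟨0, _, Or.inr ⟨⟨D, hD, hc, rfl⟩, hn, hK⟩, by simp, fun _ => rfl⟩
  · obtain ⟨k, f, hf, e⟩ := h2 _ hn hK
    exact ⟨k, f, Or.inl hf, e, fun h => absurd h hc⟩

end Pool.Agent.P.MP_833722_gt
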