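import Pool.Agent.P.MP_833722_gt.Col

/-! The Potts model and its domination by Fox colourings. -/

set_option autoImplicit false

namespace Pool.Agent.P.MP_833722_gt

open Complex

theorem ins2_del2_apply {α : Type} (i : ℕ) (a b : α) (x : ℕ → α) (k : ℕ) :
    ins2 i a b (del2 i x) k = if k = i then a else if k = i + 1 then b else x k := by
  (simp only [ins1, del1, ins2, del2]; split_ifs <;> first | rfl | (exfalso; omega) | (congr 1; omega))

section

variable {G : Type} [CommRing G] [Fintype G] [DecidableEq G] (δ : ℂ)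

/-- cup of the Potts model -/
noncomputable def pcup (i : ℕ) : ((ℕ → G) → ℂ) →ₗ[ℂ] ((ℕ → G) → ℂ) where
  toFun v x := if i % 2 = 0 then v (del1 (i / 2) x) else
    if x (i / 2) = x (i / 2 + 1) then δ * v (del1 (i / 2 + 1) x) else 0
  map_add' v w := by funext x; simp only [Pi.add_apply]; split_ifs <;> ring
  map_smul' c v := by
    funext x; simp only [Pi.smul_apply, smul_eq_mul, RingHom.id_apply]; split_ifs <;> ring

/-- cap of the Potts model -/
noncomputable def pcap (i : ℕ) : ((ℕ → G) → ℂ) →ₗ[ℂ] ((ℕ → G) → ℂ) where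
  toFun v x := if i % 2 = 0 then δ⁻¹ * ∑ a, v (ins1 (i / 2) a x) else
    v (ins1 (i / 2 + 1) (x (i / 2)) x)
  map_add' v w := by
    funext x; simp only [Pi.add_apply, Finset.sum_add_distrib]; split_ifs <;> ring
  map_smul' c v := by
    funext x; simp only [Pi.smul_apply, smul_eq_mul, RingHom.id_apply, ← Finset.mul_sum]
    split_ifs <;> ring

theorem pcup_even (j : ℕ) (v : (ℕ → G) → ℂ) (x : ℕ → G) : pcup δ (2 * j) v x = v (del1 j x) := by
  simp [pcup]

theorem pcup_odd (j : ℕ) (v : (ℕ → G) → ℂ) (x : ℕ → G) : pcup δ (2 * j + 1) v x =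
    if x j = x (j + 1) then δ * v (del1 (j + 1) x) else 0 := by
  simp [pcup, show (2 * j + 1) / 2 = j by omega]

theorem pcap_even (j : ℕ) (v : (ℕ → G) → ℂ) (x : ℕ → G) :
    pcap δ (2 * j) v x = δ⁻¹ * ∑ a, v (ins1 j a x) := by
  simp [pcap]

theorem pcap_odd (j : ℕ) (v : (ℕ → G) → ℂ) (x : ℕ → G) :
    pcap δ (2 * j + 1) v x = v (ins1 (j + 1) (x j) x) := by
  simp [pcap, show (2 * j + 1) / 2 = j by omega]

/-- the Potts model -/
noncomputable def pTL (h : δ * δ = Fintype.card G) : TL ℂ ((ℕ → G) → ℂ) δ :=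
  have h0 : δ ≠ 0 := fun e => by simp [e, eq_comm] at h
  { cup := pcup δ
    cap := pcap δ
    loop i v := by
      funext x
      rcases Nat.even_or_odd' i with ⟨j, rfl | rfl⟩
      · simp [pcap_even, pcup_even, ← h, h0, mul_assoc]
      · simp [pcap_odd, pcup_odd, ins1_lt]
    z1 i v := by
      funext x
      rcases Nat.even_or_odd' i with ⟨j, rfl | rfl⟩
      · rw [pcap_odd, pcup_even]
        congr 1; funext k; (simp only [ins1, del1, ins2, del2]; split_ifs <;> first | rfl | (exfalso; omega) | (congr 1; omega))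
      · simp [show 2 * j + 1 + 1 = 2 * (j + 1) from rfl, pcap_even, pcup_odd, ins1_lt, h0]
    z2 i v := by
      funext x
      rcases Nat.even_or_odd' i with ⟨j, rfl | rfl⟩
      · have e : del1 (j + 1) (ins1 j (x j) x) = x := by funext k; (simp only [ins1, del1, ins2, del2]; split_ifs <;> first | rfl | (exfalso; omega) | (congr 1; omega))
        simp [pcap_even, pcup_odd, ins1_ge, h0, e]
      · simp [show 2 * j + 1 + 1 = 2 * (j + 1) from rfl, pcap_odd, pcup_even]
    c1 i j v hij := by
      funext x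
      have e : ∀ a b t, a ≤ b → del1 (b + 1) (ins1 a t x) = ins1 a t (del1 b x) :=
        fun a b t _ => by funext k; (simp only [ins1, del1, ins2, del2]; split_ifs <;> first | rfl | (exfalso; omega) | (congr 1; omega))
      rcases Nat.even_or_odd' i with ⟨a, rfl | rfl⟩ <;>
        rcases Nat.even_or_odd' j with ⟨b, rfl | rfl⟩ <;>
        simp only [show 2 * b + 2 = 2 * (b + 1) from rfl,
          show 2 * b + 1 + 2 = 2 * (b + 1) + 1 from rfl, pcap_odd, pcup_even, pcap_even, pcup_odd]
      · simp only [e a b _ (by omega)]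
      · simp only [e a (b + 1) _ (by omega), ins1_ge (show a ≤ b by omega),
          ins1_ge (show a ≤ b + 1 by omega)]
        split_ifs
        · rw [← Finset.mul_sum, mul_left_comm]
        · simp
      · rw [e _ _ _ (by omega), del1_lt (by omega)]
      · rw [e _ _ _ (by omega), del1_lt (by omega), ins1_ge (k := b + 1) (by omega),
          show ins1 (a + 1) (x a) x (b + 1) = x b by (simp only [ins1, del1, ins2, del2]; split_ifs <;> first | rfl | (exfalso; omega) | (congr 1; omega))]
    c2 i j v hij := by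
      funext x
      have e : ∀ a b t, b ≤ a → del1 b (ins1 (a + 1) t x) = ins1 a t (del1 b x) :=
        fun a b t _ => by funext k; (simp only [ins1, del1, ins2, del2]; split_ifs <;> first | rfl | (exfalso; omega) | (congr 1; omega))
      rcases Nat.even_or_odd' i with ⟨a, rfl | rfl⟩ <;>
        rcases Nat.even_or_odd' j with ⟨b, rfl | rfl⟩ <;>
        simp only [show 2 * a + 2 = 2 * (a + 1) from rfl,
          show 2 * a + 1 + 2 = 2 * (a + 1) + 1 from rfl, pcap_odd, pcup_even, pcap_even, pcup_odd]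
      · simp only [e a b _ (by omega)]
      · simp only [e a (b + 1) _ (by omega), ins1_lt (show b < a + 1 by omega),
          ins1_lt (show b + 1 < a + 1 by omega)]
        split_ifs
        · rw [← Finset.mul_sum, mul_left_comm]
        · simp
      · rw [e _ _ _ (by omega), del1_ge (by omega)]
      · rw [e _ _ _ (by omega), ins1_lt (by omega), ins1_lt (by omega)]
        split_ifs with h1
        · rcases eq_or_ne a b with rfl | h2
          · rw [del1_lt (by omega), h1]
          · rw [del1_ge (by omega)]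
        · rfl }

/-- pairing -/
def dot (k : ℕ) (μ x : ℕ → G) : G := ∑ j ∈ Finset.range k, μ j * x j

theorem dot_ins1 {j k : ℕ} (h : j ≤ k) (μ x : ℕ → G) (a : G) :
    dot (k + 1) μ (ins1 j a x) = a * μ j + dot k (del1 j μ) x := by
  induction k, h using Nat.le_induction with
  | base =>
    rw [dot, Finset.sum_range_succ, ins1_self, add_comm, mul_comm]
    congr 1
    exact Finset.sum_congr rfl fun k hk => by
      rw [ins1_lt (Finset.mem_range.1 hk), del1_lt (Finset.mem_range.1 hk)]
  | succ k h ih =>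
    unfold dot at ih ⊢
    rw [Finset.sum_range_succ, ih, Finset.sum_range_succ, ins1_ge h, del1_ge h, add_assoc]

theorem dot_single {j k : ℕ} (h : j < k) (μ x : ℕ → G) (t : G) :
    dot k (μ + Pi.single j t) x = t * x j + dot k μ x := by
  simp [dot, add_mul, Finset.sum_add_distrib, Pi.single_apply, h, add_comm]

theorem dot_single' {j k : ℕ} (h : j < k) (μ x : ℕ → G) (t : G) :
    dot k μ (x + Pi.single j t) = μ j * t + dot k μ x := by
  simp [dot, mul_add, Finset.sum_add_distrib, Pi.single_apply, h, add_comm]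

theorem ins1_add (j : ℕ) (a : G) (x b : ℕ → G) :
    ins1 j a x + b = ins1 j (a + b j) (x + del1 j b) := by
  funext k
  simp only [ins1, del1, Pi.add_apply]
  split_ifs <;> first | rfl | (exfalso; omega) | (congr 2 <;> omega)

variable [Inhabited G]

theorem S_shift {j k : ℕ} (h : j < k) (d : G) (F : (ℕ → G) → ℂ) :
    S k (fun x => F (x + Pi.single j d)) = S k F := by
  obtain ⟨k, rfl⟩ : ∃ m, k = m + 1 := ⟨k - 1, by omega⟩
  rw [S_ins1 k j _ (by omega), S_ins1 k j _ (by omega)]
  congr 1
  funext x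
  have e : del1 j (Pi.single j d : ℕ → G) = 0 := by
    funext n; simp only [del1, Pi.single_apply]
    split_ifs <;> first | rfl | (exfalso; omega)
  simp only [ins1_add, e, add_zero, Pi.single_eq_same]
  exact Equiv.sum_comp (Equiv.addRight d) fun a => F (ins1 j a x)

variable (ψ : AddChar G ℂ)

/-- the Wigner transform -/
noncomputable def W (k : ℕ) (f : (ℕ → G) → ℂ) (μ b : ℕ → G) : ℂ :=
  S k fun x => f (x + b) * (starRingEnd ℂ) (f x) * ψ (dot k μ x)

variable {δ ψ} (hψ : ψ.IsPrimitive) (h : δ * δ = Fintype.card G) (hc : (starRingEnd ℂ) δ = δ)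
include hψ

theorem W_cupE {j k : ℕ} (hj : j ≤ k) (f : (ℕ → G) → ℂ) (μ b : ℕ → G) :
    W ψ (k + 1) (pcup δ (2 * j) f) μ b =
      (if μ j = 0 then Fintype.card G else 0 : ℕ) * W ψ k f (del1 j μ) (del1 j b) := by
  rw [W, S_ins1 k j _ hj, W, ← S_mul, ← AddChar.sum_mulShift _ hψ]
  congr 1
  funext x
  simp only [pcup_even, ins1_add, del1_ins1, dot_ins1 hj, AddChar.map_add_eq_mul, Finset.sum_mul]
  exact Finset.sum_congr rfl fun a _ => by ring

omit hψ in
include h hc in
theorem W_cupO {j k : ℕ} (hj : j + 1 ≤ k) (f : (ℕ → G) → ℂ) (μ b : ℕ → G) :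
    W ψ (k + 1) (pcup δ (2 * j + 1) f) μ b = (if b j = b (j + 1) then Fintype.card G else 0 : ℕ) *
      W ψ k f (del1 (j + 1) μ + Pi.single j (μ (j + 1))) (del1 (j + 1) b) := by
  rw [W, S_ins1 k (j + 1) _ hj, W, ← S_mul]
  congr 1
  funext x
  simp only [pcup_odd, ins1_add, del1_ins1, dot_ins1 hj, dot_single hj, ins1_self,
    ins1_lt (Nat.lt_succ_self j), Pi.add_apply, del1_lt (Nat.lt_succ_self j), add_right_inj]
  rw [Finset.sum_eq_single (x j) (fun a _ ha => by simp [ha.symm]) (by simp)]
  simp only [add_right_inj, if_true, map_mul, hc, mul_comm (x j)]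
  split_ifs
  · rw [← h]; ring
  · simp

omit hψ in
include h hc in
theorem W_capE {j k : ℕ} (hj : j ≤ k) (f : (ℕ → G) → ℂ) (μ b : ℕ → G) :
    W ψ k (pcap δ (2 * j) f) μ b =
      (Fintype.card G : ℂ)⁻¹ * ∑ t, W ψ (k + 1) f (ins1 j 0 μ) (ins1 j t b) := by
  simp only [W, S_ins1 k j _ hj, ← S_sum, ← S_mul]
  congr 1
  funext x
  simp only [pcap_even, ins1_add, del1_ins1, dot_ins1 hj, ins1_self, mul_zero, zero_add, map_mul,
    map_inv₀, hc, map_sum, ← h]
  have e : ∀ a, ∑ t, f (ins1 j (a + t) (x + b)) * (starRingEnd ℂ) (f (ins1 j a x)) * ψ (dot k μ x)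
      = ∑ t, f (ins1 j t (x + b)) * (starRingEnd ℂ) (f (ins1 j a x)) * ψ (dot k μ x) :=
    fun a => Equiv.sum_comp (Equiv.addLeft a) fun t =>
      f (ins1 j t (x + b)) * (starRingEnd ℂ) (f (ins1 j a x)) * ψ (dot k μ x)
  rw [Finset.sum_comm, Finset.sum_congr rfl fun a _ => e a]
  simp only [← Finset.sum_mul, ← Finset.mul_sum]
  ring

theorem W_capO {j k : ℕ} (hj : j + 1 ≤ k) (f : (ℕ → G) → ℂ) (μ b : ℕ → G) :
    W ψ k (pcap δ (2 * j + 1) f) μ b = (Fintype.card G : ℂ)⁻¹ *
      ∑ t, W ψ (k + 1) f (ins1 (j + 1) t (μ + Pi.single j (-t))) (ins1 (j + 1) (b j) b) := by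
  simp only [W, S_ins1 k (j + 1) _ hj, ← S_sum, ← S_mul]
  congr 1
  funext x
  simp only [pcap_odd, ins1_add, del1_ins1, dot_ins1 hj, ins1_self, dot_single hj, Pi.add_apply]
  have e : ∀ a, ∑ t, f (ins1 (j + 1) (a + b j) (x + b)) * (starRingEnd ℂ) (f (ins1 (j + 1) a x)) *
      ψ (a * t + (-t * x j + dot k μ x)) = f (ins1 (j + 1) (a + b j) (x + b)) *
      (starRingEnd ℂ) (f (ins1 (j + 1) a x)) * ψ (dot k μ x) *
        (if a - x j = 0 then Fintype.card G else 0 : ℕ) := fun a => by
    rw [← AddChar.sum_mulShift _ hψ, Finset.mul_sum]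
    refine Finset.sum_congr rfl fun t _ => ?_
    rw [mul_assoc _ (ψ _), ← AddChar.map_add_eq_mul]
    congr 2
    ring
  rw [Finset.sum_comm, Finset.sum_congr rfl fun a _ => e a,
    Finset.sum_eq_single (x j) (fun a _ ha => by simp [sub_eq_zero, ha]) (by simp)]
  simp only [sub_self, if_true]
  field_simp

/-- sign of a crossing type -/
def sg (G : Type) [CommRing G] (s : Bool) : G := if s then 1 else -1

/-- weight of a crossing -/
def ka (A B δ : ℂ) (s : Bool) (d : G) : ℂ :=
  (if s then A else B) + if d = 0 then (if s then B else A) * δ else 0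

variable {A B : ℂ} (hκ : ∀ s (β : G), ∃ φ : ℂ, ‖φ‖ = 1 ∧
  ∀ d, ka A B δ s (d + β) * (starRingEnd ℂ) (ka A B δ s d) = φ * ψ (sg G s * β * d))

omit hψ in
include hκ in
theorem W_crO {j k : ℕ} (hj : j + 1 < k) (s : Bool) (f : (ℕ → G) → ℂ) (μ b : ℕ → G) :
    ‖W ψ k ((pTL δ h).X A B (2 * j + 1) s f) μ b‖ = ‖W ψ k f (μ + Pi.single j
      (-(sg G s * (b (j + 1) - b j))) + Pi.single (j + 1) (sg G s * (b (j + 1) - b j))) b‖ := by
  have e : ∀ x, (pTL δ h).X A B (2 * j + 1) s f x = ka A B δ s (x (j + 1) - x j) * f x := by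
    intro x
    simp only [TL.X, pTL, pcup_odd, pcap_odd, ka, Pi.add_apply, Pi.smul_apply, smul_eq_mul,
      sub_eq_zero, del1_lt (Nat.lt_succ_self j), eq_comm (a := x j)]
    by_cases h1 : x (j + 1) = x j
    · rw [if_pos h1, if_pos h1, ← h1, ins1_del1]; ring
    · rw [if_neg h1, if_neg h1]; ring
  obtain ⟨φ, h1, h2⟩ := hκ s (b (j + 1) - b j)
  rw [← one_mul ‖W ψ k f _ _‖, ← h1, ← norm_mul, W, W, ← S_mul]
  congr 2
  funext x
  have h3 := h2 (x (j + 1) - x j)
  simp only [e, dot_single hj, dot_single (show j < k by omega), Pi.add_apply, map_mul]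
  rw [show x (j + 1) + b (j + 1) - (x j + b j) = x (j + 1) - x j + (b (j + 1) - b j) by ring,
    ← add_assoc, AddChar.map_add_eq_mul, show sg G s * (b (j + 1) - b j) * x (j + 1) +
      -(sg G s * (b (j + 1) - b j)) * x j = sg G s * (b (j + 1) - b j) * (x (j + 1) - x j) by ring]
  linear_combination f (x + b) * (starRingEnd ℂ) (f x) * ψ (dot k μ x) * h3

include hκ hc in
theorem W_crE {j k : ℕ} (hj : j < k) (s : Bool) (f : (ℕ → G) → ℂ) (μ b : ℕ → G) :
    ‖W ψ k ((pTL δ h).X A B (2 * j) s f) μ b‖ =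
      ‖W ψ k f μ (b + Pi.single j (-(sg G s * μ j)))‖ := by
  have h0 : δ ≠ 0 := fun e => by simp [e, eq_comm] at h
  have e : ∀ x, (pTL δ h).X A B (2 * j) s f x =
      δ⁻¹ * ∑ d, ka A B δ (!s) d * f (x + Pi.single j d) := by
    intro x
    have e1 : ∀ a, ins1 j (x j + a) (del1 j x) = x + Pi.single j a := fun a => by
      conv_rhs => rw [← ins1_del1 j x, ins1_add]
      congr 1
      · simp
      · funext n; simp only [del1, Pi.single_apply, Pi.add_apply]
        split_ifs <;> first | (exfalso; omega) | simp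
    simp only [TL.X, pTL, pcup_even, pcap_even, ka, Pi.add_apply, Pi.smul_apply, smul_eq_mul,
      add_mul, Finset.sum_add_distrib, ← Finset.mul_sum, ite_mul _ _ (0 : ℂ), zero_mul,
      Finset.sum_ite_eq', Finset.mem_univ, if_true, Pi.single_zero, add_zero,
      ← Equiv.sum_comp (Equiv.addLeft (x j)) fun a => f (ins1 j a (del1 j x)), Equiv.coe_addLeft,
      e1]
    cases s <;> simp <;> field_simp <;> ring
  choose φ h1 h2 using hκ (!s)
  have e2 : ∀ t d : G, S k (fun x => f (x + b + Pi.single j (d + t)) *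
      (starRingEnd ℂ) (f (x + Pi.single j d)) * ψ (dot k μ x)) =
      ψ (-μ j * d) * W ψ k f μ (b + Pi.single j t) := fun t d => by
    rw [W, ← S_mul, ← S_shift hj d fun x => ψ (-μ j * d) * _]
    congr 1
    funext x
    rw [dot_single' hj, mul_left_comm, ← AddChar.map_add_eq_mul, Pi.single_add]
    congr 3
    · abel
    · ring
  have e3 : W ψ k ((pTL δ h).X A B (2 * j) s f) μ b = (Fintype.card G : ℂ)⁻¹ * ∑ t, ∑ d,
      ka A B δ (!s) (d + t) * (starRingEnd ℂ) (ka A B δ (!s) d) *
        (ψ (-μ j * d) * W ψ k f μ (b + Pi.single j t)) := by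
    simp only [← e2]
    simp only [← S_mul, ← S_sum, W]
    congr 1
    funext x
    have e4 : ∀ d, ∑ t, ka A B δ (!s) (d + t) * (starRingEnd ℂ) (ka A B δ (!s) d) *
        (f (x + b + Pi.single j (d + t)) * (starRingEnd ℂ) (f (x + Pi.single j d)) *
          ψ (dot k μ x)) = (∑ t, ka A B δ (!s) t * f (x + b + Pi.single j t)) *
          ((starRingEnd ℂ) (ka A B δ (!s) d) * (starRingEnd ℂ) (f (x + Pi.single j d))) *
          ψ (dot k μ x) := fun d => by
      rw [← Equiv.sum_comp (Equiv.addLeft d) fun t => ka A B δ (!s) t * _, Finset.sum_mul,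
        Finset.sum_mul]
      exact Finset.sum_congr rfl fun t _ => by simp only [Equiv.coe_addLeft]; ring
    rw [Finset.sum_comm, Finset.sum_congr rfl fun d _ => e4 d]
    simp only [e, map_mul, map_sum, map_inv₀, hc, ← h, ← Finset.sum_mul, ← Finset.mul_sum]
    ring
  have e5 : ∀ t, ∑ d, φ t * ψ (sg G (!s) * t * d) * (ψ (-μ j * d) * W ψ k f μ (b + Pi.single j t))
      = if t = -(sg G s * μ j) then Fintype.card G * (φ t * W ψ k f μ (b + Pi.single j t))
        else 0 := fun t => by
    have := AddChar.sum_mulShift (sg G (!s) * t - μ j) hψ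
    have e6 : sg G (!s) * t - μ j = 0 ↔ t = -(sg G s * μ j) := by
      cases s <;> simp [sg, sub_eq_zero, neg_eq_iff_eq_neg]
    simp only [e6] at this
    trans (∑ d, ψ (d * (sg G (!s) * t - μ j))) * (φ t * W ψ k f μ (b + Pi.single j t))
    · rw [Finset.sum_mul]
      refine Finset.sum_congr rfl fun d _ => ?_
      rw [show d * (sg G (!s) * t - μ j) = sg G (!s) * t * d + -μ j * d by ring,
        AddChar.map_add_eq_mul]
      ring
    · rw [this]; split_ifs <;> simp
  simp only [e3, h2, e5, Finset.sum_ite_eq', Finset.mem_univ, if_true]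
  simp [h1]

/-- compatibility of a colouring with a phase space point -/
def Rel (c μ b : ℕ → G) : Prop :=
  ∀ j, μ j = c (2 * j + 1) - c (2 * j) ∧ b (j + 1) - b j = c (2 * j + 2) - c (2 * j + 1)

/-- the Fox rule -/
def fox (s : Bool) (x y : G) : G × G := (x + sg G s * (x - y), y + sg G s * (x - y))

include hκ hc in
theorem dom : ∀ (w : List Pc) (k : ℕ) (f : (ℕ → G) → ℂ) (g : (ℕ → G) → ℝ), Ok 0 (2 * k) w →
    (∀ c μ b, Rel c μ b → ‖W ψ k f μ b‖ ≤ Fintype.card G ^ k * g c) →
    ∀ c μ b, Rel c μ b → ‖W ψ 0 ((pTL δ h).ev A B w f) μ b‖ ≤ evC fox w g c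
  | [], k, f, g, ho, H => by
    obtain rfl : k = 0 := by simp only [Ok] at ho; omega
    simpa [TL.ev, evC] using H
  | .cup i _ :: w, k, f, g, ho, H => by
    refine dom w (k + 1) _ _ ho.2 fun c μ b hr => ?_
    have hi := ho.1
    rcases Nat.even_or_odd' i with ⟨j, rfl | rfl⟩
    · rw [show (pTL δ h).cup = pcup δ from rfl, W_cupE hψ (by omega), cupC]
      simp only [(hr j).1, sub_eq_zero, eq_comm (a := c (2 * j))]
      split_ifs with h1
      · rw [norm_mul, pow_succ', mul_assoc, norm_natCast]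
        refine mul_le_mul_of_nonneg_left (H _ _ _ fun n => ?_) (by positivity)
        have := hr n; have := hr (n + 1)
        grind [del1, del2]
      · simp
    · rw [show (pTL δ h).cup = pcup δ from rfl, W_cupO h hc (by omega), cupC]
      have e : b j = b (j + 1) ↔ c (2 * j + 1) = c (2 * j + 1 + 1) := by
        rw [eq_comm, ← sub_eq_zero, (hr j).2, sub_eq_zero, eq_comm]
      simp only [e]
      split_ifs with h1
      · rw [norm_mul, pow_succ', mul_assoc, norm_natCast]
        refine mul_le_mul_of_nonneg_left (H _ _ _ fun n => ?_) (by positivity)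
        have := hr n; have := hr (n + 1)
        simp only [Pi.add_apply, Pi.single_apply]
        grind [del1, del2]
      · simp
  | .cap i :: w, k, f, g, ho, H => by
    have hi := ho.1
    obtain ⟨k, rfl⟩ : ∃ m, k = m + 1 := ⟨k - 1, by omega⟩
    refine dom w k _ _ ho.2 fun c μ b hr => ?_
    have key : ∀ (u : G → ℂ) (σ : G ≃ G), (∀ t, ‖u t‖ ≤ Fintype.card G ^ (k + 1) *
        g (ins2 i (σ t) (σ t) c)) →
        ‖(Fintype.card G : ℂ)⁻¹ * ∑ t, u t‖ ≤ Fintype.card G ^ k * capC i g c := by
      intro u σ hu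
      rw [norm_mul, norm_inv, norm_natCast, inv_mul_le_iff₀ (by simp [Fintype.card_pos]),
        ← mul_assoc, ← pow_succ', capC, ← σ.sum_comp fun t => g (ins2 i t t c), Finset.mul_sum]
      exact (norm_sum_le _ _).trans (Finset.sum_le_sum fun t _ => hu t)
    rcases Nat.even_or_odd' i with ⟨j, rfl | rfl⟩
    · rw [show (pTL δ h).cap = pcap δ from rfl, W_capE h hc (by omega)]
      refine key _ (Equiv.addLeft (c (2 * j) - b j)) fun t => H _ _ _ fun n => ?_
      clear key H hκ ho
      rcases n with _ | n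
      · have := hr 0
        grind [ins1, ins2, Equiv.coe_addLeft]
      · have := hr n; have := hr (n + 1)
        simp only [Equiv.coe_addLeft, ins1, ins2, show 2 * (n + 1) - 2 = 2 * n from rfl,
          show 2 * (n + 1) + 1 - 2 = 2 * n + 1 from rfl, Nat.add_sub_cancel]
        grind
    · rw [show (pTL δ h).cap = pcap δ from rfl, W_capO hψ (by omega)]
      refine key _ (Equiv.subLeft (c (2 * j + 1))) fun t => H _ _ _ fun n => ?_
      clear key H hκ ho
      simp only [Equiv.subLeft_apply, ins1, Pi.add_apply, Pi.single_apply]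
      rcases n with _ | n
      · have := hr 0
        grind [ins2]
      · have := hr n; have := hr (n + 1)
        simp only [ins2, show 2 * (n + 1) - 2 = 2 * n from rfl,
          show 2 * (n + 1) + 1 - 2 = 2 * n + 1 from rfl, Nat.add_sub_cancel]
        grind
  | .cr i s :: w, k, f, g, ho, H => by
    have hi := ho.1
    refine dom w k _ _ ho.2 fun c μ b hr => ?_
    rcases Nat.even_or_odd' i with ⟨j, rfl | rfl⟩
    · rw [W_crE hψ h hc hκ (by omega)]
      refine H _ _ _ fun n => ?_
      have := hr n; have := hr j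
      clear H hκ ho
      simp only [fox, Pi.add_apply, Pi.single_apply, ins2_del2_apply]
      grind
    · rw [W_crO h hκ (by omega)]
      refine H _ _ _ fun n => ?_
      have := hr n; have := hr j
      clear H hκ ho
      simp only [fox, Pi.add_apply, Pi.single_apply, ins2_del2_apply]
      grind

include hκ hc h in
theorem potts {D : List Pc} (hD : Ok 0 0 D) :
    ‖U A B δ [] D‖ ^ 2 ≤ evC fox D (fun _ : ℕ → G => (1 : ℝ)) 0 := by
  have := dom hψ h hc hκ D 0 (fun _ => 1) (fun _ => 1) hD (fun c μ b _ => by simp [W, S, dot])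
    0 0 0 fun j => by simp
  rw [TL.ev_nil _ _ _ hD] at this
  simpa [W, S, dot, sq] using this

end

end Pool.Agent.P.MP_833722_gt
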