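import Pool.Agent.P.MP_833722_gt.St

/-! Streams, iterated sums and the height model. -/

set_option autoImplicit false

namespace Pool.Agent.P.MP_833722_gt

section streams

variable {α : Type}

/-- insert one entry -/
def ins1 (i : ℕ) (a : α) (x : ℕ → α) : ℕ → α :=
  fun k => if k < i then x k else if k = i then a else x (k - 1)

/-- delete one entry -/
def del1 (i : ℕ) (x : ℕ → α) : ℕ → α := fun k => if k < i then x k else x (k + 1)

/-- insert two entries -/
def ins2 (i : ℕ) (a b : α) (x : ℕ → α) : ℕ → α :=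
  fun k => if k < i then x k else if k = i then a else if k = i + 1 then b else x (k - 2)

/-- delete two entries -/
def del2 (i : ℕ) (x : ℕ → α) : ℕ → α := fun k => if k < i then x k else x (k + 2)

@[simp] theorem ins1_self (i : ℕ) (a : α) (x : ℕ → α) : ins1 i a x i = a := by (simp only [ins1, del1, ins2, del2]; split_ifs <;> first | rfl | (exfalso; omega) | (congr 1; omega))
@[simp] theorem ins2_self (i : ℕ) (a b : α) (x : ℕ → α) : ins2 i a b x i = a := by (simp only [ins1, del1, ins2, del2]; split_ifs <;> first | rfl | (exfalso; omega) | (congr 1; omega))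
@[simp] theorem ins2_succ (i : ℕ) (a b : α) (x : ℕ → α) : ins2 i a b x (i + 1) = b := by (simp only [ins1, del1, ins2, del2]; split_ifs <;> first | rfl | (exfalso; omega) | (congr 1; omega))
@[simp] theorem del1_ins1 (i : ℕ) (a : α) (x : ℕ → α) : del1 i (ins1 i a x) = x := by
  funext k; (simp only [ins1, del1, ins2, del2]; split_ifs <;> first | rfl | (exfalso; omega) | (congr 1; omega))
@[simp] theorem del2_ins2 (i : ℕ) (a b : α) (x : ℕ → α) : del2 i (ins2 i a b x) = x := by
  funext k; (simp only [ins1, del1, ins2, del2]; split_ifs <;> first | rfl | (exfalso; omega) | (congr 1; omega))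
@[simp] theorem ins1_del1 (i : ℕ) (x : ℕ → α) : ins1 i (x i) (del1 i x) = x := by
  funext k; (simp only [ins1, del1, ins2, del2]; split_ifs <;> first | rfl | (exfalso; omega) | (congr 1; omega))
@[simp] theorem ins2_del2 (i : ℕ) (x : ℕ → α) : ins2 i (x i) (x (i + 1)) (del2 i x) = x := by
  funext k; (simp only [ins1, del1, ins2, del2]; split_ifs <;> first | rfl | (exfalso; omega) | (congr 1; omega))

theorem ins2_lt {i k : ℕ} (h : k < i) (a b : α) (x : ℕ → α) : ins2 i a b x k = x k := by (simp only [ins1, del1, ins2, del2]; split_ifs <;> first | rfl | (exfalso; omega) | (congr 1; omega))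
theorem ins2_ge {i k : ℕ} (h : i ≤ k) (a b : α) (x : ℕ → α) : ins2 i a b x (k + 2) = x k := by
  (simp only [ins1, del1, ins2, del2]; split_ifs <;> first | rfl | (exfalso; omega) | (congr 1; omega))
theorem ins1_lt {i k : ℕ} (h : k < i) (a : α) (x : ℕ → α) : ins1 i a x k = x k := by (simp only [ins1, del1, ins2, del2]; split_ifs <;> first | rfl | (exfalso; omega) | (congr 1; omega))
theorem ins1_ge {i k : ℕ} (h : i ≤ k) (a : α) (x : ℕ → α) : ins1 i a x (k + 1) = x k := by (simp only [ins1, del1, ins2, del2]; split_ifs <;> first | rfl | (exfalso; omega) | (congr 1; omega))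
theorem del2_lt {i k : ℕ} (h : k < i) (x : ℕ → α) : del2 i x k = x k := by (simp only [ins1, del1, ins2, del2]; split_ifs <;> first | rfl | (exfalso; omega) | (congr 1; omega))
theorem del2_ge {i k : ℕ} (h : i ≤ k) (x : ℕ → α) : del2 i x k = x (k + 2) := by (simp only [ins1, del1, ins2, del2]; split_ifs <;> first | rfl | (exfalso; omega) | (congr 1; omega))
theorem del1_lt {i k : ℕ} (h : k < i) (x : ℕ → α) : del1 i x k = x k := by (simp only [ins1, del1, ins2, del2]; split_ifs <;> first | rfl | (exfalso; omega) | (congr 1; omega))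
theorem del1_ge {i k : ℕ} (h : i ≤ k) (x : ℕ → α) : del1 i x k = x (k + 1) := by (simp only [ins1, del1, ins2, del2]; split_ifs <;> first | rfl | (exfalso; omega) | (congr 1; omega))

theorem ins2_eq (i : ℕ) (a b : α) (x : ℕ → α) : ins2 i a b x = ins1 i a (ins1 i b x) := by
  funext k; (simp only [ins1, del1, ins2, del2]; split_ifs <;> first | rfl | (exfalso; omega) | (congr 1; omega))

variable [Fintype α] [Inhabited α] {R : Type} [CommRing R]

/-- sum over the first `m` entries -/
def S : ℕ → ((ℕ → α) → R) → R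
  | 0, F => F fun _ => default
  | m + 1, F => S m fun x => ∑ a, F (ins1 0 a x)

theorem S_ins1 : ∀ (m i : ℕ) (F : (ℕ → α) → R), i ≤ m →
    S (m + 1) F = S m fun x => ∑ a, F (ins1 i a x)
  | _, 0, _, _ => rfl
  | m + 1, i + 1, F, h => by
    rw [S, S_ins1 m i _ (by omega), S]
    congr 1
    funext x
    rw [Finset.sum_comm]
    refine Finset.sum_congr rfl fun a _ => Finset.sum_congr rfl fun b _ => ?_
    congr 1
    funext k; (simp only [ins1, del1, ins2, del2]; split_ifs <;> first | rfl | (exfalso; omega) | (congr 1; omega))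

theorem S_ins2 (m i : ℕ) (F : (ℕ → α) → R) (h : i ≤ m) :
    S (m + 2) F = S m fun x => ∑ b, ∑ a, F (ins2 i a b x) := by
  rw [S_ins1 (m + 1) i F (by omega), S_ins1 m i _ h]
  simp only [ins2_eq]

theorem S_mul (c : R) : ∀ (m : ℕ) (F : (ℕ → α) → R), S m (fun x => c * F x) = c * S m F
  | 0, _ => rfl
  | m + 1, F => by simp only [S, ← Finset.mul_sum, S_mul c m]

theorem S_sum {ι : Type} (s : Finset ι) : ∀ (m : ℕ) (F : ι → (ℕ → α) → R),
    S m (fun x => ∑ t ∈ s, F t x) = ∑ t ∈ s, S m (F t)
  | 0, _ => rfl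
  | m + 1, F => by
    simp only [S, ← S_sum s m]
    congr 1
    funext x
    rw [Finset.sum_comm]

theorem S_mono : ∀ (m : ℕ) {F G : (ℕ → α) → ℝ}, (∀ x, F x ≤ G x) → S m F ≤ S m G
  | 0, _, _, h => h _
  | m + 1, _, _, h => S_mono m fun _ => Finset.sum_le_sum fun _ _ => h _

end streams

/-- step of a path -/
def st (b : Bool) : ℤ := if b then 1 else -1

/-- height of a path -/
def ht (i : ℕ) (x : ℕ → Bool) : ℤ := ∑ k ∈ Finset.range i, st (x k)

theorem ht_succ (i : ℕ) (x : ℕ → Bool) : ht (i + 1) x = ht i x + st (x i) :=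
  Finset.sum_range_succ _ _

theorem ht_congr {i : ℕ} {x y : ℕ → Bool} (h : ∀ k < i, x k = y k) : ht i x = ht i y :=
  Finset.sum_congr rfl fun k hk => by rw [h k (Finset.mem_range.1 hk)]

theorem ht_ins2_le {i j : ℕ} (h : j ≤ i) (a b : Bool) (x : ℕ → Bool) :
    ht j (ins2 i a b x) = ht j x := ht_congr fun _ _ => ins2_lt (by omega) _ _ _

theorem ht_ins2_ge {i j : ℕ} (h : i ≤ j) (b : Bool) (x : ℕ → Bool) :
    ht (j + 2) (ins2 i b (!b) x) = ht j x := by
  induction j, h using Nat.le_induction with
  | base =>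
    rw [ht_succ, ht_succ, ht_ins2_le le_rfl, ins2_self, ins2_succ]
    cases b <;> simp [st]
  | succ j h ih => rw [show j + 1 + 2 = j + 2 + 1 from rfl, ht_succ, ht_succ j, ih, ins2_ge h]

theorem abs_ht (x : ℕ → Bool) : ∀ i : ℕ, |ht i x| ≤ i
  | 0 => by simp [ht]
  | i + 1 => by
    have h1 := abs_le.1 (abs_ht x i)
    rw [ht_succ, abs_le]
    unfold st
    split_ifs <;> push_cast <;> omega

section model

variable {R : Type} [CommRing R] (u u' : ℤ → Bool → R)

/-- cup of the height model -/
def hcup (i : ℕ) : ((ℕ → Bool) → R) →ₗ[R] ((ℕ → Bool) → R) where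
  toFun v x := if x (i + 1) = !x i then u (ht i x) (x i) * v (del2 i x) else 0
  map_add' v w := by funext x; simp only [Pi.add_apply]; split_ifs <;> ring
  map_smul' c v := by
    funext x; simp only [Pi.smul_apply, smul_eq_mul, RingHom.id_apply]; split_ifs <;> ring

/-- cap of the height model -/
def hcap (i : ℕ) : ((ℕ → Bool) → R) →ₗ[R] ((ℕ → Bool) → R) where
  toFun v x := ∑ b, u' (ht i x) b * v (ins2 i b (!b) x)
  map_add' v w := by funext x; simp [mul_add]; ring
  map_smul' c v := by funext x; simp; ring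

theorem hcup_apply (i : ℕ) (v : (ℕ → Bool) → R) (x : ℕ → Bool) : hcup u i v x =
    if x (i + 1) = !x i then u (ht i x) (x i) * v (del2 i x) else 0 := rfl

theorem hcap_apply (i : ℕ) (v : (ℕ → Bool) → R) (x : ℕ → Bool) : hcap u' i v x =
    ∑ b, u' (ht i x) b * v (ins2 i b (!b) x) := rfl

/-- the height model -/
def hTL (δ : R) (h0 : ∀ h, ∑ b, u' h b * u h b = δ)
    (h1 : ∀ h b, u' (h + st b) (!b) * u h b = 1) (h2 : ∀ h b, u' h b * u (h + st b) (!b) = 1) :
    TL R ((ℕ → Bool) → R) δ where
  cup := hcup u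
  cap := hcap u'
  loop i v := by
    funext x
    simp only [hcap_apply, hcup_apply, ins2_self, ins2_succ, if_true, del2_ins2,
      ht_ins2_le le_rfl, ← mul_assoc, ← Finset.sum_mul, h0, Pi.smul_apply, smul_eq_mul]
  z1 i v := by
    funext x
    have e1 : ∀ b, del2 i (ins2 (i + 1) b (x i) x) = x := fun b => by funext k; (simp only [ins1, del1, ins2, del2]; split_ifs <;> first | rfl | (exfalso; omega) | (congr 1; omega))
    simp only [hcap_apply, hcup_apply, ins2_self, ins2_lt (Nat.lt_succ_self i),
      ht_ins2_le (Nat.le_succ i), ht_succ]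
    rw [Finset.sum_eq_single (!x i) (fun b _ hb => by rw [if_neg hb, mul_zero]) (by simp),
      if_pos rfl, Bool.not_not, e1, ← mul_assoc, h1, one_mul]
  z2 i v := by
    funext x
    have e1 : ∀ b, del2 (i + 1) (ins2 i (x i) b x) = x := fun b => by funext k; (simp only [ins1, del1, ins2, del2]; split_ifs <;> first | rfl | (exfalso; omega) | (congr 1; omega))
    simp only [hcap_apply, hcup_apply, ins2_self, ins2_succ, ins2_ge le_rfl,
      ht_ins2_le le_rfl, ht_succ, Bool.not_not]
    rw [Finset.sum_eq_single (x i) (fun b _ hb => by rw [if_neg hb.symm, mul_zero]) (by simp),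
      if_pos rfl, e1, ← mul_assoc, h2, one_mul]
  c1 i j v h := by
    funext x
    have e1 : ∀ a b, del2 (j + 2) (ins2 i a b x) = ins2 i a b (del2 j x) := fun a b => by
      funext k; (simp only [ins1, del1, ins2, del2]; split_ifs <;> first | rfl | (exfalso; omega) | (congr 1; omega))
    have e2 : ht i (del2 j x) = ht i x := ht_congr fun k _ => del2_lt (by omega) _
    simp only [hcap_apply, hcup_apply, ins2_ge h, show j + 2 + 1 = j + 1 + 2 from rfl,
      ins2_ge (Nat.le_succ_of_le h), ht_ins2_ge h, e1, e2]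
    split_ifs
    · rw [Finset.mul_sum]
      exact Finset.sum_congr rfl fun b _ => by ring
    · simp
  c2 i j v h := by
    funext x
    have e1 : ∀ a b, del2 j (ins2 (i + 2) a b x) = ins2 i a b (del2 j x) := fun a b => by
      funext k; (simp only [ins1, del1, ins2, del2]; split_ifs <;> first | rfl | (exfalso; omega) | (congr 1; omega))
    simp only [hcap_apply, hcup_apply, ins2_lt (show j < i + 2 by omega),
      ins2_lt (show j + 1 < i + 2 by omega), ht_ins2_le (show j ≤ i + 2 by omega), e1]
    split_ifs with hx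
    · have e2 : ht (i + 2) x = ht i (del2 j x) := by
        rw [← ht_ins2_ge h (x j), ← hx, ins2_del2]
      rw [Finset.mul_sum, e2]
      exact Finset.sum_congr rfl fun b _ => by ring
    · simp

end model

end Pool.Agent.P.MP_833722_gt
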