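import Pool.Agent.P.MP_833722_gt.Br
import Pool.Agent.P.MP_833722_gt.Lag

/-! The span bounds the number of components. -/

set_option autoImplicit false

namespace Pool.Agent.P.MP_833722_gt

theorem ok_append {e : ℕ} : ∀ {P w : List Pc} {m : ℕ},
    Ok e m (P ++ w) ↔ ∃ k, Ok k m P ∧ Ok e k w
  | [], w, m => by simp [Ok]
  | .cup _ _ :: P, w, m => by simp [Ok, ok_append (P := P), and_assoc]
  | .cap _ :: P, w, m => by simp [Ok, ok_append (P := P), and_assoc]
  | .cr _ _ :: P, w, m => by simp [Ok, ok_append (P := P), and_assoc]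

theorem ok_oc {e p m : ℕ} {w : List Pc} : ∀ {n : ℕ},
    Ok e m (oc p n ++ w) ↔ p + n + 2 ≤ m ∧ Ok e (m - 2) w
  | 0 => Iff.rfl
  | n + 1 => by
    simp only [oc, List.cons_append, Ok, ok_oc (n := n)]
    exact ⟨fun h => ⟨by omega, h.2.2⟩, fun h => ⟨by omega, by omega, h.2⟩⟩

theorem ok_ml {e p m : ℕ} {w : List Pc} (h : Ok e m w) : ∀ {n : ℕ}, p + n + 1 ≤ m →
    Ok e m (ml p n ++ w)
  | 0, _ => h
  | n + 1, h' => ⟨by omega, ok_ml h (by omega)⟩

theorem ok_mr {e m : ℕ} {w : List Pc} (h : Ok e m w) : ∀ {n p : ℕ}, p + n + 1 ≤ m →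
    Ok e m (mr p n ++ w)
  | 0, _, _ => h
  | n + 1, p, h' => ⟨by omega, ok_mr h (by omega)⟩

theorem cups_append : ∀ P w : List Pc, cups (P ++ w) = cups P + cups w
  | [], w => (zero_add _).symm
  | .cup _ _ :: P, w => by simp only [List.cons_append, cups, cups_append P]; ring
  | .cap _ :: P, w => cups_append P w
  | .cr _ _ :: P, w => cups_append P w

theorem cups_ml (p : ℕ) : ∀ n, cups (ml p n) = 0
  | 0 => rfl
  | n + 1 => cups_ml p n

theorem cups_mr : ∀ n p, cups (mr p n) = 0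
  | 0, _ => rfl
  | n + 1, _ => cups_mr n _

theorem comps_ctx {x y : List Pc} {d : ℕ}
    (h : ∀ l, Ok 0 l.length x → comps l x ≤ comps l y + d) :
    ∀ (P : List Pc) (l : List ℕ), Ok 0 l.length (P ++ x) → comps l (P ++ x) ≤ comps l (P ++ y) + d
  | [], l, ho => h l ho
  | .cup _ _ :: P, l, ho => comps_ctx h P _ (by rw [length_ins]; exact ho.2)
  | .cap i :: P, l, ho => by
    have h1 := length_join ho.1
    have := comps_ctx h P (join i l)
      (by rw [show (join i l).length = l.length - 2 by omega]; exact ho.2)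
    simp only [List.cons_append, comps]
    omega
  | .cr _ _ :: P, l, ho => comps_ctx h P _ (by rw [length_swp ho.1]; exact ho.2)

section

variable {R : Type} [CommRing R] (a : Rˣ)

/-- divisibility of the state sum -/
def Good (D : List Pc) : Prop := (-(a : R) ^ 2 - (↑a⁻¹ : R) ^ 2) ^ comps [] D ∣
  U (a : R) (↑a⁻¹ : R) (-(a : R) ^ 2 - (↑a⁻¹ : R) ^ 2) [] D

theorem vT_ev {D : List Pc} (h : Ok 0 0 D) : (vT a).ev a (↑a⁻¹ : R) D 1 (fun _ => true) =
    U (a : R) (↑a⁻¹ : R) (-(a : R) ^ 2 - (↑a⁻¹ : R) ^ 2) [] D := by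
  rw [TL.ev_nil _ _ _ h]; simp

theorem cB_one {D : List Pc} (h : Ok 0 0 D) : cB.ev D 1 (fun _ => true) = 2 ^ comps [] D := by
  rw [cB_ev, show (1 : (ℕ → Bool) → ℤ) = chi [] by funext c; simp [chi, Chi], evC_chi D [] h]
  simp

variable {a}

theorem Good.move {P x y : List Pc} (h : Good a (P ++ y)) (hx : Ok 0 0 (P ++ x))
    (hy : Ok 0 0 (P ++ y))
    (e : ∀ (R M : Type) [CommRing R] [AddCommGroup M] [Module R M] (B : Br R M),
      ∃ u : Rˣ, ∀ v, B.ev x v = (u : R) • B.ev y v) : Good a (P ++ x) := by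
  obtain ⟨u, hu⟩ := e _ _ cB
  obtain ⟨u', hu'⟩ := e _ _ (vB a)
  have h1 := cB_one hx
  rw [Br.ev_append, hu, ← Br.ev_append, Pi.smul_apply, cB_one hy] at h1
  have h2 : comps [] (P ++ y) = comps [] (P ++ x) := by
    simpa [Int.natAbs_mul, Int.natAbs_pow] using congrArg Int.natAbs h1
  unfold Good at h ⊢
  have e1 : ∀ w v, (vB a).ev w v = (vT a).ev a (↑a⁻¹ : R) w v := TL.br_ev _ _ _ _
  rw [← vT_ev a hx, ← e1, Br.ev_append, hu', ← Br.ev_append, Pi.smul_apply, e1, vT_ev a hy, ← h2]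
  exact h.mul_left _

theorem Good.loop {P w : List Pc} {p : ℕ} {d : Bool} (h : Good a (P ++ w))
    (hx : Ok 0 0 (P ++ .cup p d :: .cap p :: w)) (hy : Ok 0 0 (P ++ w)) :
    Good a (P ++ .cup p d :: .cap p :: w) := by
  have h1 := comps_ctx (y := w) (d := 1) (fun l hl => by
    have := fresh_not_mem l
    obtain ⟨s, t, rfl, rfl⟩ := split0 hl.1
    simp only [comps, ins_app, join_app, TL.map_ren_of_not_mem this]
    split_ifs <;> omega) P [] hx
  unfold Good at h ⊢
  rw [← vT_ev a hx, TL.ev_append, TL.ev, TL.ev, TL.loop, TL.ev_smul, ← TL.ev_append, Pi.smul_apply,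
    vT_ev a hy]
  exact (pow_dvd_pow _ h1).trans (by rw [pow_succ']; exact mul_dvd_mul_left _ h)

theorem Good.change (h2 : (2 : R) = 0) {P w : List Pc} {i : ℕ} {s : Bool} (h : Good a (P ++ w))
    (h' : Good a (P ++ .cr i (!s) :: w)) (hx : Ok 0 0 (P ++ .cr i s :: w)) :
    Good a (P ++ .cr i s :: w) := by
  obtain ⟨k, e1, e2⟩ := ok_append.1 hx
  have hy : Ok 0 0 (P ++ w) := ok_append.2 ⟨k, e1, e2.2⟩
  have hz : Ok 0 0 (P ++ .cr i (!s) :: w) := ok_append.2 ⟨k, e1, e2⟩
  have h1 := comps_ctx (y := w) (d := 1) (fun l hl => by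
    have := (comps_le_swp (l := swp i l) (i := i) (by rw [length_swp hl.1]; exact hl.1)
      (by rw [length_swp hl.1]; exact hl.2)).1
    obtain ⟨s, x, y, t, rfl, rfl⟩ := split2 hl.1
    simpa only [comps, swp_app] using this) P [] hx
  have h3 := comps_ctx (x := .cr i s :: w) (y := .cr i (!s) :: w) (d := 0) (fun l hl => le_rfl) P [] hx
  have e : ∀ v, (vT a).X a (↑a⁻¹ : R) i s v = ((if s then (↑a⁻¹ : R) else a) ^ 2) •
      (vT a).X a (↑a⁻¹ : R) i (!s) v +
      ((if s then (↑a⁻¹ : R) else a) * (-(a : R) ^ 2 - (↑a⁻¹ : R) ^ 2)) • v := fun v => by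
    have h : (a : R) * ↑a⁻¹ = 1 := by simp
    cases s <;> simp only [TL.X, Bool.not_true, Bool.not_false, Bool.false_eq_true, if_true,
      if_false] <;> match_scalars <;> grind
  unfold Good at h h' ⊢
  rw [← vT_ev a hx, TL.ev_append, TL.ev, e, TL.ev_lin, ← TL.ev, ← TL.ev_append, ← TL.ev_append,
    Pi.add_apply, Pi.smul_apply, Pi.smul_apply, vT_ev a hy, vT_ev a hz]
  refine dvd_add (((pow_dvd_pow _ h3).trans h').mul_left _) ((pow_dvd_pow _ h1).trans ?_)
  rw [pow_succ', smul_eq_mul, mul_assoc]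
  exact (mul_dvd_mul_left _ h).mul_left _

theorem slide (h2 : (2 : R) = 0) {N : ℕ} (ih : ∀ D, cups D < N → Ok 0 0 D → Good a D)
    (P : List Pc) : (∀ i, Pc.cap i ∉ P) → ∀ p n w, cups P + cups w ≤ N →
      Ok 0 0 (P ++ (oc p n ++ w)) → Good a (P ++ (oc p n ++ w)) := by
  induction P using List.reverseRecOn with
  | nil => intro _ p n w _ h; exact absurd (ok_oc.1 h).1 (by omega)
  | append_singleton P x ihP =>
    intro hP p n w hN ho
    replace ihP := ihP fun i hi => hP i (List.mem_append_left _ hi)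
    rw [List.append_assoc, List.singleton_append] at ho ⊢
    rw [cups_append] at hN
    obtain ⟨m, o1, o2⟩ := ok_append.1 ho
    have mv : ∀ {x : Pc} {p n p' n' : ℕ} {w w' : List Pc},
        Ok 0 0 (P ++ x :: (oc p n ++ w)) → cups P + cups w' ≤ N → p' + n' + 2 ≤ m →
        Ok 0 (m - 2) w' →
        (∀ (R M : Type) [CommRing R] [AddCommGroup M] [Module R M] (B : Br R M),
          ∃ u : Rˣ, ∀ v, B.ev (x :: (oc p n ++ w)) v = (u : R) • B.ev (oc p' n' ++ w') v) →
        Good a (P ++ x :: (oc p n ++ w)) := fun h1 h2 h3 h4 e =>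
      have h5 := ok_append.2 ⟨m, o1, ok_oc.2 ⟨h3, h4⟩⟩
      (ihP _ _ _ h2 h5).move h1 h5 e
    cases x with
    | cap i => exact absurd (by simp) (hP i)
    | cup j d =>
      obtain ⟨o3, o4, o5⟩ : j ≤ m ∧ p + n + 2 ≤ m + 2 ∧ Ok 0 m w := ⟨o2.1, ok_oc.1 o2.2⟩
      simp only [cups] at hN
      have lw : ∀ y : List Pc, cups y = 0 → Ok 0 m (y ++ w) →
          (∀ (R M : Type) [CommRing R] [AddCommGroup M] [Module R M] (B : Br R M),
            ∃ u : Rˣ, ∀ v, B.ev (oc p n) (B.cup j v) = (u : R) • B.ev y v) →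
          Good a (P ++ .cup j d :: (oc p n ++ w)) := fun y h1 h3 e =>
        have h5 := ok_append.2 ⟨m, o1, h3⟩
        (ih _ (by simp only [cups_append]; omega) h5).move ho h5 fun R M _ _ _ B =>
          (e R M B).imp fun u hu v => by simp [Br.ev, Br.ev_append, hu]
      have cm : ∀ j' p' n', p' + n' + 2 ≤ m → j' + 2 ≤ m →
          (∀ (R M : Type) [CommRing R] [AddCommGroup M] [Module R M] (B : Br R M) v,
            B.ev (oc p n) (B.cup j v) = B.cup j' (B.ev (oc p' n') v)) →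
          Good a (P ++ .cup j d :: (oc p n ++ w)) := fun j' p' n' h1 h3 e =>
        mv (w' := .cup j' d :: w) ho (by simp only [cups]; omega) h1
          ⟨by omega, by rwa [show m - 2 + 2 = m by omega]⟩ fun R M _ _ _ B =>
          ⟨1, fun v => by simp [Br.ev, Br.ev_append, e]⟩
      rcases (by omega : j + 2 ≤ p ∨ j + 1 = p ∨ (j = p ∧ n = 0) ∨ (j = p ∧ 1 ≤ n) ∨
        (p < j ∧ j < p + n) ∨ (j = p + n ∧ 1 ≤ n) ∨ j = p + n + 1 ∨ p + n + 2 ≤ j) with
        h | rfl | ⟨rfl, rfl⟩ | ⟨rfl, h⟩ | h | ⟨rfl, h⟩ | rfl | h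
      · obtain ⟨p, rfl⟩ : ∃ k, p = k + 2 := ⟨p - 2, by omega⟩
        exact cm j p n (by omega) (by omega) fun R M _ _ _ B v => B.oc_cl _ _ (by omega) _ _
      · exact lw (ml j n) (cups_ml _ _) (ok_ml o5 (by omega)) fun R M _ _ _ B =>
          ⟨1, fun v => by simp [B.oc_ml]⟩
      · have h5 := ok_append.2 ⟨m, o1, o5⟩
        exact (ih _ (by simp only [cups_append]; omega) h5).loop ho h5
      · obtain ⟨n, rfl⟩ : ∃ k, n = k + 1 := ⟨n - 1, by omega⟩
        exact lw (ml j n) (cups_ml _ _) (ok_ml o5 (by omega)) fun R M _ _ _ B =>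
          ⟨B.κ true, fun v => by rw [B.oc_left, B.k2, map_smul, B.oc_ml]⟩
      · obtain ⟨n, rfl⟩ : ∃ k, n = k + 2 := ⟨n - 2, by omega⟩
        obtain ⟨j, rfl⟩ : ∃ k, j = k + 1 := ⟨j - 1, by omega⟩
        exact cm j p n (by omega) (by omega) fun R M _ _ _ B v =>
          B.oc_ci _ _ (by omega) _ _ (by omega)
      · obtain ⟨n, rfl⟩ : ∃ k, n = k + 1 := ⟨n - 1, by omega⟩
        exact lw (mr p n) (cups_mr _ _) (ok_mr o5 (by omega)) fun R M _ _ _ B =>
          ⟨B.κ false, fun v => by rw [B.oc_succ, ← add_assoc, B.k2, map_smul, B.oc_mr]⟩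
      · exact lw (mr p n) (cups_mr _ _) (ok_mr o5 (by omega)) fun R M _ _ _ B =>
          ⟨1, fun v => by simp [B.oc_mr]⟩
      · obtain ⟨j, rfl⟩ : ∃ k, j = k + 2 := ⟨j - 2, by omega⟩
        exact cm j p n (by omega) (by omega) fun R M _ _ _ B v => B.oc_cr _ _ _ _ (by omega)
    | cr j s =>
      obtain ⟨o3, o4, o5⟩ : j + 2 ≤ m ∧ p + n + 2 ≤ m ∧ Ok 0 (m - 2) w := ⟨o2.1, ok_oc.1 o2.2⟩
      simp only [cups, add_zero] at hN
      have cm : ∀ j', j' + 4 ≤ m →
          (∀ (R M : Type) [CommRing R] [AddCommGroup M] [Module R M] (B : Br R M) v,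
            B.ev (oc p n) (B.X s j v) = B.X s j' (B.ev (oc p n) v)) →
          Good a (P ++ .cr j s :: (oc p n ++ w)) := fun j' h1 e =>
        mv (w' := .cr j' s :: w) ho hN o4 ⟨by omega, o5⟩ fun R M _ _ _ B =>
          ⟨1, fun v => by simp [Br.ev, Br.ev_append, e]⟩
      have ch : ∀ t p' n', p' + n' + 2 ≤ m →
          (∀ (R M : Type) [CommRing R] [AddCommGroup M] [Module R M] (B : Br R M),
            ∃ u : Rˣ, ∀ v, B.ev (oc p n) (B.X t j v) = (u : R) • B.ev (oc p' n') v) →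
          Good a (P ++ .cr j s :: (oc p n ++ w)) := fun t p' n' h1 e => by
        have h3 : Good a (P ++ .cr j t :: (oc p n ++ w)) :=
          mv (ok_append.2 ⟨m, o1, o2⟩) hN h1 o5 fun R M _ _ _ B =>
            (e R M B).imp fun u hu v => by simp [Br.ev, Br.ev_append, hu]
        rcases (by cases s <;> cases t <;> simp : t = s ∨ t = !s) with rfl | rfl
        · exact h3
        · exact (ihP p n w hN (ok_append.2 ⟨m, o1, o2.2⟩)).change h2 h3 ho
      rcases (by omega : j + 2 ≤ p ∨ j + 1 = p ∨ (j = p ∧ n = 0) ∨ (j = p ∧ 1 ≤ n) ∨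
        (p < j ∧ j < p + n) ∨ (j = p + n ∧ 1 ≤ n) ∨ j = p + n + 1 ∨ p + n + 2 ≤ j) with
        h | rfl | ⟨rfl, rfl⟩ | ⟨rfl, h⟩ | h | ⟨rfl, h⟩ | rfl | h
      · exact cm j (by omega) fun R M _ _ _ B v => B.oc_xl _ _ _ h _ _
      · exact ch true j (n + 1) (by omega) fun R M _ _ _ B => ⟨1, fun v => by simp [B.oc_left]⟩
      · exact ch s j 0 o4 fun R M _ _ _ B => ⟨B.κ s, B.k1 s j⟩
      · obtain ⟨n, rfl⟩ : ∃ k, n = k + 1 := ⟨n - 1, by omega⟩
        exact ch false (j + 1) n (by omega) fun R M _ _ _ B =>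
          ⟨1, fun v => by simp [B.oc_left, B.r2']⟩
      · obtain ⟨j, rfl⟩ : ∃ k, j = k + 1 := ⟨j - 1, by omega⟩
        exact cm j (by omega) fun R M _ _ _ B v => B.oc_xi _ _ _ (by omega) _ _ (by omega)
      · obtain ⟨n, rfl⟩ : ∃ k, n = k + 1 := ⟨n - 1, by omega⟩
        exact ch true p n (by omega) fun R M _ _ _ B =>
          ⟨1, fun v => by rw [B.oc_succ, ← add_assoc, B.r2]; simp⟩
      · exact ch false p (n + 1) (by omega) fun R M _ _ _ B => ⟨1, fun v => by simp [B.oc_succ]⟩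
      · obtain ⟨j, rfl⟩ : ∃ k, j = k + 2 := ⟨j - 2, by omega⟩
        exact cm j (by omega) fun R M _ _ _ B v => B.oc_xr _ _ _ _ _ (by omega)

theorem first_cap : ∀ (D : List Pc) (m : ℕ), Ok 0 m D → D = [] ∨
    ∃ P p w, D = P ++ (oc p 0 ++ w) ∧ ∀ i, Pc.cap i ∉ P
  | [], _, _ => Or.inl rfl
  | .cap p :: w, _, _ => Or.inr ⟨[], p, w, rfl, by simp⟩
  | .cup j d :: D, m, h => by
    rcases first_cap D _ h.2 with rfl | ⟨P, p, w, rfl, h1⟩
    · exact absurd h.2 (by simp [Ok])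
    · exact Or.inr ⟨.cup j d :: P, p, w, rfl, by simpa using h1⟩
  | .cr j d :: D, m, h => by
    rcases first_cap D _ h.2 with rfl | ⟨P, p, w, rfl, h1⟩
    · simp only [Ok] at h; omega
    · exact Or.inr ⟨.cr j d :: P, p, w, rfl, by simpa using h1⟩

theorem good (h2 : (2 : R) = 0) : ∀ N D, cups D < N → Ok 0 0 D → Good a D
  | 0, _, h, _ => absurd h (by omega)
  | N + 1, D, h, ho => by
    rcases first_cap D 0 ho with rfl | ⟨P, p, w, rfl, h1⟩
    · simp [Good, comps]
    · exact slide h2 (good h2 N) P h1 p 0 w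
        (by simp only [cups_append, oc, cups] at h; omega) ho

end

theorem U_four {R : Type} [CommRing R] {A B : R} (h : A + B = 1) :
    ∀ (w : List Pc) (l : List ℕ), U A B 1 l w = 1
  | [], _ => rfl
  | .cup _ _ :: w, _ => U_four h w _
  | .cap _ :: w, _ => by simp [U, U_four h w]
  | .cr _ s :: w, _ => by cases s <;> simp [U, U_four h w, h, add_comm B]

theorem comps_le_span {D : List Pc} (h : Ok 0 0 D) {n : ℕ} (hn : SpanLe (jones D) n) :
    comps [] D ≤ n + 1 := by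
  by_contra hc
  have h0 : D ≠ [] := by rintro rfl; simp [comps] at hc
  obtain ⟨m, hm⟩ := hn.window
  let p : Polynomial (ZMod 2) :=
    ∑ i ∈ Finset.range (4 * n + 1), Polynomial.monomial i ((jones D).coeff (m + i) : ZMod 2)
  have key : ∀ (R : Type) [CommRing R] [Algebra (ZMod 2) R] (a : Rˣ),
      evA a (jones D) = (a ^ m).val * Polynomial.aeval (a : R) p := fun R _ _ a => by
    rw [evA_eq_sum a _ (s := (Finset.range (4 * n + 1)).map
      ⟨fun i : ℕ => m + i, fun _ _ e => by simpa using e⟩) fun k hk => by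
        have := Finset.mem_Icc.1 (hm k hk)
        exact Finset.mem_map.2 ⟨(k - m).toNat, Finset.mem_range.2 (by omega),
          by simp only [Function.Embedding.coeFn_mk]; omega⟩, Finset.sum_map, map_sum,
      Finset.mul_sum]
    refine Finset.sum_congr rfl fun i _ => ?_
    simp only [Polynomial.aeval_monomial, Function.Embedding.coeFn_mk, zpow_add, zpow_natCast,
      Units.val_mul, Units.val_pow_eq_pow_val, map_intCast]
    ring
  have hp : p = 0 := by
    obtain ⟨a, ha⟩ : IsUnit (PowerSeries.X + 1 : PowerSeries (ZMod 2)) :=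
      PowerSeries.isUnit_iff_constantCoeff.2 (by simp)
    have h2 : (2 : PowerSeries (ZMod 2)) = 0 := by
      rw [← map_ofNat (PowerSeries.C (R := ZMod 2)) 2]
      exact map_zero _
    have h3 : -a.val ^ 2 - a⁻¹.val ^ 2 = PowerSeries.X ^ 4 * a⁻¹.val ^ 2 := by
      have : a.val * a⁻¹.val = 1 := by simp
      grind
    have h4 := good (a := a) h2 _ D (Nat.lt_succ_self _) h
    obtain ⟨c, hc'⟩ : ∃ c, comps [] D = c + 1 := ⟨comps [] D - 1, by omega⟩
    rw [Good, ← evA_mul_bracket a h h0, hc', pow_succ', mul_dvd_mul_iff_left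
      (by rw [h3]; simp [PowerSeries.X_ne_zero]), h3, mul_pow, ← pow_mul] at h4
    have h5 : PowerSeries.X ^ (4 * c) ∣ evA a (jones D) := by
      rw [evA_jones]
      exact ((dvd_mul_right _ _).trans h4).mul_left _
    have h6 : Polynomial.aeval a.val p = (Polynomial.taylor 1 p : Polynomial (ZMod 2)) := by
      have := Polynomial.aeval_algHom_apply (Polynomial.coeToPowerSeries.algHom (ZMod 2))
        (Polynomial.X + 1) p
      simpa [ha, Polynomial.taylor_apply, Polynomial.comp_eq_aeval] using this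
    rw [key, Units.dvd_mul_left, h6, PowerSeries.X_pow_dvd_iff] at h5
    rw [← Polynomial.taylor_eq_zero 1]
    ext k
    by_cases hk : k < 4 * c
    · simpa using h5 k hk
    · refine Polynomial.coeff_eq_zero_of_natDegree_lt ?_
      rw [Polynomial.natDegree_taylor]
      refine lt_of_le_of_lt (Polynomial.natDegree_sum_le_of_forall_le _ _ (n := 4 * n)
        fun i hi => (Polynomial.natDegree_monomial_le _).trans ?_) (by omega)
      exact Nat.lt_succ_iff.1 (Finset.mem_range.1 hi)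
  let a : (QuadraticAlgebra (ZMod 2) 1 1)ˣ := ⟨⟨0, 1⟩, ⟨1, 1⟩, by decide, by decide⟩
  have h1 := evA_mul_bracket a h h0
  have h2 := key _ a
  rw [show -a.val ^ 2 - a⁻¹.val ^ 2 = 1 by decide, U_four (by decide), one_mul] at h1
  rw [evA_jones, h1, hp, map_zero, mul_zero, mul_one, Units.mul_left_eq_zero] at h2
  exact (isUnit_one.neg.pow _).ne_zero h2

end Pool.Agent.P.MP_833722_gt
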