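import Pool.Agent.P.MP_833722_gt.TL

/-! The state sum. -/

set_option autoImplicit false

namespace Pool.Agent.P.MP_833722_gt

open LaurentPolynomial

/-- the loop value -/
noncomputable def dl : ℤ[T;T⁻¹] := -T 2 - T (-2)

theorem states_sum : ∀ (w : List Pc) (l : List ℕ),
    ((states w).map fun p => T p.1 * dl ^ comps l p.2).sum = U (T 1) (T (-1)) dl l w
  | [], l => by simp [states, comps, U]
  | .cup i d :: w, l => by
    simp only [states, List.map_map, U, ← states_sum w]
    rfl
  | .cap i :: w, l => by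
    simp only [states, List.map_map, U, ← states_sum w, ← List.sum_map_mul_left]
    congr 1
    refine List.map_congr_left fun p _ => ?_
    simp only [Function.comp, comps, pow_add]
    split_ifs <;> ring
  | .cr i s :: w, l => by
    simp only [states, List.map_append, List.sum_append, List.map_map, U, ← states_sum w,
      ← List.sum_map_mul_left]
    congr 2 <;> refine List.map_congr_left fun p _ => ?_
    · simp only [Function.comp, T_add]
      cases s <;> simp only [Bool.false_eq_true, if_true, if_false] <;> ring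
    · simp only [Function.comp, comps, pow_add, T_sub]
      cases s <;> simp only [Bool.false_eq_true, if_true, if_false, neg_neg] <;>
        split_ifs <;> ring

theorem ok_states {e : ℕ} : ∀ {w : List Pc} {m : ℕ}, Ok e m w → ∀ p ∈ states w, Ok e m p.2
  | [], m, h => by simpa [states] using h
  | .cup i d :: w, m, h => by
    simp only [states, List.mem_map]
    rintro _ ⟨p, hp, rfl⟩
    exact ⟨h.1, ok_states h.2 p hp⟩
  | .cap i :: w, m, h => by
    simp only [states, List.mem_map]
    rintro _ ⟨p, hp, rfl⟩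
    exact ⟨h.1, ok_states h.2 p hp⟩
  | .cr i s :: w, m, h => by
    simp only [states, List.mem_append, List.mem_map]
    rintro _ (⟨p, hp, rfl⟩ | ⟨p, hp, rfl⟩)
    · exact ok_states h.2 p hp
    · have := h.1
      refine ⟨this, by omega, ?_⟩
      rw [show m - 2 + 2 = m by omega]
      exact ok_states h.2 p hp

theorem comps_pos : ∀ (w : List Pc) (l : List ℕ), Ok 0 l.length w → l ≠ [] → 1 ≤ comps l w
  | [], l, h, hl => (hl (List.length_eq_zero_iff.1 h)).elim
  | .cup i _ :: w, l, h, _ => comps_pos w _ (by rw [length_ins]; exact h.2) (by simp [ins])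
  | .cap i :: w, l, h, _ => by
    have h1 := length_join h.1
    rw [comps]
    by_cases h2 : join i l = []
    · simp [h2]
    · have := comps_pos w (join i l) (by rw [show (join i l).length = l.length - 2 by omega]
                                         exact h.2) h2
      omega
  | .cr i _ :: w, l, h, _ => comps_pos w _ (by rw [length_swp h.1]; exact h.2) (by
      rw [← List.length_pos_iff, length_swp h.1]; have := h.1; omega)

theorem dl_mul_bracket {D : List Pc} (h : Ok 0 0 D) (hD : D ≠ []) :
    dl * bracket D = U (T 1) (T (-1)) dl [] D := by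
  rw [← states_sum, bracket, ← List.sum_map_mul_left]
  congr 1
  refine List.map_congr_left fun p hp => ?_
  have h1 : 1 ≤ comps [] p.2 := by
    have h2 := ok_states h p hp
    match D, hD, h, hp with
    | .cup i d :: w, _, h, hp =>
      simp only [states, List.mem_map] at hp
      obtain ⟨q, _, rfl⟩ := hp
      exact comps_pos q.2 _ (by rw [length_ins]; exact h2.2) (by simp [ins])
    | .cap i :: w, _, h, _ => exact absurd h.1 (by omega)
    | .cr i s :: w, _, h, _ => exact absurd h.1 (by omega)
  rw [← dl, mul_left_comm, ← pow_succ', Nat.sub_add_cancel h1]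

theorem ok_last : ∀ (w : List Pc) (m : ℕ), Ok 0 m w → w ≠ [] →
    ∃ w', w = w' ++ [.cap 0] ∧ Ok 2 m w'
  | [], _, _, h => (h rfl).elim
  | [.cup i _], m, h, _ => by simp [Ok] at h
  | [.cap i], m, h, _ => by
    simp only [Ok] at h
    exact ⟨[], by rw [show i = 0 by omega]; rfl, by simp only [Ok]; omega⟩
  | [.cr i _], m, h, _ => by simp only [Ok] at h; omega
  | .cup i d :: p :: w, m, h, _ => by
    obtain ⟨w', h1, h2⟩ := ok_last (p :: w) _ h.2 (by simp)
    exact ⟨.cup i d :: w', by rw [h1]; rfl, h.1, h2⟩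
  | .cap i :: p :: w, m, h, _ => by
    obtain ⟨w', h1, h2⟩ := ok_last (p :: w) _ h.2 (by simp)
    exact ⟨.cap i :: w', by rw [h1]; rfl, h.1, h2⟩
  | .cr i d :: p :: w, m, h, _ => by
    obtain ⟨w', h1, h2⟩ := ok_last (p :: w) _ h.2 (by simp)
    exact ⟨.cr i d :: w', by rw [h1]; rfl, h.1, h2⟩

theorem U_last {R : Type} [CommRing R] (A B δ : R) : ∀ (w : List Pc) (l : List ℕ),
    Ok 2 l.length w → U A B δ l (w ++ [.cap 0]) = δ * U A B δ l w
  | [], l, h => by
    have h1 : join 0 l = [] := by
      have := length_join (i := 0) (l := l) (by simp only [Ok] at h; omega)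
      rw [← List.length_eq_zero_iff]
      simp only [Ok] at h; omega
    simp [U, h1]
  | .cup i _ :: w, l, h => U_last A B δ w _ (by rw [length_ins]; exact h.2)
  | .cap i :: w, l, h => by
    have h1 := length_join h.1
    simp only [List.cons_append, U]
    rw [U_last A B δ w _ (by rw [show (join i l).length = l.length - 2 by omega]; exact h.2)]
    ring
  | .cr i s :: w, l, h => by
    have h1 := length_join h.1
    simp only [List.cons_append, U]
    rw [U_last A B δ w _ h.2, U_last A B δ w _ (by rw [length_ins, h1]; exact h.2)]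
    ring

/-- evaluation at a unit -/
noncomputable def evA {R : Type} [CommRing R] (a : Rˣ) : ℤ[T;T⁻¹] →+* R :=
  LaurentPolynomial.eval₂ (Int.castRingHom R) a

section

variable {R : Type} [CommRing R] (a : Rˣ)

theorem evA_T (n : ℤ) : evA a (T n) = (a ^ n).val := eval₂_T _ _ _

theorem evA_dl : evA a dl = -(a : R) ^ 2 - (↑a⁻¹ : R) ^ 2 := by
  simp only [dl, map_sub, map_neg, evA_T]
  rw [show (2 : ℤ) = (2 : ℕ) from rfl, zpow_neg, zpow_natCast, ← inv_pow]
  simp

theorem dl_ne : dl ≠ 0 := fun h => by
  have := evA_dl (1 : ℤˣ)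
  simp [h] at this

theorem evA_U (w : List Pc) (l : List ℕ) : evA a (U (T 1) (T (-1)) dl l w) =
    U (a : R) (↑a⁻¹ : R) (-(a : R) ^ 2 - (↑a⁻¹ : R) ^ 2) l w := by
  rw [map_U, evA_dl, evA_T, evA_T]; simp

theorem evA_mul_bracket {D : List Pc} (h : Ok 0 0 D) (hD : D ≠ []) :
    (-(a : R) ^ 2 - (↑a⁻¹ : R) ^ 2) * evA a (bracket D) =
      U (a : R) (↑a⁻¹ : R) (-(a : R) ^ 2 - (↑a⁻¹ : R) ^ 2) [] D := by
  rw [← evA_U, ← dl_mul_bracket h hD, map_mul, evA_dl]

theorem evA_bracket {D : List Pc} (h : Ok 2 0 D) : evA a (bracket (D ++ [.cap 0])) =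
    U (a : R) (↑a⁻¹ : R) (-(a : R) ^ 2 - (↑a⁻¹ : R) ^ 2) [] D := by
  have h0 : ∀ (w : List Pc) (m : ℕ), Ok 2 m w → Ok 0 m (w ++ [.cap 0]) := by
    intro w
    induction w with
    | nil => intro m h; simp only [Ok] at h; simp [Ok, h]
    | cons p w ih => intro m h; cases p <;> exact ⟨h.1, ih _ h.2⟩
  have h1 := dl_mul_bracket (h0 D 0 h) (by simp)
  rw [U_last _ _ _ D [] h] at h1
  rw [mul_left_cancel₀ dl_ne h1, evA_U]

theorem evA_jones (D : List Pc) : evA a (jones D) =
    (-1) ^ (writhe [] D).natAbs * (a ^ (-3 * writhe [] D)).val * evA a (bracket D) := by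
  simp only [jones, map_mul, map_pow, map_neg, map_one, evA_T]

end

theorem norm_evA_jones (a : ℂˣ) (ha : ‖(a : ℂ)‖ = 1) (D : List Pc) :
    ‖evA a (jones D)‖ = ‖evA a (bracket D)‖ := by
  rw [evA_jones]
  simp [ha]

end Pool.Agent.P.MP_833722_gt
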