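import Pool.Agent.P.MP_833722_gt.Def

/-! Evaluation of diagrams in Temperley-Lieb modules. -/

set_option autoImplicit false

namespace Pool.Agent.P.MP_833722_gt

section lists

variable {α : Type}

theorem split2 {l : List α} {i : ℕ} (h : i + 2 ≤ l.length) :
    ∃ a x y b, l = a ++ x :: y :: b ∧ a.length = i := by
  refine ⟨l.take i, l[i], l[i + 1], l.drop (i + 2), ?_, by simp; omega⟩
  rw [← List.drop_eq_getElem_cons (by omega), ← List.drop_eq_getElem_cons (by omega),
    List.take_append_drop]

theorem split0 {l : List α} {i : ℕ} (h : i ≤ l.length) : ∃ a b, l = a ++ b ∧ a.length = i :=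
  ⟨l.take i, l.drop i, (List.take_append_drop _ _).symm, by simp; omega⟩

@[simp] theorem ins_app (a b : List α) (x y : α) : ins a.length x y (a ++ b) = a ++ x :: y :: b := by
  simp [ins]

@[simp] theorem del_app (a b : List α) (x y : α) : del a.length (a ++ x :: y :: b) = a ++ b := by
  simp [del, List.drop_append]

@[simp] theorem getD_app0 (a b : List α) (x d : α) : (a ++ x :: b).getD a.length d = x := by
  simp

@[simp] theorem getD_app1 (a b : List α) (x y d : α) :
    (a ++ x :: y :: b).getD (a.length + 1) d = y := by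
  simp [List.getD_eq_getElem?_getD, List.getElem?_append_right]

@[simp] theorem swp_app [Inhabited α] (a b : List α) (x y : α) :
    swp a.length (a ++ x :: y :: b) = a ++ y :: x :: b := by
  rw [swp, getD_app0, getD_app1, del_app, ins_app]

theorem length_ins (i : ℕ) (x y : α) (l : List α) : (ins i x y l).length = l.length + 2 := by
  simp [ins]; omega

theorem length_del {i : ℕ} {l : List α} (h : i + 2 ≤ l.length) :
    (del i l).length + 2 = l.length := by
  simp [del]; omega

theorem length_swp [Inhabited α] {i : ℕ} {l : List α} (h : i + 2 ≤ l.length) :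
    (swp i l).length = l.length := by
  rw [swp, length_ins, length_del h]

/-- rename `y` to `x` -/
def ren (x y z : ℕ) : ℕ := if z = y then x else z

theorem join_app (a b : List ℕ) (x y : ℕ) :
    join a.length (a ++ x :: y :: b) = (a ++ b).map (ren x y) := by
  rw [join, getD_app0, getD_app1, del_app]; rfl

theorem length_join {i : ℕ} {l : List ℕ} (h : i + 2 ≤ l.length) :
    (join i l).length + 2 = l.length := by
  rw [join, List.length_map, length_del h]

theorem fresh_not_mem (l : List ℕ) : l.sum + 1 ∉ l := fun h => by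
  have := List.single_le_sum (fun x _ => Nat.zero_le x) _ h
  omega

end lists

/-- the layers fit, as far as numbers of strands go; `e` strands remain at the end -/
def Ok (e : ℕ) : ℕ → List Pc → Prop
  | m, [] => m = e
  | m, .cup i _ :: w => i ≤ m ∧ Ok e (m + 2) w
  | m, .cap i :: w => i + 2 ≤ m ∧ Ok e (m - 2) w
  | m, .cr i _ :: w => i + 2 ≤ m ∧ Ok e m w

theorem Valid.ok : ∀ {w : List Pc} {o : List Bool}, Valid o w → Ok 0 o.length w
  | [], o, h => by simp [Valid] at h; simp [h, Ok]
  | .cup i d :: w, o, h => ⟨h.1, by rw [← length_ins i d (!d)]; exact h.2.ok⟩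
  | .cap i :: w, o, h => ⟨h.1, by
      rw [← length_del h.1, Nat.add_sub_cancel]; exact h.2.2.ok⟩
  | .cr i s :: w, o, h => ⟨h.1, by rw [← length_swp h.1]; exact h.2.ok⟩

section U

variable {R : Type} [CommRing R] (A B δ : R)

/-- the unreduced state sum -/
def U : List ℕ → List Pc → R
  | _, [] => 1
  | l, .cup i _ :: w => U (ins i (l.sum + 1) (l.sum + 1) l) w
  | l, .cap i :: w => (if l.getD i default ∈ join i l then 1 else δ) * U (join i l) w
  | l, .cr i s :: w => (if s then A else B) * U l w + (if s then B else A) *
      ((if l.getD i default ∈ join i l then 1 else δ) *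
        U (ins i ((join i l).sum + 1) ((join i l).sum + 1) (join i l)) w)

theorem map_U {S : Type} [CommRing S] (f : R →+* S) : ∀ (w : List Pc) (l : List ℕ),
    f (U A B δ l w) = U (f A) (f B) (f δ) l w
  | [], _ => map_one f
  | .cup _ _ :: w, _ => map_U f w _
  | .cap _ :: w, _ => by simp only [U, map_mul, map_U f w, apply_ite f, map_one]
  | .cr _ _ :: w, _ => by simp only [U, map_add, map_mul, map_U f w, apply_ite f, map_one]

end U

/-- a module with cups and caps -/
structure TL (R M : Type) [CommRing R] [AddCommGroup M] [Module R M] (δ : R) where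
  cup : ℕ → M →ₗ[R] M
  cap : ℕ → M →ₗ[R] M
  loop : ∀ i v, cap i (cup i v) = δ • v
  z1 : ∀ i v, cap (i + 1) (cup i v) = v
  z2 : ∀ i v, cap i (cup (i + 1) v) = v
  c1 : ∀ i j v, i ≤ j → cap i (cup (j + 2) v) = cup j (cap i v)
  c2 : ∀ i j v, j ≤ i → cap (i + 2) (cup j v) = cup j (cap i v)

namespace TL

variable {R M : Type} [CommRing R] [AddCommGroup M] [Module R M] {δ : R} (T : TL R M δ)

/-- a crossing -/
def X (A B : R) (i : ℕ) (s : Bool) (v : M) : M :=
  (if s then A else B) • v + (if s then B else A) • T.cup i (T.cap i v)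

/-- evaluation of a word -/
def ev (A B : R) : List Pc → M → M
  | [], v => v
  | .cup i _ :: w, v => ev A B w (T.cup i v)
  | .cap i :: w, v => ev A B w (T.cap i v)
  | .cr i s :: w, v => ev A B w (T.X A B i s v)

theorem ev_lin (A B : R) : ∀ (w : List Pc) (a b : R) (u v : M),
    T.ev A B w (a • u + b • v) = a • T.ev A B w u + b • T.ev A B w v
  | [], _, _, _, _ => rfl
  | .cup _ _ :: w, _, _, _, _ => by simp only [ev, map_add, map_smul, ev_lin A B w]
  | .cap _ :: w, _, _, _, _ => by simp only [ev, map_add, map_smul, ev_lin A B w]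
  | .cr i s :: w, a, b, u, v => by
    simp only [ev]
    rw [← ev_lin A B w]
    congr 1
    simp only [X, map_add, map_smul, smul_add, smul_smul]
    module

theorem ev_smul (A B : R) (w : List Pc) (a : R) (u : M) :
    T.ev A B w (a • u) = a • T.ev A B w u := by
  simpa using T.ev_lin A B w a 0 u u

theorem ev_append (A B : R) : ∀ (p w : List Pc) (v : M),
    T.ev A B (p ++ w) v = T.ev A B w (T.ev A B p v)
  | [], _, _ => rfl
  | .cup _ _ :: p, w, _ => ev_append A B p w _
  | .cap _ :: p, w, _ => ev_append A B p w _
  | .cr _ _ :: p, w, _ => ev_append A B p w _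

/-- planar states -/
inductive Rep (e : ℕ) (v₀ : M) : List ℕ → M → Prop
  | base (l : List ℕ) : l.length = e → Rep e v₀ l v₀
  | ins (a b : List ℕ) (x : ℕ) (v : M) : Rep e v₀ (a ++ b) v → x ∉ a ++ b →
      Rep e v₀ (a ++ x :: x :: b) (T.cup a.length v)

variable {T} {e : ℕ} {v₀ : M}

theorem Rep.len {l : List ℕ} {v : M} (h : T.Rep e v₀ l v) :
    (l.length = e ∧ v = v₀) ∨ e + 2 ≤ l.length := by
  induction h with
  | base l h => exact Or.inl ⟨h, rfl⟩
  | ins a b x v _ _ ih =>
    right
    simp only [List.length_append, List.length_cons] at ih ⊢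
    omega

theorem Rep.map {l : List ℕ} {v : M} (h : T.Rep e v₀ l v) (f : ℕ → ℕ)
    (hf : ∀ x ∈ l, ∀ y ∈ l, f x = f y → x = y) : T.Rep e v₀ (l.map f) v := by
  induction h with
  | base l h => exact Rep.base _ (by simpa using h)
  | ins a b x v _ hx ih =>
    have hs : ∀ y ∈ a ++ b, y ∈ a ++ x :: x :: b := by
      intro y hy; simp only [List.mem_append, List.mem_cons] at hy ⊢; tauto
    have := Rep.ins (a.map f) (b.map f) (f x) v
      (by rw [← List.map_append]; exact ih fun y hy z hz => hf y (hs y hy) z (hs z hz)) (by
        rw [← List.map_append, List.mem_map]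
        rintro ⟨y, hy, e1⟩
        exact hx (hf y (hs y hy) x (by simp) e1 ▸ hy))
    simpa using this

theorem map_ren_of_not_mem {x y : ℕ} {l : List ℕ} (h : y ∉ l) : l.map (ren x y) = l := by
  conv_rhs => rw [← List.map_id l]
  exact List.map_congr_left fun z hz => if_neg fun e1 : z = y => h (e1 ▸ hz)

theorem Rep.cap (he : e ≤ 1) {l : List ℕ} {v : M} (h : T.Rep e v₀ l v) :
    ∀ a x y b, l = a ++ x :: y :: b → ∃ v', T.Rep e v₀ ((a ++ b).map (ren x y)) v' ∧
      T.cap a.length v = (if x ∈ (a ++ b).map (ren x y) then 1 else δ) • v' := by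
  induction h with
  | base l h =>
    rintro a x y b rfl
    simp only [List.length_append, List.length_cons] at h
    omega
  | ins a' b' z v hr hz ih =>
    intro a x y b e1
    rcases List.append_eq_append_iff.1 e1 with ⟨c, rfl, e2⟩ | ⟨c, rfl, e2⟩
    · match c, e2 with
      | [], e2 =>
        simp only [List.nil_append, List.cons.injEq] at e2
        obtain ⟨rfl, rfl, rfl⟩ := e2
        rw [List.append_nil, map_ren_of_not_mem hz, if_neg hz]
        exact ⟨v, hr, T.loop _ _⟩
      | [u], e2 =>
        simp only [List.cons_append, List.nil_append, List.cons.injEq] at e2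
        obtain ⟨rfl, rfl, rfl⟩ := e2
        refine ⟨v, ?_, ?_⟩
        · have e3 : (a' ++ [z] ++ b).map (ren z y) = (a' ++ y :: b).map (ren z y) := by
            simp [ren]
          rw [e3]
          refine hr.map _ fun s hs t ht => ?_
          unfold ren
          split_ifs with h1 h2 h2
          · intro _; rw [h1, h2]
          · intro h3; exact (hz (h3 ▸ ht)).elim
          · intro h3; exact (hz (h3 ▸ hs)).elim
          · exact id
        · rw [if_pos (by simp [ren]), one_smul, List.length_append]
          exact T.z1 _ _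
      | u :: u' :: c, e2 =>
        simp only [List.cons_append, List.cons.injEq] at e2
        obtain ⟨rfl, rfl, rfl⟩ := e2
        obtain ⟨v', h1, h2⟩ := ih (a' ++ c) x y b (by simp)
        simp only [List.mem_append, List.mem_cons, not_or] at hz
        have hzy : ren x y z = z := if_neg hz.2.2.2.1
        have hz' : z ∉ a'.map (ren x y) ++ (c ++ b).map (ren x y) := by
          rw [← List.map_append, List.mem_map]
          rintro ⟨t, ht, e3⟩
          unfold ren at e3
          split_ifs at e3
          · exact hz.2.2.1 e3.symm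
          · subst e3; simp only [List.mem_append] at ht; tauto
        have h3 := Rep.ins (a'.map (ren x y)) ((c ++ b).map (ren x y)) z v'
          (by simpa using h1) hz'
        refine ⟨_, by simpa [hzy] using h3, ?_⟩
        rw [show (a' ++ z :: z :: c).length = (a' ++ c).length + 2 by simp; omega,
          T.c2 _ _ _ (by simp), h2, map_smul]
        congr 1
        have : x ≠ z := fun h => hz.2.2.1 h.symm
        simp [hzy, this]
    · match c, e2 with
      | [], e2 =>
        simp only [List.nil_append, List.cons.injEq] at e2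
        obtain ⟨rfl, rfl, rfl⟩ := e2
        rw [List.append_nil] at hr hz ⊢
        rw [map_ren_of_not_mem hz, if_neg hz]
        exact ⟨v, hr, T.loop _ _⟩
      | [u], e2 =>
        simp only [List.cons_append, List.nil_append, List.cons.injEq] at e2
        obtain ⟨rfl, rfl, rfl⟩ := e2
        have e3 : (a ++ y :: b').map (ren x y) = a ++ [x] ++ b' := by
          rw [← map_ren_of_not_mem (x := x) hz]
          simp [ren]
        refine ⟨v, e3 ▸ hr, ?_⟩
        rw [if_pos (by rw [e3]; simp), one_smul, List.length_append]
        exact T.z2 _ _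
      | u :: u' :: c, e2 =>
        simp only [List.cons_append, List.cons.injEq] at e2
        obtain ⟨rfl, rfl, rfl⟩ := e2
        obtain ⟨v', h1, h2⟩ := ih a x y (c ++ b') (by simp)
        simp only [List.mem_append, List.mem_cons, not_or] at hz
        have hzy : ren x y z = z := if_neg hz.1.2.2.1
        have hz' : z ∉ (a ++ c).map (ren x y) ++ b'.map (ren x y) := by
          rw [← List.map_append, List.mem_map]
          rintro ⟨t, ht, e3⟩
          unfold ren at e3
          split_ifs at e3
          · exact hz.1.2.1 e3.symm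
          · subst e3; simp only [List.mem_append] at ht; tauto
        have h3 := Rep.ins ((a ++ c).map (ren x y)) (b'.map (ren x y)) z v'
          (by simpa using h1) hz'
        refine ⟨_, by simpa [hzy] using h3, ?_⟩
        rw [show (a ++ x :: y :: c).length = (a ++ c).length + 2 by simp; omega,
          T.c1 _ _ _ (by simp), h2, map_smul, List.length_append (as := a) (bs := c)]
        congr 1
        have : x ≠ z := fun h => hz.1.2.1 h.symm
        simp [hzy, this]

theorem Rep.cup' {l : List ℕ} {v : M} (h : T.Rep e v₀ l v) {i : ℕ} (hi : i ≤ l.length) :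
    T.Rep e v₀ (MP_833722_gt.ins i (l.sum + 1) (l.sum + 1) l) (T.cup i v) := by
  obtain ⟨a, b, rfl, rfl⟩ := split0 hi
  rw [ins_app]
  exact Rep.ins a b _ v h (fresh_not_mem _)

theorem Rep.cap' (he : e ≤ 1) {l : List ℕ} {v : M} (h : T.Rep e v₀ l v) {i : ℕ}
    (hi : i + 2 ≤ l.length) : ∃ v', T.Rep e v₀ (join i l) v' ∧
      T.cap i v = (if l.getD i default ∈ join i l then 1 else δ) • v' := by
  obtain ⟨a, x, y, b, rfl, rfl⟩ := split2 hi
  rw [join_app, getD_app0]
  exact h.cap he a x y b rfl

theorem ev_eq (he : e ≤ 1) (A B : R) {e' : ℕ} {v₁ : M}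
    (hend : ∀ l v, T.Rep e v₀ l v → l.length = e' → v = v₁) :
    ∀ (w : List Pc) (l : List ℕ) (v : M), T.Rep e v₀ l v →
    Ok e' l.length w → T.ev A B w v = U A B δ l w • v₁
  | [], l, v, h, ho => by simp [ev, U, hend l v h ho]
  | .cup i _ :: w, l, v, h, ho =>
    ev_eq he A B hend w _ _ (h.cup' ho.1) (by rw [length_ins]; exact ho.2)
  | .cap i :: w, l, v, h, ho => by
    obtain ⟨v', h1, h2⟩ := h.cap' he ho.1
    rw [ev, h2, ev_smul, ev_eq he A B hend w _ _ h1
      (by rw [show (join i l).length = l.length - 2 by have := length_join ho.1; omega]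
          exact ho.2), U, smul_smul]
  | .cr i s :: w, l, v, h, ho => by
    obtain ⟨v', h1, h2⟩ := h.cap' he ho.1
    have h3 := length_join ho.1
    rw [ev, X, ev_lin, h2, map_smul, ev_smul, ev_eq he A B hend w _ _ h ho.2,
      ev_eq he A B hend w _ _ (h1.cup' (by have := ho.1; omega))
        (by rw [length_ins, h3]; exact ho.2), U]
    simp only [smul_smul, add_smul]

theorem ev_nil (T : TL R M δ) (A B : R) {w : List Pc} (h : Ok 0 0 w) (v : M) :
    T.ev A B w v = U A B δ [] w • v :=
  ev_eq (e := 0) (by omega) A B (fun _ _ h hl => (h.len.resolve_right (by omega)).2) w [] v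
    (Rep.base _ rfl) h

theorem ev_two (T : TL R M δ) (A B : R) {w : List Pc} (h : Ok 2 0 w) (v : M) :
    T.ev A B w v = U A B δ [] w • T.cup 0 v := by
  refine ev_eq (e := 0) (by omega) A B (fun l u h hl => ?_) w [] v (Rep.base _ rfl) h
  cases h with
  | base l h => omega
  | ins a b x u h _ =>
    simp only [List.length_append, List.length_cons] at hl
    have h1 := h.len.resolve_right (by simp only [List.length_append]; omega)
    rw [h1.2, show a.length = 0 by omega]

end TL

end Pool.Agent.P.MP_833722_gt
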